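import Pool.Agent.P8H50.NK.Stm
import Pool.Agent.P8H61.NK.Wrn
import Pool.Agent.P8H61.NK.Lin
import Pool.Agent.P8H52.NK.Ldh
import Pool.Agent.P8H52.NK.Chr
import Pool.Agent.P8H52.NK.Quo
import Pool.Agent.P8H52.NK.Prx
import Pool.Agent.P8H94.NK.Smt
import Pool.Agent.P8H88.NK.Orw
import Pool.Agent.P8H88.NK.Lup
import Pool.Agent.P8H54.NK.Div
import Pool.Agent.P8H54.NK.Cor
import Pool.Agent.P8H54.NK.Exp
import Pool.Agent.P8H20.NK.Spn
import Pool.Agent.P8H69.NK.Wts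
import Pool.Agent.P8H54.NK.Cur

/-!
Project NK (helper50): assembly of the analytic part. The packages are by helpers 61, 52, 94, 88, 54,
20 and 69.
-/

set_option autoImplicit false

namespace Pool.Agent.P8H50.NK

/-- Entire curves in products of projective spaces. -/
theorem t_CUR : S_CUR := by
  have hWRN : S_WRN := Pool.Agent.P8H61.NK.wrn
  have hWRB : S_WRB := Pool.Agent.P8H61.NK.wrb
  have hPRX : S_PRX := Pool.Agent.P8H52.NK.prx Pool.Agent.P8H52.NK.ldh Pool.Agent.P8H52.NK.chr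
    Pool.Agent.P8H52.NK.quo
  have hSMT : S_SMT := Pool.Agent.P8H94.NK.smt hWRN hWRB hPRX Pool.Agent.P8H61.NK.lin
  have hORD : S_ORD := Pool.Agent.P8H88.NK.ord (Pool.Agent.P8H88.NK.orw hWRN hWRB)
  exact Pool.Agent.P8H54.NK.cur (Pool.Agent.P8H54.NK.cor hWRN hSMT Pool.Agent.P8H88.NK.lup hORD
    Pool.Agent.P8H54.NK.dv) Pool.Agent.P8H54.NK.exp Pool.Agent.P8H20.NK.spn
    Pool.Agent.P8H69.NK.t_WTS Pool.Agent.P8H61.NK.res

end Pool.Agent.P8H50.NK
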