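import Pool.Agent.P8H50.NK.CDefs

/-!
Project NK (helper50): general position; complete intersections of cyclic covers.
-/

set_option autoImplicit false
set_option linter.unusedSectionVars false

namespace Pool.Agent.P8H50.NK

open Pool.Agent.W602.GT

/-- The hyperplanes `∑ l, ℓ i j l * X l = 0` of all the families together are in general position: any
`n + 1` or fewer of them are linearly independent. -/
def GenPos {n r : ℕ} {q : Fin r → ℕ} (ℓ : ∀ i, Fin (q i) → Fin (n + 1) → ℂ) : Prop :=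
  ∀ S : Finset (Σ i, Fin (q i)), S.card ≤ n + 1 →
    LinearIndependent ℂ fun a : S => ℓ a.1.1 a.1.2

theorem GenPos.mult {n r : ℕ} {q : Fin r → ℕ} {ℓ : ∀ i, Fin (q i) → Fin (n + 1) → ℂ}
    (h : GenPos ℓ) (i : Fin r) (S : Finset (Fin (q i))) (hS : S.card = n + 1)
    (v : Fin (n + 1) → ℂ) (hv : ∀ j ∈ S, ∑ l, ℓ i j l * v l = 0) : v = 0 := by
  classical
  let T : Finset (Σ i, Fin (q i)) := S.map ⟨Sigma.mk i, sigma_mk_injective⟩
  have hT : T.card = n + 1 := by
    rw [Finset.card_map, hS]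
  have h1 := h T hT.le
  have : Nonempty T := by
    have : T.Nonempty := by
      rw [← Finset.card_pos, hT]
      omega
    exact this.to_subtype
  have h2 := h1.span_eq_top_of_card_eq_finrank (by
    rw [Fintype.card_coe, hT]
    simp)
  have h3 : ∀ u ∈ Submodule.span ℂ (Set.range fun a : T => ℓ a.1.1 a.1.2),
      ∑ l, u l * v l = 0 := by
    intro u hu
    induction hu using Submodule.span_induction with
    | mem u hu =>
      obtain ⟨⟨a, ha⟩, rfl⟩ := hu
      obtain ⟨j, hj, rfl⟩ := Finset.mem_map.1 ha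
      exact hv j hj
    | zero => simp
    | add a b _ _ ha hb =>
      simp only [Pi.add_apply, add_mul, Finset.sum_add_distrib, ha, hb, add_zero]
    | smul a u _ hu =>
      simp only [Pi.smul_apply, smul_eq_mul, mul_assoc, ← Finset.mul_sum, hu, mul_zero]
  funext l
  have h4 := h3 (Pi.single l 1) (by rw [h2]; trivial)
  simpa [Pi.single_apply] using h4

theorem GenPos.rank {n r : ℕ} {q : Fin r → ℕ} {ℓ : ∀ i, Fin (q i) → Fin (n + 1) → ℂ}
    (h : GenPos ℓ) {c : ℕ} (hr : n + 1 ≤ r + c) (σ : ∀ i, Fin (q i)) :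
    n + 1 ≤ Module.finrank ℂ (Submodule.span ℂ (Set.range fun i => ℓ i (σ i))) + c := by
  classical
  obtain ⟨T, -, hT⟩ := Finset.exists_subset_card_eq (s := (Finset.univ : Finset (Fin r)))
    (n := n + 1 - c) (by rw [Finset.card_univ, Fintype.card_fin]; omega)
  let S : Finset (Σ i, Fin (q i)) := T.map ⟨fun i => ⟨i, σ i⟩, fun a b hab => by
    simpa using congrArg Sigma.fst hab⟩
  have hS : S.card = n + 1 - c := by rw [Finset.card_map, hT]
  have h1 := h S (by omega)
  have h2 := finrank_span_eq_card h1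
  rw [Fintype.card_coe, hS] at h2
  have h3 : Submodule.span ℂ (Set.range fun a : S => ℓ a.1.1 a.1.2) ≤
      Submodule.span ℂ (Set.range fun i => ℓ i (σ i)) := by
    apply Submodule.span_mono
    rintro _ ⟨⟨a, ha⟩, rfl⟩
    obtain ⟨i, hi, rfl⟩ := Finset.mem_map.1 ha
    exact ⟨i, rfl⟩
  have h4 := Submodule.finrank_mono h3
  rw [h2] at h4
  omega

theorem small_of {n q k : ℕ} (hq : (n + 1) * (n + 2) < 2 * q) (hk : k ≤ n) :
    k * (2 * n + 1 - k) * q < 2 * q * (q + k - (2 * n + 1)) := by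
  obtain ⟨j, rfl⟩ := Nat.exists_eq_add_of_le hk
  have h1 : 2 * (k + j) + 1 - k = k + 2 * j + 1 := by omega
  have h3 : (k + 2) * (k + 2 * j + 1) + j * j = (k + j + 1) * (k + j + 2) + j := by ring
  have h4 : (k + 2) * (k + 2 * j + 1) < 2 * q := by nlinarith [Nat.le_self_pow (two_ne_zero) j]
  have h5 : k + 2 * j + 1 < q := by nlinarith
  obtain ⟨s, hs⟩ : ∃ s, q + k = 2 * (k + j) + 1 + s := ⟨q + k - (2 * (k + j) + 1), by omega⟩
  have h6 : q + k - (2 * (k + j) + 1) = s := by omega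
  rw [h1, h6]
  have h7 : q = k + 2 * j + 1 + s := by omega
  have h8 : k * (k + 2 * j + 1) < 2 * s := by nlinarith
  have hq0 : 0 < q := by omega
  calc k * (k + 2 * j + 1) * q < 2 * s * q := Nat.mul_lt_mul_of_pos_right h8 hq0
    _ = 2 * q * s := by ring

theorem two_mul_lt {n q : ℕ} (hq : (n + 1) * (n + 2) < 2 * q) : 2 * n < q := by
  nlinarith [Nat.le_self_pow (two_ne_zero) n]

section complete

variable {n r : ℕ} {K : Type} [Field K] [Algebra ℂ K]

/-- the point with the coordinates `w i` and `y l` -/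
def pt (w : Fin r → K) (y : Fin (n + 1) → K) : Fin (r + n + 1) → K :=
  Fin.append (m := r) (n := n + 1) w y

/-- The data for closed subvarieties of the variety `w i ^ q i = ∏ j, ∑ l, ℓ i j l * y l`. -/
noncomputable def ciDat (q : Fin r → ℕ) (ℓ : ∀ i, Fin (q i) → Fin (n + 1) → ℂ)
    (x : Fin (r + n + 1) → K) : CDat x n r where
  d := 1
  q := q
  t := fun _ => n
  m := q
  ℓ := ℓ
  e := fun _ _ => 1
  A := fun l => MvPolynomial.X (Fin.natAdd r l : Fin (r + (n + 1)))
  B := fun i => MvPolynomial.X (Fin.castAdd (n + 1) i : Fin (r + (n + 1)))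

theorem pt_y (w : Fin r → K) (y : Fin (n + 1) → K) (l : Fin (n + 1)) :
    pt w y (Fin.natAdd r l : Fin (r + (n + 1))) = y l := Fin.append_right _ _ _

theorem pt_w (w : Fin r → K) (y : Fin (n + 1) → K) (i : Fin r) :
    pt w y (Fin.castAdd (n + 1) i : Fin (r + (n + 1))) = w i := Fin.append_left _ _ _

theorem coord_cases (a : Fin (r + n + 1)) : (∃ l : Fin (n + 1), a = (Fin.natAdd r l :
    Fin (r + (n + 1)))) ∨ ∃ i : Fin r, a = (Fin.castAdd (n + 1) i : Fin (r + (n + 1))) := by
  revert a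
  show ∀ a : Fin (r + (n + 1)), _
  intro a
  induction a using Fin.addCases with
  | left i => exact Or.inr ⟨i, rfl⟩
  | right l => exact Or.inl ⟨l, rfl⟩

theorem ci_rel {q : Fin r → ℕ} {ℓ : ∀ i, Fin (q i) → Fin (n + 1) → ℂ} {w : Fin r → K}
    {y : Fin (n + 1) → K} (h : ∀ i, w i ^ q i = ∏ j, ∑ l, algebraMap ℂ K (ℓ i j l) * y l)
    {E : Type} [Field E] [Algebra ℂ E] {z : Fin (r + n + 1) → E}
    (hz : ∀ G : MvPolynomial (Fin (r + n + 1)) ℂ, IsForm G → val (pt w y) G = 0 → val z G = 0)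
    (i : Fin r) : z (Fin.castAdd (n + 1) i : Fin (r + (n + 1))) ^ q i =
      ∏ j, ∑ l, algebraMap ℂ E (ℓ i j l) * z (Fin.natAdd r l : Fin (r + (n + 1))) := by
  have hv : ∀ {F : Type} [Field F] [Algebra ℂ F] (u : Fin (r + n + 1) → F),
      val u (MvPolynomial.X (Fin.castAdd (n + 1) i : Fin (r + (n + 1))) ^ q i -
        ∏ j, ∑ l, MvPolynomial.C (ℓ i j l) *
          MvPolynomial.X (Fin.natAdd r l : Fin (r + (n + 1)))) =
      u (Fin.castAdd (n + 1) i : Fin (r + (n + 1))) ^ q i -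
        ∏ j, ∑ l, algebraMap ℂ F (ℓ i j l) * u (Fin.natAdd r l : Fin (r + (n + 1))) := by
    intro F _ _ u
    unfold Pool.Agent.W602.GT.val
    simp [map_prod, map_sum]
  have h1 := hz (MvPolynomial.X (Fin.castAdd (n + 1) i : Fin (r + (n + 1))) ^ q i -
        ∏ j, ∑ l, MvPolynomial.C (ℓ i j l) *
          MvPolynomial.X (Fin.natAdd r l : Fin (r + (n + 1)))) ?_ ?_
  · rw [hv] at h1
    exact sub_eq_zero.1 h1
  · refine ⟨q i, MvPolynomial.IsHomogeneous.sub ?_ ?_⟩
    · have := (MvPolynomial.isHomogeneous_X ℂ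
        (Fin.castAdd (n + 1) i : Fin (r + (n + 1)))).pow (q i)
      rwa [one_mul] at this
    · have := MvPolynomial.IsHomogeneous.prod (Finset.univ : Finset (Fin (q i)))
        (fun j => ∑ l, MvPolynomial.C (ℓ i j l) *
          (MvPolynomial.X (Fin.natAdd r l : Fin (r + (n + 1))) :
            MvPolynomial (Fin (r + n + 1)) ℂ)) (fun _ => 1) (fun j _ => by
          refine MvPolynomial.IsHomogeneous.sum _ _ _ fun l _ => ?_
          have := (MvPolynomial.isHomogeneous_C (Fin (r + n + 1)) (ℓ i j l)).mul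
            (MvPolynomial.isHomogeneous_X ℂ (Fin.natAdd r l : Fin (r + (n + 1))))
          rwa [zero_add] at this)
      simpa using this
  · rw [hv, sub_eq_zero]
    simp only [pt_y, pt_w]
    exact h i

theorem ci_ne {q : Fin r → ℕ} {ℓ : ∀ i, Fin (q i) → Fin (n + 1) → ℂ} (hq : ∀ i, 0 < q i)
    {E : Type} [Field E] [Algebra ℂ E] {z : Fin (r + n + 1) → E} (hz : z ≠ 0)
    (h : ∀ i, z (Fin.castAdd (n + 1) i : Fin (r + (n + 1))) ^ q i =
      ∏ j, ∑ l, algebraMap ℂ E (ℓ i j l) * z (Fin.natAdd r l : Fin (r + (n + 1)))) :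
    ∃ l : Fin (n + 1), z (Fin.natAdd r l : Fin (r + (n + 1))) ≠ 0 := by
  by_contra hcon
  push Not at hcon
  apply hz
  funext a
  rcases coord_cases a with ⟨l, rfl⟩ | ⟨i, rfl⟩
  · exact hcon l
  · have h1 := h i
    simp only [hcon, mul_zero, Finset.sum_const_zero] at h1
    rw [Finset.prod_const, Finset.card_univ, Fintype.card_fin, zero_pow (hq i).ne'] at h1
    exact pow_eq_zero_iff (hq i).ne' |>.1 h1

theorem ci_alg {q : Fin r → ℕ} {ℓ : ∀ i, Fin (q i) → Fin (n + 1) → ℂ} (hq : ∀ i, 0 < q i)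
    {E : Type} [Field E] [Algebra ℂ E] {z : Fin (r + n + 1) → E} (hz : z ≠ 0)
    (hgen : coords ℂ z = ⊤)
    (h : ∀ i, z (Fin.castAdd (n + 1) i : Fin (r + (n + 1))) ^ q i =
      ∏ j, ∑ l, algebraMap ℂ E (ℓ i j l) * z (Fin.natAdd r l : Fin (r + (n + 1)))) :
    Algebra.IsAlgebraic (coords ℂ fun l : Fin (n + 1) =>
      z (Fin.natAdd r l : Fin (r + (n + 1)))) E := by
  obtain ⟨l0, hl0⟩ := ci_ne hq hz h
  set F := coords ℂ fun l : Fin (n + 1) => z (Fin.natAdd r l : Fin (r + (n + 1))) with hF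
  let A : IntermediateField ℂ E := (algebraicClosure F E).restrictScalars ℂ
  have hmem : ∀ u : E, u ∈ A ↔ IsAlgebraic F u := fun u => by
    show u ∈ algebraicClosure F E ↔ _
    exact mem_algebraicClosure_iff
  have hFA : ∀ u ∈ F, u ∈ A := fun u hu => (hmem u).2 (isAlgebraic_algebraMap (⟨u, hu⟩ : F))
  have hy : ∀ l : Fin (n + 1), z (Fin.natAdd r l : Fin (r + (n + 1))) /
      z (Fin.natAdd r l0 : Fin (r + (n + 1))) ∈ F := fun l =>
    IntermediateField.subset_adjoin _ _ ⟨l, l0, hl0, rfl⟩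
  have hall : ∀ a, z a / z (Fin.natAdd r l0 : Fin (r + (n + 1))) ∈ A := by
    intro a
    rcases coord_cases a with ⟨l, rfl⟩ | ⟨i, rfl⟩
    · exact hFA _ (hy l)
    · have h1 : (z (Fin.castAdd (n + 1) i : Fin (r + (n + 1))) /
          z (Fin.natAdd r l0 : Fin (r + (n + 1)))) ^ q i ∈ F := by
        rw [div_pow, h i]
        have h2 : (∏ j, ∑ l, algebraMap ℂ E (ℓ i j l) *
              z (Fin.natAdd r l : Fin (r + (n + 1)))) /
            z (Fin.natAdd r l0 : Fin (r + (n + 1))) ^ q i =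
            ∏ j, ∑ l, algebraMap ℂ E (ℓ i j l) * (z (Fin.natAdd r l : Fin (r + (n + 1))) /
              z (Fin.natAdd r l0 : Fin (r + (n + 1)))) := by
          have h3 : z (Fin.natAdd r l0 : Fin (r + (n + 1))) ^ q i =
              ∏ _j : Fin (q i), z (Fin.natAdd r l0 : Fin (r + (n + 1))) := by
            rw [Finset.prod_const, Finset.card_univ, Fintype.card_fin]
          rw [h3, ← Finset.prod_div_distrib]
          refine Finset.prod_congr rfl fun j _ => ?_
          rw [Finset.sum_div]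
          exact Finset.sum_congr rfl fun l _ => by rw [mul_div_assoc]
        rw [h2]
        exact prod_mem fun j _ => sum_mem fun l _ => mul_mem (F.algebraMap_mem _) (hy l)
      rw [hmem]
      have h4 : IsAlgebraic F ((z (Fin.castAdd (n + 1) i : Fin (r + (n + 1))) /
          z (Fin.natAdd r l0 : Fin (r + (n + 1)))) ^ q i) :=
        isAlgebraic_algebraMap (⟨_, h1⟩ : F)
      exact h4.of_pow (hq i)
  have htop : (⊤ : IntermediateField ℂ E) ≤ A := by
    rw [← hgen]
    unfold coords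
    rw [IntermediateField.adjoin_le_iff]
    rintro _ ⟨a, b, hb, rfl⟩
    have h5 : z a / z b = (z a / z (Fin.natAdd r l0 : Fin (r + (n + 1)))) /
        (z b / z (Fin.natAdd r l0 : Fin (r + (n + 1)))) := by
      field_simp
    rw [h5]
    exact div_mem (hall a) (hall b)
  exact ⟨fun u => (hmem u).1 (htop (IntermediateField.mem_top (x := u)))⟩

/-- **Complete intersections** of cyclic covers: the assumptions hold for all closed subvarieties if
the hyperplanes are in general position and `2 * q i > (n + 1) * (n + 2)`. -/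
theorem ciDat_good {q : Fin r → ℕ} {ℓ : ∀ i, Fin (q i) → Fin (n + 1) → ℂ} (hℓ : GenPos ℓ)
    (hq : ∀ i, (n + 1) * (n + 2) < 2 * q i) {w : Fin r → K} {y : Fin (n + 1) → K}
    (h : ∀ i, w i ^ q i = ∏ j, ∑ l, algebraMap ℂ K (ℓ i j l) * y l) :
    (ciDat q ℓ (pt w y)).Good := by
  have hq0 : ∀ i, 0 < q i := fun i => by
    have := hq i
    have := two_mul_lt this
    omega
  refine
    { one_le := le_rfl
      homA := fun l => MvPolynomial.isHomogeneous_X ℂ _
      homB := fun i => ?_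
      free := ?_
      fin := fun E _ _ z hz => ?_
      eq := fun i => ?_
      pos := fun i j => le_rfl
      dvd := fun i => by
        show q i ∣ ∑ _j : Fin (q i), 1
        simp
      mult := fun i S hS v hv => hℓ.mult i S hS v hv
      dim := fun i => ⟨le_rfl, two_mul_lt (hq i)⟩
      small := fun i k _ hk => by
        have := small_of (hq i) hk
        show k * (2 * n + 1 - k) * (∑ _j : Fin (q i), 1) < 2 * q i * (q i + k - (2 * n + 1))
        simpa using this }
  · have : (1 : ℕ) * ((∑ _j : Fin (q i), 1) / q i) = 1 := by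
      simp [Nat.div_self (hq0 i)]
    show (MvPolynomial.X (Fin.castAdd (n + 1) i : Fin (r + (n + 1))) :
      MvPolynomial (Fin (r + n + 1)) ℂ).IsHomogeneous (1 * ((∑ _j : Fin (q i), 1) / q i))
    rw [this]
    exact MvPolynomial.isHomogeneous_X ℂ _
  · rintro a ⟨ha, hG⟩
    have h1 := ci_rel h (z := a) hG
    obtain ⟨l, hl⟩ := ci_ne hq0 ha h1
    refine ⟨l, ?_⟩
    show MvPolynomial.aeval a (MvPolynomial.X _) ≠ 0
    rwa [MvPolynomial.aeval_X]
  · have h1 := ci_rel h hz.spec
    have h2 := ci_alg hq0 hz.ne hz.gen h1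
    have h3 : (fun l => val z ((ciDat q ℓ (pt w y)).A l)) = fun l : Fin (n + 1) =>
        z (Fin.natAdd r l : Fin (r + (n + 1))) := by
      funext l
      show MvPolynomial.aeval z (MvPolynomial.X _) = _
      rw [MvPolynomial.aeval_X]
    rw [h3]
    exact h2
  · show MvPolynomial.aeval (pt w y) (MvPolynomial.X _) ^ q i = ∏ j, MvPolynomial.aeval (pt w y)
      (∑ l, MvPolynomial.C (ℓ i j l) * MvPolynomial.X _) ^ 1
    rw [MvPolynomial.aeval_X, pt_w, h i]
    refine Finset.prod_congr rfl fun j _ => ?_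
    rw [pow_one, map_sum]
    refine Finset.sum_congr rfl fun l _ => ?_
    rw [map_mul, MvPolynomial.aeval_X, pt_y]
    simp

theorem ciDat_codim {q : Fin r → ℕ} {ℓ : ∀ i, Fin (q i) → Fin (n + 1) → ℂ} (hℓ : GenPos ℓ)
    {c : ℕ} (hr : n + 1 ≤ r + c) (x : Fin (r + n + 1) → K) : (ciDat q ℓ x).Codim c :=
  fun σ => hℓ.rank hr σ

end complete

end Pool.Agent.P8H50.NK
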