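import Pool.Agent.P8H50.NK.Gpt

/-!
Project NK (helper50): meromorphic images of affine spaces (after `SS/Ent.lean`).
-/

set_option autoImplicit false
set_option maxHeartbeats 400000
set_option linter.overlappingInstances false
set_option linter.unusedSectionVars false

namespace Pool.Agent.P8H50.NK

open Pool.Agent.P8H50.SS.SF (diff_eval exists_common)
open Pool.Agent.Q103.SF
open FF Filter
open Pool.Agent.W602.GT Metric Topology
open Pool.Agent.Y221.PD
open Pool.Agent.Y221.BD (EntireCurve)

variable {M : ℕ} {K : Type} [Field K] [Algebra ℂ K] {x : Fin (M + 1) → K}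

/-- **Meromorphic images of affine spaces.** -/
theorem mero_lowB (hG1 : S_gpc) (hH : HeredB x)
    (hfin : (lowCurves x).Finite) {g : ℕ} {u : Fin (M + 1) → (Fin g → ℂ) → ℂ}
    (hu : MeroMap x g u) : vanOn Set.univ (fun t i => u i t) ∈ lowCurves x := by
  classical
  by_contra hcon
  obtain ⟨i, j, a, b, hab⟩ := hu.nonconst
  obtain ⟨k0, hk0⟩ : ∃ k, u k a ≠ 0 := by
    by_contra hcon
    push Not at hcon
    apply hab
    simp only [hcon, zero_mul]
  -- forms which vanish on the curves but not on the image
  have hsep : ∀ V ∈ lowCurves x, vanOn Set.univ (fun t i => u i t) ⊆ V →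
      ∃ G ∈ V, IsForm G ∧ ∃ p, MvPolynomial.eval (fun i => u i p) G ≠ 0 := by
    intro V hV hle
    by_contra hno
    push Not at hno
    apply hcon
    have h1 : vanOn Set.univ (fun t i => u i t) = V := by
      refine Set.Subset.antisymm hle fun G hG => ?_
      have hGf : IsForm G := by
        obtain ⟨L, _, _, _, v, -, -, -, rfl⟩ := hV
        exact hG.1
      exact ⟨hGf, fun t _ => hno G hG hGf t⟩
    rwa [h1]
  choose! G hGV hGf hGp using hsep
  -- a point where none of these forms vanishes
  let S := hfin.toFinset.filter fun V => vanOn Set.univ (fun t i => u i t) ⊆ V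
  obtain ⟨p, hp⟩ := exists_common (insert none (S.image some))
    (fun o => match o with
      | none => u k0
      | some V => fun t => MvPolynomial.eval (fun i => u i t) (G V)) (by
      rintro (_ | V)
      · exact hu.hol k0
      · exact diff_eval hu.hol (G V)) (by
      intro o ho
      rcases Finset.mem_insert.1 ho with rfl | ho
      · exact ⟨a, hk0⟩
      · obtain ⟨V, hV, rfl⟩ := Finset.mem_image.1 ho
        obtain ⟨h1, h2⟩ := Finset.mem_filter.1 hV
        exact hGp V (hfin.mem_toFinset.1 h1) h2)
  have hpk : u k0 p ≠ 0 := hp none (Finset.mem_insert_self _ _)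
  -- a second point
  obtain ⟨q, i', j', hq⟩ : ∃ q i' j', u i' p * u j' q ≠ u j' p * u i' q := by
    by_contra hcon2
    push Not at hcon2
    apply hab
    have h1 : ∀ l c, u l c = u k0 c * u l p / u k0 p := by
      intro l c
      have := hcon2 c l k0
      field_simp
      linear_combination -this
    rw [h1 i a, h1 j b, h1 j a, h1 i b]
    ring
  let ℓ : ℂ → Fin g → ℂ := fun s => p + s • (q - p)
  have hℓ : Differentiable ℂ ℓ := by
    simp only [ℓ]
    fun_prop
  have h0 : ℓ 0 = p := by simp [ℓ]
  have h1 : ℓ 1 = q := by simp [ℓ]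
  obtain ⟨f, hf, hfu⟩ := curve_of_entire (x := x) (u := fun i s => u i (ℓ s))
    (fun i => (hu.hol i).comp hℓ) (fun G hG hxG s => hu.mem G hG hxG (ℓ s)) (i := i') (j := j')
    (a := 0) (b := 1) (by
      simp only [h0, h1]
      exact hq)
  have hV := entire_low hG1 hH hf
  set V := vanOn Set.univ (fun t i => f i t) with hVdef
  have hle : vanOn Set.univ (fun t i => u i t) ⊆ V := by
    rintro H ⟨hH, hH0⟩
    refine ⟨hH, fun t _ => ?_⟩
    obtain ⟨e, he⟩ := hH
    by_cases hne : ∃ k, u k (ℓ t) ≠ 0
    · obtain ⟨c, hc, hcf⟩ := hfu t hne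
      have h2 := eval_scale he c hcf
      rw [hH0 (ℓ t) (Set.mem_univ _)] at h2
      exact (mul_eq_zero.1 h2.symm).resolve_left (pow_ne_zero _ hc)
    · -- continuity
      have hcont : Continuous fun t => MvPolynomial.eval (fun i => f i t) H :=
        (MvPolynomial.continuous_eval H).comp (continuous_pi fun i => (hf.hol i).continuous)
      have hcl : AnalyticOnNhd ℂ (fun t => u k0 (ℓ t)) Set.univ :=
        ((hu.hol k0).comp hℓ).differentiableOn.analyticOnNhd isOpen_univ
      have hev : ∀ᶠ s in 𝓝[≠] t, u k0 (ℓ s) ≠ 0 := by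
        rcases (hcl t (Set.mem_univ _)).eventually_eq_zero_or_eventually_ne_zero with h2 | h2
        · exfalso
          have := hcl.eq_of_eventuallyEq (f := fun t => u k0 (ℓ t)) (g := fun _ => 0)
            analyticOnNhd_const h2
          apply hpk
          rw [← h0]
          exact congrFun this 0
        · exact h2
      have hev2 : ∀ᶠ s in 𝓝[≠] t, MvPolynomial.eval (fun i => f i s) H = 0 := by
        filter_upwards [hev] with s hs
        obtain ⟨c, hc, hcf⟩ := hfu s ⟨k0, hs⟩
        have h2 := eval_scale he c hcf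
        rw [hH0 (ℓ s) (Set.mem_univ _)] at h2
        exact (mul_eq_zero.1 h2.symm).resolve_left (pow_ne_zero _ hc)
      have h3 : Tendsto (fun s => MvPolynomial.eval (fun i => f i s) H) (𝓝[≠] t)
          (𝓝 (MvPolynomial.eval (fun i => f i t) H)) := hcont.continuousAt.mono_left
        nhdsWithin_le_nhds
      have h4 : Tendsto (fun s => MvPolynomial.eval (fun i => f i s) H) (𝓝[≠] t) (𝓝 0) :=
        tendsto_const_nhds.congr' (by
          filter_upwards [hev2] with s hs
          exact hs.symm)
      exact tendsto_nhds_unique h3 h4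
  have hGV' := hGV V hV hle
  have hz : MvPolynomial.eval (fun i => f i 0) (G V) = 0 := hGV'.2 0 (Set.mem_univ _)
  obtain ⟨c, hc, hcf⟩ := hfu 0 ⟨k0, by simp only [h0]; exact hpk⟩
  obtain ⟨e, he⟩ := hGf V hV hle
  have h2 := eval_scale he c hcf
  simp only [h0] at h2
  rw [hz, mul_zero] at h2
  exact hp (some V) (Finset.mem_insert_of_mem (Finset.mem_image_of_mem _
    (Finset.mem_filter.2 ⟨hfin.mem_toFinset.2 hV, hle⟩))) h2

end Pool.Agent.P8H50.NK
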