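import Pool.Agent.P8H50.SS.Ent

/-!
Project NK (helper50): the generic point of the Zariski closure of an entire curve (after
`Q103/SF/Disc.lean` and `Q103/SF/Ent.lean`).
-/

set_option autoImplicit false
set_option maxHeartbeats 400000
set_option linter.overlappingInstances false
set_option linter.unusedSectionVars false

namespace Pool.Agent.P8H50.NK

open Pool.Agent.P8H50.SS.SF
open Pool.Agent.Q103.SF
open FF Filter IntermediateField
open Pool.Agent.W602.GT Pool.Agent.W603.BP Metric Topology
open Pool.Agent.Y221.AP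
open Pool.Agent.Y221.PD
open Pool.Agent.Y221.BD (EntireCurve)
open Pool.Agent.Y216 (OnVar)
open Pool.Agent.W603.LV (canDeg)
open Pool.Agent.Q96.LS (lgt_one)
open Pool.Agent.TH466.QG (SubOf)

variable {M : ℕ} {K : Type} [Field K] [Algebra ℂ K] {x : Fin (M + 1) → K}

/-- **The generic point of the closure of an entire curve.** -/
theorem gen_of_entire (hG1 : S_gpc) {f : Fin (M + 1) → ℂ → ℂ} (hf0 : EntireCurve x f) :
    ∃ (E : Type) (_ : Field E) (_ : Algebra ℂ E) (v : Fin (M + 1) → E) (w : ℕ), SubOf ℂ x v ∧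
      (∀ G : MvPolynomial (Fin (M + 1)) ℂ, IsForm G →
        (val v G = 0 ↔ ∀ t, MvPolynomial.eval (fun i => f i t) G = 0)) ∧
      Algebra.trdeg ℂ E = w ∧ 1 ≤ w ∧ EntireCurve v f ∧
      (w = 1 → vanOn Set.univ (fun t i => f i t) ∈ lowCurves x) := by
  classical
  have hf := disc_of_entire hf0
  obtain ⟨z, hz, j, k, hk, hjk⟩ := exists_mk hf
  have hspec : ∀ G : MvPolynomial (Fin (M + 1)) ℂ, IsForm G → val x G = 0 → val z G = 0 :=
    fun G hG hGx => (hz G).2 (hf.mem G hG hGx)
  let E := coords ℂ z
  have hmem : ∀ i, z i / z k ∈ E := fun i => subset_adjoin _ _ ⟨i, k, hk, rfl⟩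
  let v : Fin (M + 1) → E := fun i => ⟨z i / z k, hmem i⟩
  have hvz : ∀ i, algebraMap E MK (v i) = z i / z k := fun i => rfl
  have hvk : v k ≠ 0 := by
    intro h0
    have h1 := congrArg (algebraMap E MK) h0
    rw [hvz, map_zero, div_self hk] at h1
    exact one_ne_zero h1
  -- forms
  have hval : ∀ G : MvPolynomial (Fin (M + 1)) ℂ, IsForm G → (val v G = 0 ↔ val z G = 0) := by
    rintro G ⟨d, hd⟩
    have h1 : algebraMap E MK (val v G) = val (fun i => z i / z k) G := by
      unfold Pool.Agent.W602.GT.val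
      rw [← MvPolynomial.aeval_algebraMap_apply]
      rfl
    have h2 : val z G = z k ^ d * val (fun i => z i / z k) G := by
      rw [← val_smul hd (z k)]
      congr 1
      funext i
      field_simp
    rw [h2, mul_eq_zero, or_iff_right (pow_ne_zero _ hk), ← h1, map_eq_zero]
  -- the ratios generate
  have hvgen : coords ℂ v = ⊤ := by
    have h1 : (coords ℂ v).map (IntermediateField.val E) = (⊤ : IntermediateField ℂ E).map
        (IntermediateField.val E) := by
      have h2 : (⊤ : IntermediateField ℂ E).map (IntermediateField.val E) = E := by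
        rw [← AlgHom.fieldRange_eq_map, IntermediateField.fieldRange_val]
      rw [h2]
      show (IntermediateField.adjoin ℂ _).map _ = coords ℂ z
      rw [IntermediateField.adjoin_map]
      unfold coords
      congr 1
      ext u
      constructor
      · rintro ⟨_, ⟨a, b, hb, rfl⟩, rfl⟩
        have hzb : z b ≠ 0 := by
          intro h0
          apply hb
          apply (algebraMap E MK).injective
          rw [hvz, h0, zero_div, map_zero]
        refine ⟨a, b, hzb, ?_⟩
        show algebraMap E MK (v a / v b) = _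
        rw [map_div₀, hvz, hvz]
        field_simp
      · rintro ⟨a, b, hb, rfl⟩
        refine ⟨v a / v b, ⟨a, b, ?_, rfl⟩, ?_⟩
        · intro h0
          have h1 := congrArg (algebraMap E MK) h0
          rw [hvz, map_zero, div_eq_zero_iff] at h1
          exact h1.elim hb hk
        · show algebraMap E MK (v a / v b) = _
          rw [map_div₀, hvz, hvz]
          field_simp
    exact IntermediateField.map_injective _ h1
  obtain ⟨t, ht⟩ := exists_trdeg_of_gen hvgen
  have hsub : SubOf ℂ x v := ⟨fun h => hvk (congrFun h k), hvgen, fun G hG hGx =>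
    (hval G hG).2 (hspec G hG hGx)⟩
  -- the forms which vanish on the entire curve
  have hcur : ∀ G : MvPolynomial (Fin (M + 1)) ℂ, val z G = 0 ↔
      ∀ t, MvPolynomial.eval (fun i => f i t) G = 0 := by
    intro G
    rw [hz G]
    constructor
    · intro h t
      obtain ⟨w, hw, hws⟩ := sin_point t
      have h3 := h w hw
      simp only [hws] at h3
      exact h3
    · intro h t _
      exact h _
  have htne0 : t ≠ 0 := by
    intro h0
    rw [h0, Nat.cast_zero, trdeg_eq_zero_iff] at ht
    have hint : Algebra.IsIntegral ℂ E := Algebra.isAlgebraic_iff_isIntegral.1 ht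
    obtain ⟨c, hc⟩ := (IsAlgClosed.algebraMap_bijective_of_isIntegral (k := ℂ)
      (K := E)).2 (v j)
    apply hjk
    have h2 : z j / z k = algebraMap ℂ MK c := by
      rw [← hvz j, ← hc]
      rfl
    rw [h2]
    exact MI.algebraMap_mem c
  refine ⟨E, inferInstance, inferInstance, v, t, hsub, fun G hG => (hval G hG).trans (hcur G), ht,
    by omega, ⟨hf0.hol, hf0.ne, fun G hG hGv => (hcur G).1 ((hval G hG).1 hGv), hf0.nonconst⟩,
    fun ht1 => ?_⟩
  subst ht1
  have hess : Algebra.EssFiniteType ℂ E := Pool.Agent.Q72.NA.ess_of_adjoin hvgen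
  have hff : IsFF ℂ E := ⟨hess, by rw [ht]; simp⟩
  have hV : vanOn Set.univ (fun t i => f i t) = van v := by
    ext G
    constructor
    · rintro ⟨hG, h⟩
      exact ⟨hG, (hval G hG).2 ((hcur G).2 fun t => h t (Set.mem_univ _))⟩
    · rintro ⟨hG, h⟩
      exact ⟨hG, fun t _ => (hcur G).1 ((hval G hG).1 h) t⟩
  refine ⟨E, inferInstance, inferInstance, hff, v, ⟨⟨k, hvk⟩, hsub.spec⟩, hvgen, ?_, hV⟩
  by_contra hcon
  rw [not_le] at hcon
  have h1 := hG1 E (gt_of_canDeg hcon) (v j)
  rw [hvz] at h1
  exact hjk h1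

/-- hyperbolicity modulo the closed subset `R = 0`: entire curves and degrees of curves -/
structure HypB {M : ℕ} {L : Type} [Field L] [Algebra ℂ L] (v : Fin (M + 1) → L)
    (R : MvPolynomial (Fin (M + 1)) ℂ) : Prop where
  form : IsForm R
  ne : val v R ≠ 0
  /-- `R = 0` contains all entire curves -/
  curve : ∀ f, EntireCurve v f → ∀ t, MvPolynomial.eval (fun i => f i t) R = 0
  /-- the degree of the morphisms from a curve of genus `g`, with an image not contained in `R = 0`,
  is at most `A * max (2 * g - 2) 0` -/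
  degree : ∃ A : ℕ, ∀ (E : Type) [Field E] [Algebra ℂ E] [IsFF ℂ E] (f : Fin (M + 1) → E),
    OnVar ℂ v f → val f R ≠ 0 → Pool.Agent.W603.PV.pht ℂ f ≤ A * max (canDeg ℂ E) 0

/-- Every closed subvariety of dimension at least two is hyperbolic modulo a proper closed subset. -/
def HeredB {M : ℕ} {K : Type} [Field K] [Algebra ℂ K] (x : Fin (M + 1) → K) : Prop :=
  ∀ (E : Type) [Field E] [Algebra ℂ E] (w : ℕ) (z : Fin (M + 1) → E), SubOf ℂ x z → 2 ≤ w →
    Algebra.trdeg ℂ E = w → ∃ R, HypB z R

/-- **Entire curves.** -/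
theorem entire_low (hG1 : S_gpc) (hH : HeredB x) {f : Fin (M + 1) → ℂ → ℂ}
    (hf : EntireCurve x f) : vanOn Set.univ (fun t i => f i t) ∈ lowCurves x := by
  obtain ⟨E, _, _, v, w, h1, h2, h3, h4, h5, h6⟩ := gen_of_entire hG1 hf
  apply h6
  by_contra hne
  obtain ⟨R, hR⟩ := hH E w v h1 (by omega) h3
  exact hR.ne ((h2 R hR.form).2 (hR.curve f h5))

end Pool.Agent.P8H50.NK
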