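import Pool.Agent.P8H50.NK.Heb
import Pool.Agent.P8H50.NK.Ent2
import Pool.Agent.P8H50.NK.Noe2
import Pool.Agent.P8H50.SS.Main
import Pool.Agent.Q239.SF.W4
import Pool.Agent.Q239.SF.W5

/-!
Project NK (helper50): special sets, notions of hyperbolicity, for entire curves and degrees only
(after `SS/Surf.lean`, `SS/Frm.lean`)
-/

set_option autoImplicit false
set_option maxHeartbeats 400000
set_option linter.overlappingInstances false
set_option linter.unusedSectionVars false

namespace Pool.Agent.P8H50.NK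

open Pool.Agent.Q103.SF
open Pool.Agent.P8H50.SS.SF (curve_of_low ell_of_low curve_of_ell pht_const nonconst_of_low
  mero_of_entire)
open FF Filter Polynomial
open Pool.Agent.W602.GT Metric Topology
open Pool.Agent.Y221.PD
open Pool.Agent.Y221.BD (EntireCurve)
open Pool.Agent.Y216 (OnVar)
open Pool.Agent.W603.LV (canDeg)
open Pool.Agent.W603.PV (pht)
open Pool.Agent.Q271.RC (Nonconst)
open Pool.Agent.TH466.QG (SubOf)
open Pool.Agent.W602.RG (PointedMaps)
open Pool.Agent.Q103.KO (IsPoint SameP Chain)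

variable {M : ℕ} {K : Type} [Field K] [Algebra ℂ K] {x : Fin (M + 1) → K}

/-- The closed curves of geometric genus `≤ 1` in the projective variety `X` with the generic point
`x` are finite in number, they are the Zariski closures of the entire curves, and the images of the
elliptic curves, and they contain the meromorphic images of the spaces `ℂ ^ g`. -/
structure SpecialCurves {M : ℕ} {K : Type} [Field K] [Algebra ℂ K] (x : Fin (M + 1) → K) :
    Prop where
  /-- the closed curves of genus `≤ 1` in `X` are finite in number -/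
  finite : (lowCurves x).Finite
  /-- the Zariski closure of an entire curve is a curve of genus `≤ 1` -/
  entire : ∀ f, EntireCurve x f → vanOn Set.univ (fun t i => f i t) ∈ lowCurves x
  /-- each curve of genus `≤ 1` is the Zariski closure of an entire curve -/
  curves : ∀ V ∈ lowCurves x, ∃ f, EntireCurve x f ∧ vanOn Set.univ (fun t i => f i t) = V
  /-- each curve of genus `≤ 1` is the image of an elliptic curve -/
  elliptic : ∀ V ∈ lowCurves x, ∃ (E : Type) (_ : Field E) (_ : Algebra ℂ E) (_ : IsFF ℂ E)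
    (v : Fin (M + 1) → E), IsElliptic E ∧ OnVar ℂ x v ∧ Nonconst v ∧ van v = V
  /-- the Zariski closure of a meromorphic image of `ℂ ^ g` is a curve of genus `≤ 1` -/
  mero : ∀ g u, MeroMap x g u → vanOn Set.univ (fun t i => u i t) ∈ lowCurves x
  /-- for every map from a curve of genus `g` to `X`, the degree is at most `A * (2 * g - 2)`, or the
  image is a curve of genus `≤ 1` -/
  degree : ∃ A : ℕ, ∀ (L : Type) [Field L] [Algebra ℂ L] [IsFF ℂ L] (v : Fin (M + 1) → L),
    OnVar ℂ x v → Nonconst v → pht ℂ v ≤ A * canDeg ℂ L ∨ van v ∈ lowCurves x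

theorem special (hH : HeredB x) : SpecialCurves x := by
  have hw : S_wei := Pool.Agent.Q95.SF.wei
  have hG1 : S_gpc := Pool.Agent.Q285.SFG.t_gpc
  have hlow : S_low := Pool.Agent.Q24.SF.low_curve hw Pool.Agent.Q111.SF.cls
  obtain ⟨h1, h2⟩ := algB hH
  exact
    { finite := h1
      entire := fun f hf => entire_low hG1 hH hf
      curves := fun V hV => curve_of_low hlow hV
      elliptic := fun V hV => ell_of_low hV
      mero := fun g u hu => mero_lowB hG1 hH h1 hu
      degree := h2 }

/-- the notions of hyperbolicity -/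
theorem tfae (h : SpecialCurves x) :
    List.TFAE [KobayashiHyp x, BrodyHyp x, NoMero x, NoElliptic x, AlgHyp x, GeomHyp x,
      lowCurves x = ∅] := by
  have hw : S_wei := Pool.Agent.Q95.SF.wei
  have hp : S_ptd := Pool.Agent.Q239.SF.ptd
  have hk : S_kob := Pool.Agent.Q239.SF.kob
  tfae_have 1 ↔ 2 := (hk M K x).symm
  tfae_have 7 → 2 := by
    intro h0 f hf
    have := h.entire f hf
    rw [h0] at this
    exact this
  tfae_have 7 → 3 := by
    intro h0 g u hu
    have := h.mero g u hu
    rw [h0] at this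
    exact this
  tfae_have 2 → 7 := by
    intro h0
    rw [Set.eq_empty_iff_forall_notMem]
    intro V hV
    obtain ⟨f, hf, -⟩ := h.curves V hV
    exact h0 f hf
  tfae_have 3 → 2 := by
    intro h0 f hf
    exact h0 1 _ (mero_of_entire hf)
  tfae_have 4 → 7 := by
    intro h0
    rw [Set.eq_empty_iff_forall_notMem]
    intro V hV
    obtain ⟨E, _, _, _, v, hE, hv, hn, -⟩ := h.elliptic V hV
    exact h0 E hE v hv hn
  tfae_have 7 → 5 := by
    intro h0
    obtain ⟨A, hA⟩ := h.degree
    refine ⟨A, fun L _ _ _ v hv hn => ?_⟩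
    rcases hA L v hv hn with h1 | h1
    · exact h1
    · rw [h0] at h1
      exact h1.elim
  tfae_have 5 → 7 := by
    rintro ⟨A, hA⟩
    rw [Set.eq_empty_iff_forall_notMem]
    rintro V ⟨L, _, _, _, v, hv, hgen, hc, rfl⟩
    have hn := nonconst_of_low hv hgen
    have h1 := hA L v hv hn
    have h2 := Pool.Agent.Q96.LS.pht_pos v hn
    have h3 : (A : ℤ) * canDeg ℂ L ≤ 0 := mul_nonpos_of_nonneg_of_nonpos (by positivity) hc
    omega
  tfae_have 5 → 6 := by
    rintro ⟨A, hA⟩ E _ _ _ c a ha
    refine pointed_all (B := A) (fun L _ _ _ f hf => ?_) E c a ha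
    by_cases hn : Nonconst f
    · have h1 := hA L f hf hn
      have h2 : (A : ℤ) * canDeg ℂ L ≤ A * max (canDeg ℂ L) 0 :=
        mul_le_mul_of_nonneg_left (le_max_left _ _) (by positivity)
      exact h1.trans h2
    · exact (pht_const hf.1 hn).trans (by positivity)
  tfae_have 6 → 7 := by
    intro h0
    rw [Set.eq_empty_iff_forall_notMem]
    rintro V ⟨L, _, _, _, v, hv, hgen, hc, rfl⟩
    obtain ⟨c, a, ha, hinf⟩ := hp L hc M v (nonconst_of_low hv hgen)
    apply hinf
    refine (h0 L c a ⟨ha.1, fun G hG hGx => ha.2 G hG (hv.2 G hG hGx)⟩).subset ?_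
    rintro φ ⟨f, hf, h1, h2, h3⟩
    exact ⟨f, hf, fun H hH hHx => h1 H hH (hv.2 H hH hHx), h2, h3⟩
  tfae_have 2 → 4 := by
    intro h0 E _ _ _ hE v hv hn
    obtain ⟨f, hf, -⟩ := curve_of_ell hw hE hv hn
    exact h0 f hf
  tfae_finish

theorem ent_eq (h : SpecialCurves x) : entForms x = lowForms x := by
  ext G
  constructor
  · rintro ⟨hG, h1⟩
    refine ⟨hG, fun V hV => ?_⟩
    obtain ⟨f, hf, rfl⟩ := h.curves V hV
    exact ⟨hG, fun t _ => h1 f hf t⟩
  · rintro ⟨hG, h1⟩
    exact ⟨hG, fun f hf t => (h1 _ (h.entire f hf)).2 t (Set.mem_univ t)⟩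

theorem mero_eq (h : SpecialCurves x) : meroForms x = lowForms x := by
  ext G
  constructor
  · rintro ⟨hG, h1⟩
    refine ⟨hG, fun V hV => ?_⟩
    obtain ⟨f, hf, rfl⟩ := h.curves V hV
    exact ⟨hG, fun t _ => h1 1 _ (mero_of_entire hf) fun _ => t⟩
  · rintro ⟨hG, h1⟩
    exact ⟨hG, fun g u hu t => (h1 _ (h.mero g u hu)).2 t (Set.mem_univ t)⟩

theorem ell_eq (h : SpecialCurves x) : ellForms x = lowForms x := by
  have hw : S_wei := Pool.Agent.Q95.SF.wei
  ext G
  constructor
  · rintro ⟨hG, h1⟩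
    refine ⟨hG, fun V hV => ?_⟩
    obtain ⟨E, _, _, _, v, hE, hv, hn, rfl⟩ := h.elliptic V hV
    exact ⟨hG, h1 E hE v hv hn⟩
  · rintro ⟨hG, h1⟩
    refine ⟨hG, fun E _ _ _ hE v hv hn => ?_⟩
    obtain ⟨f, hf, he⟩ := curve_of_ell hw hE hv hn
    have h2 := h1 _ (h.entire f hf)
    rw [he] at h2
    exact h2.2

end Pool.Agent.P8H50.NK
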