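import Pool.Agent.P8H50.NK.Spm

/-!
Project NK (helper50): entire curves in the varieties of the class (after `Y221/BD/Str.lean`).
-/

set_option autoImplicit false
set_option maxHeartbeats 400000
set_option linter.overlappingInstances false

open FF IntermediateField Filter

namespace Pool.Agent.P8H50.NK

open Pool.Agent.W602.GT Pool.Agent.TH143.EL Pool.Agent.Y221.BD
open Pool.Agent.Y221.AB
open Pool.Agent.Y216 (OnVar)

/-- **Entire curves.** -/
theorem bro (hspm : S_SPM) (hmkc : S_MKC) : S_BRO := by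
  classical
  intro s n r D K _ _ y z' hD hy halg M v hv hgen
  obtain ⟨i1, G, d, g, hG, hvG, hmain⟩ := hspm ℂ s n r D K y z' hD hy halg M v hv hgen
  refine ⟨G, hG, hvG, ?_⟩
  intro f hf t0
  by_contra hft
  have hmer : ∀ i, Meromorphic (f i) := fun i t =>
    ((hf.hol i).analyticAt t).meromorphicAt
  obtain ⟨z, hzdef⟩ : ∃ z : Fin (M + 1) → MK, z = fun i => cl (f i) (hmer i) := ⟨_, rfl⟩
  have hcont : ∀ G : MvPolynomial (Fin (M + 1)) ℂ,
      Continuous fun t => MvPolynomial.eval (fun i => f i t) G := fun G =>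
    (MvPolynomial.continuous_eval G).comp (continuous_pi fun i => (hf.hol i).continuous)
  have hvz : ∀ G, val z G = 0 ↔ ∀ t, MvPolynomial.eval (fun i => f i t) G = 0 := by
    intro G
    rw [hzdef, val_cl hmer G, cl_eq_zero]
    constructor
    · intro h t
      exact eq_of_codis (g := fun _ => 0) h (hcont G).continuousAt continuousAt_const
    · intro h
      exact Eventually.of_forall h
  have hzG : val z G ≠ 0 := by
    intro h0
    exact hft ((hvz _).1 h0 t0)
  have hzne : ∃ j, z j ≠ 0 := by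
    obtain ⟨i, hi⟩ := hf.ne 0
    refine ⟨i, fun h0 => hi ?_⟩
    have h1 := (hvz (MvPolynomial.X i)).1 (by
      unfold Pool.Agent.W602.GT.val
      rw [MvPolynomial.aeval_X]
      exact h0) 0
    rwa [MvPolynomial.eval_X] at h1
  obtain ⟨hz1, y', ζ, hy', hrel⟩ := hmain MK z
    ⟨hzne, fun H hH hvH => (hvz H).2 (hf.mem H hH hvH)⟩ hzG
  have hcst := hmkc s n r D hD y' ζ hy'
  have hle : IntermediateField.adjoin ℂ (Set.range (fl y')) ≤ ⊥ := by
    rw [IntermediateField.adjoin_le_iff]
    rintro _ ⟨p, rfl⟩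
    obtain ⟨c, hc⟩ := hcst p.1 p.2
    rw [SetLike.mem_coe, IntermediateField.mem_bot]
    exact ⟨c, hc.symm⟩
  have hbot : IntermediateField.adjoin ℂ (Set.range (fl y')) = ⊥ := le_bot_iff.1 hle
  have hall : ∀ m, ∃ c : ℂ, z m = algebraMap ℂ MK c * z i1 := by
    intro m
    have h1 := alg_of_eqnS (x := fl y') (hrel m).1 (hrel m).2
    rw [hbot] at h1
    have h2 : IsAlgebraic ℂ (z m / z i1) := h1.restrictScalars ℂ
    obtain ⟨c, hc⟩ := const_of_algebraic h2
    refine ⟨c, ?_⟩
    rw [← hc]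
    field_simp
  have hallf : ∀ m, ∃ c : ℂ, ∀ t, f m t = c * f i1 t := by
    intro m
    obtain ⟨c, hc⟩ := hall m
    refine ⟨c, fun t => ?_⟩
    rw [hzdef] at hc
    simp only at hc
    rw [← cl_const, cl_mul, cl_eq] at hc
    exact eq_of_codis (f := f m) (g := fun t => c * f i1 t) hc (hf.hol m).continuous.continuousAt
      ((continuous_const.mul (hf.hol i1).continuous).continuousAt)
  obtain ⟨i, j, a, b, hab⟩ := hf.nonconst
  obtain ⟨c, hc⟩ := hallf i
  obtain ⟨c', hc'⟩ := hallf j
  apply hab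
  rw [hc, hc, hc', hc']
  ring

end Pool.Agent.P8H50.NK
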