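import Pool.Agent.P8H50.NK.PDefs

/-!
Project NK (helper50): the class of function fields, an explicit family.
-/

set_option autoImplicit false

namespace Pool.Agent.P8H50.NK

/-- **The class**: the function field `K` contains the homogeneous coordinates `y j a` of a point of a
product of projective spaces of the dimensions `n j ≥ 1` with the sum `w`, over which it is algebraic,
and the roots `z i` of products of hyperplanes, with the conditions `PDat.Good`. -/
def IsSpaceCover (k K : Type) [Field k] [Field K] [Algebra k K] (w : ℕ) : Prop :=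
  ∃ (s : ℕ) (n : Fin s → ℕ) (r : ℕ) (D : PDat k n r) (y : ∀ j, Fin (n j + 1) → K)
    (z : Fin r → K), (∀ j, 1 ≤ n j) ∧ ∑ j, n j = w ∧ D.Good ∧ D.Pt y z ∧
    Algebra.IsAlgebraic (IntermediateField.adjoin k (Set.range (fl y))) K

/-- one equation, all exponents equal to one -/
def PDat.single {k : Type} [Field k] {s : ℕ} {n : Fin s → ℕ} (q : Fin s → ℕ) (m : ℕ)
    (ℓ : ∀ j, Fin (q j) → Fin (n j + 1) → k) : PDat k n 1 where
  q := q
  t := n
  m := fun _ => m
  ℓ := ℓ
  e := fun _ _ _ => 1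

/-- One equation `z ^ m = ∏ j, ∏ l, (∑ a, ℓ j l * y j a)` with `q j ≥ 4 * n j` hyperplanes in general
position in each factor (`n j ≥ 1`), `m ∣ q j` and `m > ∑ j, n j * (n j + 1)`. -/
theorem PDat.single_good {k : Type} [Field k] {s : ℕ} {n : Fin s → ℕ} {q : Fin s → ℕ} {m : ℕ}
    {ℓ : ∀ j, Fin (q j) → Fin (n j + 1) → k} (hn : ∀ j, 1 ≤ n j)
    (hℓ : ∀ j (S : Finset (Fin (q j))), S.card = n j + 1 → ∀ v : Fin (n j + 1) → k,
      (∀ l ∈ S, ∑ a, ℓ j l a * v a = 0) → v = 0)
    (hq : ∀ j, 4 * n j ≤ q j) (hm : ∀ j, m ∣ q j) (hs : ∑ j, n j * (n j + 1) < m) :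
    (PDat.single q m ℓ).Good := by
  have hm0 : 0 < m := by omega
  have hmR : (0 : ℝ) < m := by exact_mod_cast hm0
  refine
    { m_pos := fun _ => hm0
      dvd := fun i j => ?_
      occ := fun j l => ⟨0, le_rfl⟩
      mult := fun j S hS v hv => hℓ j S hS v hv
      dim := fun j => ⟨le_rfl, ?_⟩
      small := ⟨fun j => (n j * (n j + 1) : ℕ) / m, fun j => by positivity, ?_,
        fun j b hb hbn => ?_⟩ }
  · show m ∣ ∑ _l : Fin (q j), 1
    simpa using hm j
  · have := hn j
    have := hq j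
    show 2 * n j < q j
    omega
  · rw [← Finset.sum_div, div_lt_one hmR]
    exact_mod_cast hs
  · have hE : (PDat.single q m ℓ).E j = q j / m := by
      unfold PDat.E
      show ∑ _i : Fin 1, (∑ _l : Fin (q j), ((1 : ℕ) : ℝ)) / (m : ℝ) = _
      simp
    rw [hE]
    show (b : ℝ) * (2 * n j + 1 - b) * (q j / m) ≤ 2 * ((n j * (n j + 1) : ℕ) / m) *
      (q j - (2 * n j + 1 - b))
    have h1 : (b : ℝ) ≤ n j := by exact_mod_cast hbn
    have h2 : (1 : ℝ) ≤ b := by exact_mod_cast hb
    have h3 : (4 * n j : ℝ) ≤ q j := by exact_mod_cast hq j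
    have h4 : (b : ℝ) * (2 * n j + 1 - b) ≤ n j * (n j + 1) := by nlinarith
    have h5 : (q j : ℝ) ≤ 2 * (q j - (2 * n j + 1 - b)) := by nlinarith
    have h6 : (0 : ℝ) ≤ n j := by positivity
    push_cast
    rw [mul_div_assoc', mul_div_assoc', div_mul_eq_mul_div, div_le_div_iff_of_pos_right hmR]
    have h7 : (b : ℝ) * (2 * n j + 1 - b) * q j ≤ n j * (n j + 1) * q j :=
      mul_le_mul_of_nonneg_right h4 (by positivity)
    have h8 : (n j : ℝ) * (n j + 1) * q j ≤ n j * (n j + 1) * (2 * (q j - (2 * n j + 1 - b))) :=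
      mul_le_mul_of_nonneg_left h5 (by positivity)
    linarith

end Pool.Agent.P8H50.NK
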