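import Pool.Agent.P8H50.NK.Stm4
import Pool.Agent.P8H50.SS.Spc0

/-!
Project NK (helper50): specialisation of the cover (after `P8H50/SS/Spec.lean`).
-/

set_option autoImplicit false
set_option linter.overlappingInstances false

open FF Pool.Agent.W603.LV Pool.Agent.W602.GT

namespace Pool.Agent.P8H50.NK

open Pool.Agent.P8H50.SS (alg_eqn alg_of_eqn spec unit_ne)
open Pool.Agent.Y216 (OnVar)

/-- algebraic relations over the field generated by a family of elements -/
theorem alg_eqnS {k L : Type} [Field k] [Field L] [Algebra k L] {σ : Type} {x : σ → L} {y : L}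
    (hy : IsAlgebraic (IntermediateField.adjoin k (Set.range x)) y) :
    ∃ (D : ℕ) (g : ℕ → MvPolynomial σ k), MvPolynomial.aeval x (g D) ≠ 0 ∧
      ∑ j ∈ Finset.range (D + 1), MvPolynomial.aeval x (g j) * y ^ j = 0 := by
  classical
  obtain ⟨D, g, h1, h2⟩ := alg_eqn hy
  choose τ hτ using fun s : Set.range x => s.2
  have h3 : ∀ G : MvPolynomial (Set.range x) k, MvPolynomial.aeval x (MvPolynomial.rename τ G) =
      MvPolynomial.aeval (Subtype.val : Set.range x → L) G := by
    intro G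
    rw [MvPolynomial.aeval_rename]
    congr 2
    funext s
    exact hτ s
  refine ⟨D, fun j => MvPolynomial.rename τ (g j), ?_, ?_⟩
  · rw [h3]
    exact h1
  · rw [← h2]
    exact Finset.sum_congr rfl fun j _ => by rw [h3]

/-- the converse -/
theorem alg_of_eqnS {k L : Type} [Field k] [Field L] [Algebra k L] {σ : Type} {x : σ → L} {y : L}
    {D : ℕ} {g : ℕ → MvPolynomial σ k} (h1 : MvPolynomial.aeval x (g D) ≠ 0)
    (h2 : ∑ j ∈ Finset.range (D + 1), MvPolynomial.aeval x (g j) * y ^ j = 0) :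
    IsAlgebraic (IntermediateField.adjoin k (Set.range x)) y := by
  refine alg_of_eqn (fun j => ?_) h1 h2
  have h1 : MvPolynomial.aeval x (g j) ∈ IntermediateField.adjoin k (Set.range x) := by
    have h2 : MvPolynomial.aeval x (g j) ∈ Algebra.adjoin k (Set.range x) := by
      rw [Algebra.adjoin_range_eq_range_aeval]
      exact ⟨_, rfl⟩
    exact IntermediateField.algebra_adjoin_le_adjoin k _ h2
  exact ⟨⟨_, h1⟩, rfl⟩

/-- **Specialisation of the cover.** -/
theorem spm : S_SPM := by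
  classical
  intro k _ s n r D K _ _ y z hD h halg M v hv hgen
  obtain ⟨i1, hi1'⟩ := Function.ne_iff.1 hv
  have hi1 : v i1 ≠ 0 := hi1'
  choose d g hg1 hg2 using fun i => alg_eqnS (x := fl y) (halg.isAlgebraic (v i / v i1))
  obtain ⟨H, hH, hspec⟩ := spec (Pool.Agent.TH466.QG.adjoin_norm hgen hi1)
    (Θ := ((Set.range (fl y) ∪ Set.range z) ∪ Set.range fun i => (z i)⁻¹) ∪ Set.range fun i =>
      (MvPolynomial.aeval (fl y) (g i (d i)))⁻¹)
    ((((Set.finite_range _).union (Set.finite_range _)).union (Set.finite_range _)).union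
      (Set.finite_range _))
  refine ⟨i1, MvPolynomial.X i1 * Pool.Agent.TH466.QG.hz i1 H, d, g, ?_, ?_, ?_⟩
  · obtain ⟨e, he⟩ := Pool.Agent.TH466.QG.hz_form i1 H
    exact ⟨1 + e, (MvPolynomial.isHomogeneous_X k i1).mul he⟩
  · change MvPolynomial.aeval v _ ≠ 0
    rw [map_mul, MvPolynomial.aeval_X]
    refine mul_ne_zero hi1 ?_
    change val v _ ≠ 0
    rw [Pool.Agent.TH466.QG.val_hz H hi1]
    exact mul_ne_zero (pow_ne_zero _ hi1) hH
  intro E _ _ f hf' hfR
  change MvPolynomial.aeval f _ ≠ 0 at hfR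
  rw [map_mul, MvPolynomial.aeval_X] at hfR
  have hf1 : f i1 ≠ 0 := left_ne_zero_of_mul hfR
  have hfH : MvPolynomial.aeval (fun i => f i / f i1) H ≠ 0 := by
    have h1 : val f (Pool.Agent.TH466.QG.hz i1 H) ≠ 0 := right_ne_zero_of_mul hfR
    rw [Pool.Agent.TH466.QG.val_hz H hf1] at h1
    exact right_ne_zero_of_mul h1
  have hsp : ∀ G : MvPolynomial (Fin (M + 1)) k,
      MvPolynomial.aeval (fun i => v i / v i1) G = 0 →
      MvPolynomial.aeval (fun i => f i / f i1) G = 0 := by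
    intro G hG
    have h1 : val v (Pool.Agent.TH466.QG.hz i1 G) = 0 := by
      rw [Pool.Agent.TH466.QG.val_hz G hi1, hG, mul_zero]
    have h2 := hf'.2 _ (Pool.Agent.TH466.QG.hz_form i1 G) h1
    rw [Pool.Agent.TH466.QG.val_hz G hf1] at h2
    exact (mul_eq_zero.1 h2).resolve_left (pow_ne_zero _ hf1)
  obtain ⟨B, _, _, α, β, hα, hxy, hΘ⟩ := hspec E (fun i => f i / f i1) hsp hfH
  refine ⟨hf1, ?_⟩
  choose b hb using fun p => hΘ (fl y p) (Or.inl (Or.inl (Or.inl ⟨p, rfl⟩)))
  choose bz hbz using fun i => hΘ (z i) (Or.inl (Or.inl (Or.inr ⟨i, rfl⟩)))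
  have hzi : ∀ i, (z i)⁻¹ ∈ Set.range α := fun i => hΘ _ (Or.inl (Or.inr ⟨i, rfl⟩))
  let y' : ∀ j, Fin (n j + 1) → E := fun j a => β (b ⟨j, a⟩)
  have hfl : fl y' = fun p => β (b p) := by
    funext p
    rfl
  have hev1 : ∀ G : MvPolynomial (Σ j, Fin (n j + 1)) k,
      α (MvPolynomial.aeval b G) = MvPolynomial.aeval (fl y) G := by
    intro G
    rw [← AlgHom.comp_apply, MvPolynomial.comp_aeval]
    congr 2
    funext j
    exact hb j
  have hev2 : ∀ G : MvPolynomial (Σ j, Fin (n j + 1)) k,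
      β (MvPolynomial.aeval b G) = MvPolynomial.aeval (fl y') G := by
    intro G
    rw [← AlgHom.comp_apply, MvPolynomial.comp_aeval, hfl]
  have heq : ∀ i, bz i ^ D.m i =
      ∏ j, ∏ l, (∑ a, algebraMap k B (D.ℓ j l a) * b ⟨j, a⟩) ^ D.e i j l := by
    intro i
    apply hα
    simp only [map_pow, map_prod, map_sum, map_mul, AlgHom.commutes, hbz, hb]
    rw [h.eq i]
    rfl
  refine ⟨y', fun i => β (bz i), ⟨fun j => ?_, fun i => ?_, fun i => ?_⟩, fun i => ⟨?_, ?_⟩⟩
  · obtain ⟨a, ha⟩ := h.one j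
    refine ⟨a, ?_⟩
    have h1 : b ⟨j, a⟩ = 1 := by
      apply hα
      have h2 : α (b ⟨j, a⟩) = fl y ⟨j, a⟩ := hb _
      rw [h2, map_one]
      exact ha
    show β (b ⟨j, a⟩) = 1
    rw [h1, map_one]
  · refine unit_ne (α : B →+* K) (β : B →+* E) hα ?_ ?_
    · change α (bz i) ≠ 0
      rw [hbz]
      exact h.nz i
    · change (α (bz i))⁻¹ ∈ Set.range α
      rw [hbz]
      exact hzi i
  · have h1 := congrArg β (heq i)
    simp only [map_pow, map_prod, map_sum, map_mul, AlgHom.commutes] at h1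
    rw [h1]
    rfl
  · rw [← hev2]
    refine unit_ne (α : B →+* K) (β : B →+* E) hα ?_ ?_
    · change α _ ≠ 0
      rw [hev1]
      exact hg1 i
    · change (α _)⁻¹ ∈ Set.range α
      rw [hev1]
      exact hΘ _ (Or.inr ⟨i, rfl⟩)
  · obtain ⟨w, hw1, hw2⟩ := hxy i
    have h1 : ∑ j ∈ Finset.range (d i + 1),
        MvPolynomial.aeval b (g i j) * w ^ j = 0 := by
      apply hα
      rw [map_sum, map_zero, ← hg2 i]
      refine Finset.sum_congr rfl fun j _ => ?_
      rw [map_mul, map_pow, hev1, hw1]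
    have h2 := congrArg β h1
    rw [map_sum, map_zero] at h2
    rw [← h2]
    refine Finset.sum_congr rfl fun j _ => ?_
    rw [map_mul, map_pow, hev2, hw2]

end Pool.Agent.P8H50.NK
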