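import Pool.Agent.P8H50.NK.Defs

/-!
Project NK (helper50): statements of the packages, with proofs in the docstrings.

Useful files: Pool.Agent.P8H10.GC1 - GC6 (the case of two functions, everything here is the
generalisation to `n` functions; in particular smt_block in GC2, div_le in GC3, core in GC4,
cx_order, growth_of_zeros in GC5), Pool.Agent.H159R3.NV.Jensen (circle averages `L f r` of
`log |f|`: L_mul, jensen_ge, L_mono, ne_cod), H159R3.NV.Wron (the Wronskian criterion wron_dep),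
H159R3.NV.Det (scale_det), Pool.Agent.N131.SR.Ldl (the lemma on the logarithmic derivative `ldl`),
Pool.Agent.N131.SR.Small (char_deriv, prox_mul), Pool.Agent.N750.Noch (exists_weights, greedy,
rk_empty, rk_mono, rk_sub, rk_card, rk_indep).
-/

set_option autoImplicit false

namespace Pool.Agent.P8H50.NK

open MeasureTheory Set Filter Topology Metric Real ValueDistribution MeromorphicOn
open Pool.Agent.H159R3.NV (L)
open Pool.Agent.N131.SR (NZ)

/-- **WRN** (40 lines). The Wronskian of linearly independent entire functions does not vanish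
identically, and it is entire. Proof: `wron_dep` of H159R3.NV.Wron, in the ring `Ent` of entire
functions (`Dv_iter` identifies the iterates of the derivation with `iteratedDeriv`); entireness:
determinant of iterated derivatives of entire functions, compare `wr_diff` in H159R3.NV.Det. -/
def S_WRN : Prop := ∀ (n : ℕ) (f : Fin n → ℂ → ℂ), Crv f →
  Differentiable ℂ (wr f) ∧ ∃ z, wr f z ≠ 0

/-- **WRB** (30 lines). The Wronskian of linear combinations. For entire `f i` and vectors `B i`: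
the Wronskian of the functions `lf (B i) f` is `det B` times the Wronskian of `f`
(iteratedDeriv of a finite sum with constant coefficients, Matrix.det_mul). -/
def S_WRB : Prop := ∀ (n : ℕ) (f : Fin n → ℂ → ℂ), (∀ i, Differentiable ℂ (f i)) →
  ∀ (B : Fin n → Fin n → ℂ) (z : ℂ), wr (fun i => lf (B i) f) z = (Matrix.of B).det * wr f z

/-- **LDH** (80 lines). The lemma on higher logarithmic derivatives. Induction on `s`, together
with the bound `characteristic (iteratedDeriv s g) ⊤ r ≤ C * (1 + characteristic g ⊤ r +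
log r + log (1 + characteristic g ⊤ r))` outside a set of finite measure: `char_deriv` of
N131.SR.Small bounds `characteristic (deriv a) ⊤ r` by `2 * characteristic a ⊤ r +
proximity (logDeriv a) ⊤ r`, and `ldl` of N131.SR.Ldl bounds the last term. If
`iteratedDeriv s g` does not vanish identically,
`iteratedDeriv (s + 1) g / g = logDeriv (iteratedDeriv s g) * (iteratedDeriv s g / g)` outside a
discrete set, and `prox_mul` applies; if it vanishes identically (on a codiscrete set) so does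
the quotient. (If NZ fails for a derivative, then it is zero codiscretely: nz_or in Small.) -/
def S_LDH : Prop := ∀ (g : ℂ → ℂ), Meromorphic g → NZ g → ∀ s : ℕ,
  ∃ (E : Set ℝ) (C : ℝ), volume E < ⊤ ∧ 0 ≤ C ∧ ∀ r, 1 ≤ r → r ∉ E →
    proximity (fun z => iteratedDeriv s g z / g z) ⊤ r ≤
      C * (1 + log r + log (1 + characteristic g ⊤ r))

/-- **CHR** (80 lines). The characteristic of the quotient of two linear forms. Copy of `char_le`
in P8H10.GC2 (there `n = 2`): both forms are bounded by a constant times the norm. -/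
def S_CHR : Prop := ∀ (n : ℕ) (f : Fin n → ℂ → ℂ), Crv f → ∀ a b : Fin n → ℂ,
  (∃ z, lf a f z ≠ 0) → (∃ z, lf b f z ≠ 0) → ∃ C0 : ℝ, 0 ≤ C0 ∧ ∀ r : ℝ, 1 ≤ r →
    characteristic (fun z => lf a f z / lf b f z) ⊤ r ≤ tau f r + C0

/-- **QUO** (60 lines). The Wronskian divided by the product: for entire `g i` and a point `z` with
`g i z ≠ 0` for all `i`, with `h i = g i / g 0`:
`wr g z / ∏ i, g i z = det (iteratedDeriv l (h i) z / h i z)`. Proof: `scale_det` of
H159R3.NV.Det with `q = g 0` and the functions `h i` (analytic at `z`; `g i = g 0 * h i` near `z`,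
so the iterated derivatives agree: Filter.EventuallyEq.iteratedDeriv_eq), then divide the rows
(Matrix.det_mul_column or det_mul_row) by `h i z`. -/
def S_QUO : Prop := ∀ (n : ℕ) (g : Fin (n + 1) → ℂ → ℂ), (∀ i, Differentiable ℂ (g i)) →
  ∀ z, (∀ i, g i z ≠ 0) → wr g z / ∏ i, g i z =
    (Matrix.of fun i l : Fin (n + 1) =>
      iteratedDeriv l (fun w => g i w / g 0 w) z / (g i z / g 0 z)).det

/-- **PRX** (120 lines; may assume S_LDH, S_CHR, S_QUO). The circle average of
`log⁺ |W(g) / ∏ g i|` for linearly independent linear combinations `g i = lf (B i) f` of `f` is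
small. Proof: (`n = 0` is trivial.) By QUO, outside a discrete set (ne_cod) the quotient is a
determinant, whose absolute value is at most the sum over the permutations of the products of the
absolute values of the entries; so `log⁺` of it is at most
`log (n + 1)! + ∑ i, ∑ l, log⁺ |iteratedDeriv l (h i) / h i|` (posLog_sum, posLog_prod or
directly: `|det| ≤ (n + 1)! ∏ i l, max 1 |a i l|`). Integrate (circleAverage_mono_codiscrete as in
smt_block), apply LDH to the meromorphic functions `h i` (NZ by nz_div in GC2) and CHR. -/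
def S_PRX : Prop := ∀ (n : ℕ) (f : Fin n → ℂ → ℂ), Crv f → ∀ B : Fin n → Fin n → ℂ,
  (Matrix.of B).det ≠ 0 → ∃ (E : Set ℝ) (C : ℝ), volume E < ⊤ ∧ 0 ≤ C ∧
    ∀ r, 1 ≤ r → r ∉ E → 0 ≤ tau f r + C ∧
      Real.circleAverage (fun z => log⁺ ‖wr (fun i => lf (B i) f) z / ∏ i, lf (B i) f z‖) 0 r ≤
        C * (1 + log r + log (1 + C + tau f r))

/-- **LIN** (150 lines). Linear algebra: for vectors `v ≠ 0` with no `⟨M j, v⟩` zero, there is
a basis `M (b i)` such that the inequality below holds, with `C` independent of `v`.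
Proof: for every finset `A` of full rank the map `v ↦ (⟨M j, v⟩)_{j ∈ A}` is injective, so there is
`δ` in `(0, 1]` with `δ ‖v‖ ≤ max_{j ∈ A} |⟨M j, v⟩|` for all these `A` (finitely many; compactness
of the unit sphere or LinearMap.exists_antilipschitzWith / a left inverse matrix). Let `K ≥ 1` with
`|⟨M j, v⟩| ≤ K ‖v‖`, and `Λ j = log (K ‖v‖ / |⟨M j, v⟩|) ≥ 0`. Let
`R = {j : |⟨M j, v⟩| < δ ‖v‖}`; then `rk R < n` (else contradiction), and `Λ j > 0` on `R` (as
`K ≥ 1 ≥ δ`, strict). By `N750.greedy` (all subsets of `R` have rank `< n` by rk_mono, so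
`Wts.le` applies) there is an independent `b ⊆ R` with `∑_R ω Λ ≤ ∑_b Λ`. Extend `b` to a basis
`b'` consisting of `n` of the vectors (full), `∑_b Λ ≤ ∑_b' Λ`. For `j ∉ R`: `Λ j ≤ log (K / δ)`.
So `∑ ω j Λ j ≤ ∑_b' Λ j + (∑ ω) log (K / δ)`; rearrange. -/
def S_LIN : Prop := ∀ (n q : ℕ) (M : Fin q → Fin n → ℂ) (ω : Fin q → ℝ), Wts M ω →
  ∃ C : ℝ, ∀ v : Fin n → ℂ, v ≠ 0 → (∀ j, ∑ i, M j i * v i ≠ 0) →
    ∃ b : Fin n → Fin q, (Matrix.of fun i => M (b i)).det ≠ 0 ∧
      (∑ j, ω j - n) * Real.log ‖v‖ ≤ ∑ j, ω j * Real.log ‖∑ i, M j i * v i‖ -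
        ∑ l, Real.log ‖∑ i, M (b l) i * v i‖ + C

/-- **SMT** (150 lines; may assume S_WRN, S_WRB, S_PRX, S_LIN). The second main theorem with the
Wronskian and weights. Proof: as `smt_block` in P8H10.GC2. Pointwise, outside a discrete set (no
`lf (M j) f z` is zero, `wr f z ≠ 0`): choose `b` from LIN with `v = f z`. By WRB
`log |wr f| = log |wr (g)| - log |det B|` with `g l = lf (M (b l)) f`, and
`log |wr g| = log |wr g / ∏ g| + ∑ log |g l| ≤ log⁺ |wr g / ∏ g| + ∑ log |g l|`. Hence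
`log |wr f| + (∑ ω - n) log ‖f‖ ≤ ∑ ω j log |lf (M j) f| + ∑_B log⁺ |wr g_B / ∏ g_B| + C`, where
`B` runs over all the functions `Fin n → Fin q` with nonzero determinant (a fixed finite set).
Take circle averages and apply PRX to each `B`. (Circle integrability: ci_log, ci_posLog of
NV.Jensen; `log (nm f)` is continuous, as in nm_ci in GC1; the quotient is meromorphic.) -/
def S_SMT : Prop := ∀ (n q : ℕ) (M : Fin q → Fin n → ℂ) (ω : Fin q → ℝ), Wts M ω →
  ∀ f : Fin n → ℂ → ℂ, Crv f → (∀ j, ∃ z, lf (M j) f z ≠ 0) →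
  ∃ (E : Set ℝ) (C : ℝ), volume E < ⊤ ∧ 0 ≤ C ∧ ∀ r, 1 ≤ r → r ∉ E → 0 ≤ tau f r + C ∧
    L (wr f) r + (∑ j, ω j - n) * tau f r ≤
      ∑ j, ω j * L (lf (M j) f) r + C * (1 + log r + log (1 + C + tau f r))

/-- **LUP** (40 lines). The first main theorem, as `LU_le` in P8H10.GC4: `|lf b f| ≤ C ‖f‖`. -/
def S_LUP : Prop := ∀ (n : ℕ) (f : Fin n → ℂ → ℂ), Crv f → ∀ b : Fin n → ℂ,
  (∃ z, lf b f z ≠ 0) → ∃ B : ℝ, 0 ≤ B ∧ ∀ r, 1 ≤ r → L (lf b f) r ≤ tau f r + B

/-- **ORW** (100 lines; may assume S_WRN, S_WRB). The order of the Wronskian. Let the vectors `B l`, `l ∈ s`,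
be linearly independent, `s` a finset of an index type. Then
`∑_{l ∈ s} ord_z lf (B l) f ≤ ord_z (wr f) + (n - 1) + (n - 2) + ... ≤ ord_z (wr f) + n (n - 1) / 2`.
Proof: complete to a basis `B' : Fin n → Fin n → ℂ` (invertible matrix), WRB: `wr f` has the same
order as `wr g`, `g l = lf (B' l) f`. Expand the determinant: every term is, up to sign,
`∏ l, iteratedDeriv (σ l) (g l)` with `σ` a permutation, and its order at `z` is at least
`∑ l, (ord g l - σ l) ≥ ∑ l, ord g l - n (n - 1) / 2` (order of the derivative of an analytic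
function is at least the order minus one: AnalyticAt.analyticOrderAt_deriv_add_one), and a sum
of functions of order at least `N` has order at least `N` (le_analyticOrderAt_add). Here all
`g l` are not identically zero (Crv.ind) and `wr f` too (WRN), so that the orders are finite. -/
def S_ORW : Prop := ∀ (n q : ℕ) (M : Fin q → Fin n → ℂ) (f : Fin n → ℂ → ℂ), Crv f →
  ∀ (b : Finset (Fin q)), LinearIndepOn ℂ M (b : Set (Fin q)) → ∀ z : ℂ,
    ∑ l ∈ b, analyticOrderNatAt (lf (M l) f) z ≤ analyticOrderNatAt (wr f) z + n * (n - 1) / 2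

/-- **ORD** (60 lines; may assume S_ORW). The orders with weights. Let `S = {j : lf (M j) f z = 0}`.
Then `rk S < n`: otherwise the vectors `M j`, `j ∈ S`, span the whole space and `f z = 0`. If
`S` is empty the sum is zero. Otherwise `greedy` of N750.Noch with `Λ j = ord` on `S` (positive
there: nat_order_pos in GC4; zero outside `S`) gives an independent `b ⊆ S` with
`∑ ω ord ≤ ∑_b ord`, and ORW applies. -/
def S_ORD : Prop := ∀ (n q : ℕ) (M : Fin q → Fin n → ℂ) (ω : Fin q → ℝ), Wts M ω →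
  ∀ f : Fin n → ℂ → ℂ, Crv f → (∀ j, ∃ z, lf (M j) f z ≠ 0) → ∀ z : ℂ,
    ((∀ j, lf (M j) f z ≠ 0) →
      ∑ j, ω j * (analyticOrderNatAt (lf (M j) f) z : ℝ) = 0) ∧
    ∑ j, ω j * (analyticOrderNatAt (lf (M j) f) z : ℝ) ≤
      (analyticOrderNatAt (wr f) z : ℝ) + (n : ℝ) * (n - 1) / 2

/-- **DIV** (80 lines). The divisor inequality `div_le` of P8H10.GC3 with real coefficients. Proof:
Jensen's formula `Function.locallyFinsuppWithin.logCounting_divisor_eq_circleAverage_sub_const`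
for each `F s`, and the definition of logCounting as a finite sum over the closed ball of
`ord * log (r / |a|)` plus `ord_0 * log r`; the sum with the real coefficients `n s` is a sum of
nonnegative terms. -/
def S_DIV : Prop := ∀ (S : Type) [Fintype S] (F : S → ℂ → ℂ), (∀ s, Differentiable ℂ (F s)) →
  (∀ s, ∃ z, F s z ≠ 0) → ∀ n : S → ℝ,
  (∀ z, 0 ≤ ∑ s, n s * (analyticOrderNatAt (F s) z : ℝ)) →
    ∃ C : ℝ, ∀ r : ℝ, 1 ≤ r → C ≤ ∑ s, n s * L (F s) r

/-- **COR** (150 lines; may assume S_WRN, S_SMT, S_LUP, S_ORD, S_DIV). The core, as `core` in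
P8H10.GC4. DIV for the functions `wr (f i)` with coefficient `c i` and `lf (M i j) (f i)` with
coefficient `e i j - c i * ω i j`: at a point `z` where some form vanishes the sum is at least
`∑ e ord - ∑ c i (n i (n i - 1) / 2) ≥ m - ∑ c i (n i (n i - 1) / 2) ≥ 0`; if no form vanishes it
is `∑ c i ord (wr (f i)) ≥ 0`. Then SMT and LUP give
`C0 ≤ - ∑ i, (c i (∑ ω - n i) - ∑ e) tau (f i) r + O (log r + ∑ log (1 + C + tau))`, which
contradicts the growth for large `r` outside the exceptional set. -/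
def S_COR : Prop := ∀ (s : ℕ) (n q : Fin s → ℕ) (M : ∀ i, Fin (q i) → Fin (n i) → ℂ)
  (ω : ∀ i, Fin (q i) → ℝ) (e : ∀ i, Fin (q i) → ℕ) (m : ℕ) (c : Fin s → ℝ)
  (f : ∀ i, Fin (n i) → ℂ → ℂ), (∀ i, Wts (M i) (ω i)) → (∀ i, Crv (f i)) →
  (∀ i j, ∃ z, lf (M i j) (f i) z ≠ 0) → (∀ i, 0 ≤ c i) → (∀ i j, 1 ≤ e i j) →
  (∑ i, c i * ((n i : ℝ) * (n i - 1) / 2) ≤ m) →
  (∀ i, (∑ j, (e i j : ℝ)) < c i * (∑ j, ω i j - n i)) →
  (∀ z, (∑ i, ∑ j, e i j * analyticOrderNatAt (lf (M i j) (f i)) z = 0) ∨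
    m ≤ ∑ i, ∑ j, e i j * analyticOrderNatAt (lf (M i j) (f i)) z) →
  ∀ i0, (∃ ε C : ℝ, 0 < ε ∧ ∀ r, 1 ≤ r → ε * r - C ≤ tau (f i0) r) → False

/-- **EXP** (80 lines). Composition with the exponential (GC5: cx_diff, cx_order,
growth_of_zeros). Linear independence: if `lf c f` vanishes on `exp ℂ`, it vanishes everywhere by
continuity. Growth, for `2 ≤ n`: the vector `f 1` is not zero, so there is `c ≠ 0` with
`lf c f 1 = 0`; `lf c f` is not identically zero (ind), and `lf c (f ∘ exp)` vanishes at all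
`2 π i k`; apply `growth_of_zeros` and `|lf c f| ≤ C ‖f‖`. -/
def S_EXP : Prop := ∀ (n : ℕ) (f : Fin n → ℂ → ℂ), Crv f →
  Crv (fun i z => f i (Complex.exp z)) ∧
  (∀ (b : Fin n → ℂ) (z : ℂ), analyticOrderNatAt (lf b fun i z => f i (Complex.exp z)) z =
    analyticOrderNatAt (lf b f) (Complex.exp z)) ∧
  (∀ b : Fin n → ℂ, (∃ z, lf b f z ≠ 0) → ∃ z, lf b (fun i z => f i (Complex.exp z)) z ≠ 0) ∧
  (2 ≤ n → ∃ ε C : ℝ, 0 < ε ∧ ∀ r, 1 ≤ r → ε * r - C ≤ tau (fun i z => f i (Complex.exp z)) r)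

/-- **SPN** (100 lines). The linear span of a curve. `F i` entire without common zeros. Let `f` be
a basis of the span of the `F i` in the space of functions; `F i = ∑ l, A i l * f l`,
`f l = ∑ i, B l i * F i`, `B * A = 1`. If the span has dimension one, `F i = a i * f 0` with
constants `a i`, so the curve is constant. -/
def S_SPN : Prop := ∀ (n : ℕ) (F : Fin n → ℂ → ℂ), (∀ i, Differentiable ℂ (F i)) →
  (∀ z, ∃ i, F i z ≠ 0) → ∃ (k : ℕ) (f : Fin k → ℂ → ℂ) (A : Fin n → Fin k → ℂ)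
    (B : Fin k → Fin n → ℂ), Crv f ∧ 1 ≤ k ∧ k ≤ n ∧ (∀ i z, F i z = ∑ l, A i l * f l z) ∧
    (∀ l l', ∑ i, B l i * A i l' = if l = l' then 1 else 0) ∧
    (k = 1 → ∀ z z', ∃ t : ℂ, t ≠ 0 ∧ ∀ i, F i z' = t * F i z)

/-- **WTS** (120 lines). Existence of weights. `M j` are `q` vectors in `ℂ ^ n`, `1 ≤ n ≤ t + 1`,
any `t + 1` of them span. Proof: `exists_weights` of N750.Noch with `w = n - 1`,
`N = t + 1 - n`, but with the lower bound `w + 1 ≤ θ * (2 * N + w + 1)`, which its proof gives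
(`hmax ∅`: copy the theorem with this conclusion added). Hypothesis hN: if `rk A < n` then
`A.card ≤ N + rk A`: otherwise add `t + 1 - A.card` further elements (there are enough as
`t + 1 ≤ q`; note `A.card ≤ t`, as `t + 1` elements span) - each raises the rank by at most one -
to get `t + 1` elements of rank at most `rk A + (t + 1 - A.card) < n`, a contradiction. Then
`∑ ω - n ≥ θ (q - (2 t - n + 2))` with `θ ≥ n / (2 t - n + 2)`. -/
def S_WTS : Prop := ∀ (n q t : ℕ) (M : Fin q → Fin n → ℂ), 1 ≤ n → n ≤ t + 1 → 2 * t < q →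
  (∀ A : Finset (Fin q), A.card = t + 1 → rk M A = n) →
  ∃ ω : Fin q → ℝ, Wts M ω ∧
    (n : ℝ) * (q - (2 * t - n + 2)) / (2 * t - n + 2) ≤ ∑ j, ω j - n

/-- the span of the forms after restriction to a subspace -/
def S_RES : Prop := ∀ (n k q : ℕ) (M : Fin q → Fin n → ℂ) (A : Fin n → Fin k → ℂ)
  (B : Fin k → Fin n → ℂ), (∀ l l', ∑ i, B l i * A i l' = if l = l' then 1 else 0) →
  ∀ S : Finset (Fin q), rk M S = n → rk (fun j l => ∑ i, M j i * A i l) S = k

/-- **CUR** (150 lines; may assume S_COR, S_EXP, S_SPN, S_WTS, S_RES). Entire curves in a product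
of projective spaces with joint multiplicities. `F i : Fin (n i) → ℂ → ℂ` are entire without
common zeros; `ℓ i j`, `j < q i`, vectors in `ℂ ^ (n i)` any `t i + 1` of which span.
Proof: suppose that `F i0` is not constant. SPN gives `f i`, `k i`, `A i`, `B i`; put
`M i j = ℓ i j ∘ A i`, so that `lf (ℓ i j) (F i) = lf (M i j) (f i)`; RES: any `t i + 1` of the
`M i j` span `ℂ ^ (k i)`. Let `J = {i : 2 ≤ k i}` (contains `i0`). For `i ∉ J` (`k i = 1`) the
function `lf (M i j) (f i)` is a nonzero constant times `f i 0`, which has no zeros: all the orders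
are zero. For `i ∈ J` WTS gives `ω i` with
`δ i = k (q - (2 t - k + 2)) / (2 t - k + 2) ≤ ∑ ω i - k`, `δ i > 0`. Put
`c i = (∑ j, e i j) / δ i + η` with a small `η > 0`: then `∑ e < c i * δ i`, and
`∑_{J} c i k i (k i - 1) / 2 ≤ ∑ ρ i + η ∑ k i (k i - 1) / 2 ≤ m` for small `η`, since
`(∑ e) / δ i * k (k - 1) / 2 = (∑ e) (k - 1) (2 t - k + 2) / (2 (q - (2 t - k + 2))) ≤ ρ i`.
Compose with exp (EXP) and apply COR to the family over `J` (reindexed by Fin). -/
def S_CUR : Prop := ∀ (s : ℕ) (n q t : Fin s → ℕ) (ℓ : ∀ i, Fin (q i) → Fin (n i) → ℂ)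
  (e : ∀ i, Fin (q i) → ℕ) (m : ℕ) (ρ : Fin s → ℝ) (F : ∀ i, Fin (n i) → ℂ → ℂ),
  (∀ i, n i ≤ t i + 1 ∧ 2 * t i < q i) →
  (∀ i (A : Finset (Fin (q i))), A.card = t i + 1 → rk (ℓ i) A = n i) →
  (∀ i j, 1 ≤ e i j) →
  (∀ i, 0 ≤ ρ i ∧ ∀ k : ℕ, 2 ≤ k → k ≤ n i → ((k : ℝ) - 1) * (2 * t i - k + 2) *
    ∑ j, (e i j : ℝ) ≤ 2 * ρ i * (q i - (2 * t i - k + 2))) →
  (∑ i, ρ i < m) → (∀ i l, Differentiable ℂ (F i l)) → (∀ i z, ∃ l, F i l z ≠ 0) →
  (∀ i j, ∃ z, lf (ℓ i j) (F i) z ≠ 0) →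
  (∀ z, (∑ i, ∑ j, e i j * analyticOrderNatAt (lf (ℓ i j) (F i)) z = 0) ∨
    m ≤ ∑ i, ∑ j, e i j * analyticOrderNatAt (lf (ℓ i j) (F i)) z) →
  ∀ i z z', ∃ t : ℂ, t ≠ 0 ∧ ∀ l, F i l z' = t * F i l z

end Pool.Agent.P8H50.NK
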