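import Pool.Agent.P8H50.NK.PDefs
import Pool.Agent.P8H50.NK.Stm
import Pool.Agent.W602.GT.Loc
import Pool.Agent.Y221.BD.Str
import Pool.Agent.Y216.Point

/-!
Project NK (helper50), fourth part: general type and pseudo-Brody hyperbolicity for the class of
PDefs.lean. Statements of the packages, with proofs in the docstrings.
-/

set_option autoImplicit false
set_option linter.overlappingInstances false

namespace Pool.Agent.P8H50.NK

open FF Pool.Agent.W602.GT Pool.Agent.W603.LV Pool.Agent.W603.PV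
open Pool.Agent.Y216 (OnVar)

/-- **MKC** (150 lines; may assume S_CUR of Stm.lean). Points over the field `MK` of meromorphic
functions on the plane are constant. `Pool.Agent.TH143.EL.MK`; use `exists_nrm`, `Nrm`, `Fn`, `odr`,
`Reg` of Y221/AB (Wei, Good, Fn). For each `j` take `a0` with `y j a0 = 1` and normalise:
`exists_nrm (y j)` gives `e0 j ≠ 0` in MK and entire `U j a = Fn (e0 j * y j a)` without common zeros.
`g j l := lf (ℓ j l) (U j)` is entire and is `Fn (e0 j * lk (ℓ j l) (y j))`; it is not identically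
zero, as some `z i ≠ 0` with `e i j l ≥ 1` (occ) and the equation. Orders: in MK,
`∏ j, ∏ l, (e0 j * lk ..) ^ e i j l = (z i * ∏ j, e0 j ^ (E i j / m i)) ^ m i` (dvd), hence for every
point `t`, `∑ j l, e i j l * ord_t (g j l) = m i * (an integer ≥ 0)`. Put `M = ∏ i, m i`,
`e' j l = ∑ i, (M / m i) * e i j l ≥ 1`: `∑ j l, e' j l * ord_t (g j l) = ∑ i, (M / m i) * (∑ e i j l ord)`
is zero or at least `M` (if some term is not zero it is at least `(M / m i) * m i`). Apply S_CUR with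
the numbers `n j + 1`, `q j`, `t j`, `e'`, `M`, `ρ' j = M * ρ j` (`k = b + 1`;
`∑ l, e' j l = M * E j`; for the rank condition `rk_of_zero` of NK/Geo.lean): all the `U j` are
constant up to scalars, hence all the ratios `U j a / U j a0` are constant, that is the `y j a`. -/
def S_MKC : Prop := ∀ (s : ℕ) (n : Fin s → ℕ) (r : ℕ) (D : PDat ℂ n r), D.Good →
  ∀ (y : ∀ j, Fin (n j + 1) → Pool.Agent.TH143.EL.MK) (z : Fin r → Pool.Agent.TH143.EL.MK),
  D.Pt y z → ∀ j a, ∃ c : ℂ, y j a = algebraMap ℂ Pool.Agent.TH143.EL.MK c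

/-- **DEG** (150 lines; may assume S_AFI of Stm2.lean). The same over function fields of curves, with
bounds. At every place `P`, with `a j l = ord (lk (ℓ j l) (y j)) - pord P (y j) ≥ 0`, the sums
`∑ j l, e i j l * a j l = m i * ord (z i) - ∑ j, (∑ l, e i j l) * pord` are multiples of `m i` (dvd),
so with `M`, `e'` as in MKC `∑ j l, e' j l * a j l` is zero or at least `M`. S_AFI gives
`∑ j, pht (y j) ≤ C * canDeg` or all `y j` are constant; `hgt (y j a) ≤ pht (y j)` because one of the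
coordinates of `y j` is one (minimum of `0` and `ord (y j a)`). -/
def S_DEG : Prop := ∀ (s : ℕ) (n : Fin s → ℕ) (r : ℕ) (D : PDat ℂ n r), D.Good →
  ∃ C : ℕ, ∀ (K : Type) [Field K] [Algebra ℂ K] [IsFF ℂ K] (y : ∀ j, Fin (n j + 1) → K)
    (z : Fin r → K), D.Pt y z → ∀ j a, hgt ℂ (y j a) ≤ C * max (canDeg ℂ K) 0

/-- **SPM** (120 lines; helper50 does this one). Specialisation, as `special_main` in
P8H50/SS/Spec.lean. -/
def S_SPM : Prop := ∀ (k : Type) [Field k] (s : ℕ) (n : Fin s → ℕ) (r : ℕ) (D : PDat k n r)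
  (K : Type) [Field K] [Algebra k K] (y : ∀ j, Fin (n j + 1) → K) (z : Fin r → K), D.Good →
  D.Pt y z → Algebra.IsAlgebraic (IntermediateField.adjoin k (Set.range (fl y))) K →
  ∀ (M : ℕ) (v : Fin (M + 1) → K), v ≠ 0 → coords k v = ⊤ →
  ∃ (i1 : Fin (M + 1)) (G : MvPolynomial (Fin (M + 1)) k) (d : Fin (M + 1) → ℕ)
    (g : Fin (M + 1) → ℕ → MvPolynomial (Σ j, Fin (n j + 1)) k), IsForm G ∧ val v G ≠ 0 ∧
    ∀ (L : Type) [Field L] [Algebra k L] (f : Fin (M + 1) → L), OnVar k v f → val f G ≠ 0 →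
      f i1 ≠ 0 ∧ ∃ (y' : ∀ j, Fin (n j + 1) → L) (z' : Fin r → L), D.Pt y' z' ∧
        ∀ i, MvPolynomial.aeval (fl y') (g i (d i)) ≠ 0 ∧
          ∑ j ∈ Finset.range (d i + 1), MvPolynomial.aeval (fl y') (g i j) * (f i / f i1) ^ j = 0

/-- **BRO** (120 lines; may assume S_SPM, S_MKC). Entire curves: as `brody_main` in
Y221/BD/Str.lean and `Cmb.picard` in P8H50/SS/Pic.lean, with `L = TH143.EL.MK`: if `R = G` does not
vanish on the entire curve `f`, the classes `cl (f i)` are a point of `X` over MK with `val G ≠ 0`;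
SPM gives a point `y'`, which is constant by MKC, so the ratios `cl (f i) / cl (f i1)` are algebraic
over `ℂ`, hence constants, so `f` is constant: contradiction to `EntireCurve.nonconst`. -/
def S_BRO : Prop := ∀ (s : ℕ) (n : Fin s → ℕ) (r : ℕ) (D : PDat ℂ n r) (K : Type) [Field K]
  [Algebra ℂ K] (y : ∀ j, Fin (n j + 1) → K) (z : Fin r → K), D.Good → D.Pt y z →
  Algebra.IsAlgebraic (IntermediateField.adjoin ℂ (Set.range (fl y))) K →
  ∀ (M : ℕ) (v : Fin (M + 1) → K), v ≠ 0 → coords ℂ v = ⊤ → Pool.Agent.Y221.BD.PseudoBrody v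

/-- **CBD** (80 lines; may assume S_SPM, S_DEG). Degrees of curves: copy of `Cmb.curveBound` in
P8H50/SS/Off.lean (reindex `Σ j, Fin (n j + 1)` by `Fin N` for `hgt_mvpoly`). -/
def S_CBD : Prop := ∀ (s : ℕ) (n : Fin s → ℕ) (r : ℕ) (D : PDat ℂ n r) (K : Type) [Field K]
  [Algebra ℂ K] (y : ∀ j, Fin (n j + 1) → K) (z : Fin r → K), D.Good → D.Pt y z →
  Algebra.IsAlgebraic (IntermediateField.adjoin ℂ (Set.range (fl y))) K →
  ∀ (M : ℕ) (v : Fin (M + 1) → K), v ≠ 0 → coords ℂ v = ⊤ → Pool.Agent.Y216.CurveBound ℂ v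

section general

/-- The matrix with the rows `D i (y j a)` (`i < w`) and the rows of Euler: for each factor `j'`, the row
with the entries `y j a` for `j = j'` and zero otherwise; the columns `(j, a)` are numbered by `ε`. -/
noncomputable def big {k K : Type} [Field k] [Field K] [Algebra k K] {s w : ℕ} {n : Fin s → ℕ}
    (ε : (Σ j, Fin (n j + 1)) ≃ Fin w ⊕ Fin s) (y : ∀ j, Fin (n j + 1) → K)
    (D : Fin w → Derivation k K K) : Matrix (Fin w ⊕ Fin s) (Fin w ⊕ Fin s) K :=
  Matrix.of fun a b => Sum.elim (fun i => D i (fl y (ε.symm b)))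
    (fun j => if (ε.symm b).1 = j then fl y (ε.symm b) else 0) a

/-- **EPS** (40 lines). The numbering: choose `b j`; the remaining pairs are `∑ n j` in number. -/
def S_EPS : Prop := ∀ (s : ℕ) (n : Fin s → ℕ) (b : ∀ j, Fin (n j + 1)),
  ∃ ε : (Σ j, Fin (n j + 1)) ≃ Fin (∑ j, n j) ⊕ Fin s, ∀ j, ε ⟨j, b j⟩ = Sum.inr j

/-- **LGD** (120 lines). The determinant has at most a simple pole. As `det_log` in W602/GT/Loc.lean.
If some `Y p = 0` the determinant has a zero column. Otherwise with `π = unif P` write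
`Y p = U p * π ^ α' p`, `α' p = ord (Y p) ≥ α p`, `ord (U p) = 0`, and take `π ^ α' p` out of the
columns: there remains the matrix with the entries `D i (U p) + α' p * (D i π / π) * U p` and the Euler
rows with entries `U p` or zero. If all `α' p = 0` all entries are regular (second part). In general
let `i0` be such that `ord (D i π / π)` is minimal; if it is `≥ 0` all is regular; otherwise it is at
least `-1`: subtract `(D i π / π) / (D i0 π / π)` times the row `i0` from the rows `i ≠ i0`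
(`Matrix.det_eq_of_forall_row_eq_smul_add_const`): all rows but the row `i0` are regular, its
entries have order at least `-1`; expand (`ge_det`). -/
def S_LGD : Prop := ∀ (k K : Type) [Field k] [Field K] [Algebra k K] [CharZero k] (s w : ℕ)
  (n : Fin s → ℕ) (ε : (Σ j, Fin (n j + 1)) ≃ Fin w ⊕ Fin s) (P : Place k K)
  (D : Fin w → Derivation k K K), (∀ i, DerReg P (D i)) → ∀ (Y : ∀ j, Fin (n j + 1) → K)
  (α : ∀ j, Fin (n j + 1) → ℕ), (∀ j a, Ge P (α j a) (Y j a)) →
  Ge P ((∑ j, ∑ a, (α j a : ℤ)) - 1) (big ε Y D).det ∧ Ge P 0 (big ε Y D).det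

/-- **LGB** (60 lines). Change of coordinates: `C j` invertible matrices with constant entries and
`c j ∈ K`. `big ε Y' D`, with `Y' j a = c j * ∑ b, C j a b * y j b`, is obtained from `big ε y D` by the column operation
with the constant block matrix, multiplication of the block columns by `c j`, and addition of multiples of
Euler rows to the rows `i` (`D i (c j * u) = c j * D i u + D i (c j) * u`). -/
def S_LGB : Prop := ∀ (k K : Type) [Field k] [Field K] [Algebra k K] (s w : ℕ)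
  (n : Fin s → ℕ) (ε : (Σ j, Fin (n j + 1)) ≃ Fin w ⊕ Fin s)
  (D : Fin w → Derivation k K K) (y : ∀ j, Fin (n j + 1) → K)
  (C : ∀ j, Matrix (Fin (n j + 1)) (Fin (n j + 1)) k) (c : Fin s → K), (∀ j, c j ≠ 0) →
  (big ε (fun j a => c j * ∑ b, algebraMap k K (C j a b) * y j b) D).det =
    (∏ j, c j ^ (n j + 1)) * (∏ j, algebraMap k K (C j).det) * (big ε y D).det

/-- **LGE** (100 lines; may assume S_LGD, S_LGB). The estimate. Complete `ℓ j l` (`l ∈ J j`) to a basis
of `k ^ (n j + 1)`: an invertible matrix `C j` whose rows contain them; `c j = π ^ (- pord P (y j))`;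
`Y' j a = c j * (C j * y j) a` has order at least zero, and `a j l` for the rows `l ∈ J j`. LGD and LGB;
constants have order zero. Second part: the same with `J j` empty. -/
def S_LGE : Prop := ∀ (k K : Type) [Field k] [IsAlgClosed k] [Field K] [Algebra k K] [CharZero k]
  (s w : ℕ) (n q : Fin s → ℕ) (ε : (Σ j, Fin (n j + 1)) ≃ Fin w ⊕ Fin s) (P : Place k K)
  (D : Fin w → Derivation k K K), (∀ i, DerReg P (D i)) → ∀ (y : ∀ j, Fin (n j + 1) → K)
  (ℓ : ∀ j, Fin (q j) → Fin (n j + 1) → k) (J : ∀ j, Finset (Fin (q j))), (∀ j, y j ≠ 0) →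
  (∀ j l, lk (ℓ j l) (y j) ≠ 0) → (∀ j, LinearIndepOn k (ℓ j) (J j : Set (Fin (q j)))) →
  Ge P ((∑ j, ((n j + 1 : ℤ) * pord P (y j) + ∑ l ∈ J j, (P.ord (lk (ℓ j l) (y j)) -
    pord P (y j)))) - 1) (big ε y D).det ∧
  Ge P (∑ j, (n j + 1 : ℤ) * pord P (y j)) (big ε y D).det

/-- **LGW** (80 lines; may assume S_LGE). With weights: `a j l = ord - pord ≥ 0`. If some `a j l > 0` the
set `{l : a j l > 0}` has rank `< n j + 1` and `greedy` of N750.Noch gives `J j` with
`∑ ω a ≤ ∑ l ∈ J j, a` (as in ACO, P8H53/NK/Aco.lean `wsum`). -/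
def S_LGW : Prop := ∀ (k K : Type) [Field k] [IsAlgClosed k] [Field K] [Algebra k K] [CharZero k]
  (s w : ℕ) (n q : Fin s → ℕ) (ε : (Σ j, Fin (n j + 1)) ≃ Fin w ⊕ Fin s) (P : Place k K)
  (D : Fin w → Derivation k K K), (∀ i, DerReg P (D i)) → ∀ (y : ∀ j, Fin (n j + 1) → K)
  (ℓ : ∀ j, Fin (q j) → Fin (n j + 1) → k) (ω : ∀ j, Fin (q j) → ℝ), (∀ j, y j ≠ 0) →
  (∀ j l, lk (ℓ j l) (y j) ≠ 0) → (∀ j, WtsF (ℓ j) (ω j)) → (big ε y D).det ≠ 0 →
  (∑ j, ((n j + 1 : ℝ) * pord P (y j) + ∑ l, ω j l * (P.ord (lk (ℓ j l) (y j)) -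
    pord P (y j)))) - 1 ≤ P.ord (big ε y D).det ∧
  (∑ j, (n j + 1 : ℝ) * pord P (y j)) ≤ P.ord (big ε y D).det

/-- **GNM** (100 lines). The numbers. `E' j = ∑ l, e' j l`; `N` is large, `σ j l` is the integer part of
`N * (ω j l - e' j l / M)`; `∑ l, σ j l - (n j + 1) * N ≥ N * (∑ ω - E' j / M - (n j + 1)) - q j ≥ 1` by
`∑ ω - (n j + 1) ≥ (n + 1) (q - (2 t - n + 1)) / (2 t - n + 1)`, and the hypothesis for `b = n j` (if
`n j ≥ 1`), which gives with `ρ < M`: `n (2 t + 1 - n) E' ≤ 2 ρ (q - (2 t + 1 - n))`,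
`E' / M < 2 (q - (2 t + 1 - n)) / (n (2 t + 1 - n))` and `2 / n ≤ n + 1`; factors with `n j = 0` are
excluded. -/
def S_GNM : Prop := ∀ (s : ℕ) (n q t : Fin s → ℕ) (e' : ∀ j, Fin (q j) → ℕ) (M : ℕ)
  (ω : ∀ j, Fin (q j) → ℝ) (ρ : Fin s → ℝ), 1 ≤ M → (∀ j, 1 ≤ n j) →
  (∀ j, n j ≤ t j ∧ 2 * t j < q j) → (∀ j, 0 ≤ ρ j) → (∑ j, ρ j < M) →
  (∀ j, (n j : ℝ) * (2 * t j + 1 - n j) * ∑ l, (e' j l : ℝ) ≤
    2 * ρ j * (q j - (2 * t j + 1 - n j))) →
  (∀ j, ((n j : ℝ) + 1) * (q j - (2 * t j - n j + 1)) / (2 * t j - n j + 1) ≤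
    ∑ l, ω j l - (n j + 1)) →
  ∃ (N : ℕ) (σ : ∀ j, Fin (q j) → ℤ) (d : Fin s → ℕ), 1 ≤ N ∧ (∀ j, 1 ≤ d j) ∧
    (∀ j l, (σ j l : ℝ) ≤ N * (ω j l - e' j l / M)) ∧
    ∀ j, ∑ l, σ j l = (n j + 1) * N + d j

/-- **GTP** (200 lines; may assume S_EPS, S_LGB, S_LGW, S_GNM, S_WTSF). General type. `b j` with
`y j (b j) = 1`; `ε` from EPS; `w = ∑ n j`. The functions `y j a`, `a ≠ b j`, are `w` in number and
generate a subfield over which `K` is algebraic, so they are a transcendence basis; all `lk (ℓ j l)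
(y j)` are not zero (occ, nz). `e'`, `M` as in MKC; weights from WTSF (rank condition from `mult`; the
lower bound there with `n j + 1` in place of `n`). With `c = ∏ j, ∏ l, lk (ℓ j l) (y j) ^ (- σ j l)`:
`ω_u D = u * c * (big ε y D).det ^ N`, with `u = 1` and `u = y j a` (`a ≠ b j`).
IsPluri: the rows `i` of `big` are multiplied by `A` (block matrix, `Matrix.det_mul`).
Regular at `P`: `ord u ≥ ∑ j, d j * pord P (y j)`, because `u` is a monomial of degree `d j ≥ 1` in the
`y j a` of each factor (times powers of `y j (b j) = 1`), and LGW: with `x = ∑ e' j l * a j l` equal to zero (all `a`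
zero, second part of LGW) or at least `M`:
`ord (u c det ^ N) ≥ ∑ d j pord + N (∑ (n j + 1) pord + ∑ ω a - 1) - ∑ σ (a + pord)
 ≥ N (∑ ω a - 1) - ∑ N (ω - e' / M) a = N (x / M - 1) ≥ 0`.
Nonvanishing: `exists_der` (W602/GT/Der.lean) gives `D` dual to the basis, in the numbering by `ε`;
then `big` is triangular with ones on the diagonal. The ratios `ω_u / ω_1` are the basis. The
exponent in `GeneralType` is `N`. -/
def S_GTP : Prop := ∀ (k : Type) [Field k] [IsAlgClosed k] [CharZero k] (s : ℕ) (n : Fin s → ℕ)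
  (r : ℕ) (D : PDat k n r) (K : Type) [Field K] [Algebra k K] (y : ∀ j, Fin (n j + 1) → K)
  (z : Fin r → K), D.Good → D.Pt y z → (∀ j, 1 ≤ n j) →
  Algebra.IsAlgebraic (IntermediateField.adjoin k (Set.range (fl y))) K →
  Algebra.trdeg k K = (∑ j, n j : ℕ) → GeneralType k K (∑ j, n j)

end general

end Pool.Agent.P8H50.NK
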