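import Mathlib

/-!
Project NK (helper50): projective varieties with a morphism to a product of projective spaces.
Such a variety is isomorphic to the graph of the morphism, a closed subset of a product of
projective spaces; the morphism is the projection that forgets the first factor.
-/

set_option autoImplicit false

namespace Pool.Agent.P8H50.NK

open MvPolynomial Filter Topology

/-- Homogeneous coordinates for a product of projective spaces of dimensions `n 0, …, n (s - 1)`. -/
abbrev Crd {s : ℕ} (n : Fin s → ℕ) : Type := ∀ i, Fin (n i + 1) → ℂ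

/-- polynomials in the homogeneous coordinates `u` of projective `N`-space and `v` of the product -/
abbrev MPoly (N : ℕ) {s : ℕ} (n : Fin s → ℕ) : Type :=
  MvPolynomial (Fin (N + 1) ⊕ (Σ i, Fin (n i + 1))) ℂ

/-- value of a polynomial at `(u, v)` -/
noncomputable def ev {N s : ℕ} {n : Fin s → ℕ} (u : Fin (N + 1) → ℂ) (v : Crd n)
    (P : MPoly N n) : ℂ := eval (Sum.elim u fun x => v x.1 x.2) P

/-- multihomogeneous polynomials -/
def MHom {N s : ℕ} {n : Fin s → ℕ} (P : MPoly N n) : Prop :=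
  ∃ (a : ℕ) (b : Fin s → ℕ), ∀ (c : ℂ) (t : Fin s → ℂ) (u : Fin (N + 1) → ℂ) (v : Crd n),
    ev (c • u) (fun i => t i • v i) P = c ^ a * (∏ i, t i ^ b i) * ev u v P

/-- Closed subsets of the product of projective `N`-space and the projective spaces of dimensions
`n 0, …, n (s - 1)`. -/
structure MSet (N : ℕ) {s : ℕ} (n : Fin s → ℕ) where
  /-- the equations -/
  I : Set (MPoly N n)
  hom : ∀ P ∈ I, MHom P

namespace MSet

variable {N s : ℕ} {n : Fin s → ℕ} (X : MSet N n)

/-- the points, in homogeneous coordinates -/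
def Mem (u : Fin (N + 1) → ℂ) (v : Crd n) : Prop :=
  u ≠ 0 ∧ (∀ i, v i ≠ 0) ∧ ∀ P ∈ X.I, ev u v P = 0

/-- entire curves (nonconstant by definition), in homogeneous coordinates -/
structure EntireCurve (u : ℂ → Fin (N + 1) → ℂ) (v : ℂ → Crd n) : Prop where
  diffu : ∀ j, Differentiable ℂ fun z => u z j
  diffv : ∀ i j, Differentiable ℂ fun z => v z i j
  mem : ∀ z, X.Mem (u z) (v z)
  nonconst : ∃ z z', (∀ t : ℂ, u z' ≠ t • u z) ∨ ∃ i, ∀ t : ℂ, v z' i ≠ t • v z i

/-- germs of analytic arcs, in homogeneous coordinates -/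
structure Arc (u : ℂ → Fin (N + 1) → ℂ) (v : ℂ → Crd n) : Prop where
  anu : ∀ j, AnalyticAt ℂ (fun z => u z j) 0
  anv : ∀ i j, AnalyticAt ℂ (fun z => v z i j) 0
  mem : ∀ᶠ z in 𝓝 0, X.Mem (u z) (v z)

/-- The projection of `X` to the product of the projective spaces is ramified over the hyperplanes
`ℓ i j = 0` (`j < q i`) of the `i`-th factor with total multiplicity `m` for the weights `e i j`: if
an arc in `X` meets the hyperplanes with the multiplicities `a i j`, the sum of the numbers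
`e i j * a i j` over all `i` and `j` is zero or at least `m`. -/
def TotallyRamified {q : Fin s → ℕ} (ℓ : ∀ i, Fin (q i) → Fin (n i + 1) → ℂ)
    (e : ∀ i, Fin (q i) → ℕ) (m : ℕ) : Prop :=
  ∀ u v, X.Arc u v → ∀ a : ∀ i, Fin (q i) → ℕ,
    (∀ i j, analyticOrderAt (fun z => ∑ l, ℓ i j l * v z i l) 0 = a i j) →
      ∑ i, ∑ j, e i j * a i j = 0 ∨ m ≤ ∑ i, ∑ j, e i j * a i j

/-- `X` is irreducible -/
def Irred : Prop := (∃ u v, X.Mem u v) ∧ ∀ P Q : MPoly N n, MHom P → MHom Q →
  (∀ u v, X.Mem u v → ev u v (P * Q) = 0) →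
    (∀ u v, X.Mem u v → ev u v P = 0) ∨ ∀ u v, X.Mem u v → ev u v Q = 0

/-- the projection to the product of the projective spaces has finite fibres over a nonempty open
subset of the image -/
def GenFinite : Prop := ∃ D : MPoly N n, MHom D ∧
  (∀ (u u' : Fin (N + 1) → ℂ) (v : Crd n), ev u v D = ev u' v D) ∧
  (∃ u v, X.Mem u v ∧ ev u v D ≠ 0) ∧
  ∀ v, ev 0 v D ≠ 0 → ∃ T : Finset (Fin (N + 1) → ℂ), ∀ u, X.Mem u v → ∃ t ∈ T, ∃ c : ℂ, u = c • t

/-- All entire curves lie in a proper closed subset. -/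
def PseudoBrody : Prop := ∃ G : MPoly N n, MHom G ∧ (∃ u v, X.Mem u v ∧ ev u v G ≠ 0) ∧
  ∀ u v, X.EntireCurve u v → ∀ z, ev (u z) (v z) G = 0

end MSet

end Pool.Agent.P8H50.NK
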