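import Pool.Agent.P8H50.NK.Stm
import Pool.Agent.P8H50.NK.GDefs
import Pool.Agent.W602.TL.Proj

/-!
Project NK (helper50): the theorem for projective varieties over products of projective spaces.
-/

set_option autoImplicit false

namespace Pool.Agent.P8H50.NK

open MvPolynomial Filter Topology

variable {N s : ℕ} {n : Fin s → ℕ}

/-- a linear form of the `i`-th factor, as a polynomial -/
noncomputable def linP (N : ℕ) {s : ℕ} {n : Fin s → ℕ} (i : Fin s) (b : Fin (n i + 1) → ℂ) :
    MPoly N n := ∑ l, C (b l) * X (Sum.inr ⟨i, l⟩)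

theorem ev_linP (i : Fin s) (b : Fin (n i + 1) → ℂ) (u : Fin (N + 1) → ℂ) (v : Crd n) :
    ev u v (linP N i b) = ∑ l, b l * v i l := by
  unfold ev linP
  simp

theorem mhom_linP (i : Fin s) (b : Fin (n i + 1) → ℂ) : MHom (linP N i b) := by
  classical
  refine ⟨0, fun i' => if i' = i then 1 else 0, fun c t u v => ?_⟩
  rw [ev_linP, ev_linP, pow_zero, one_mul]
  have h1 : ∏ i', t i' ^ (if i' = i then 1 else 0) = t i := by
    rw [Finset.prod_eq_single i (fun i' _ h => by rw [if_neg h, pow_zero])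
      (fun h => absurd (Finset.mem_univ _) h), if_pos rfl, pow_one]
  rw [h1, Finset.mul_sum]
  refine Finset.sum_congr rfl fun l _ => ?_
  simp only [Pi.smul_apply, smul_eq_mul]
  ring

theorem ev_mul (u : Fin (N + 1) → ℂ) (v : Crd n) (P Q : MPoly N n) :
    ev u v (P * Q) = ev u v P * ev u v Q := map_mul _ _ _

theorem mhom_mul {P Q : MPoly N n} (hP : MHom P) (hQ : MHom Q) : MHom (P * Q) := by
  obtain ⟨a, b, h⟩ := hP
  obtain ⟨a', b', h'⟩ := hQ
  refine ⟨a + a', fun i => b i + b' i, fun c t u v => ?_⟩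
  rw [ev_mul, ev_mul, h, h']
  simp only [pow_add, Finset.prod_mul_distrib]
  ring

theorem mhom_one : MHom (1 : MPoly N n) := by
  refine ⟨0, fun _ => 0, fun c t u v => ?_⟩
  unfold ev
  simp

theorem mhom_prod {ι : Type} (s' : Finset ι) (R : ι → MPoly N n) (hR : ∀ i, MHom (R i)) :
    MHom (∏ i ∈ s', R i) := by
  classical
  induction s' using Finset.induction_on with
  | empty => rw [Finset.prod_empty]; exact mhom_one
  | insert a s' ha ih =>
    rw [Finset.prod_insert ha]
    exact mhom_mul (hR a) ih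

theorem irred_prod {X : MSet N n} (hX : X.Irred) {ι : Type} (s' : Finset ι)
    (R : ι → MPoly N n) (hR : ∀ i, MHom (R i))
    (h : ∀ i ∈ s', ∃ u v, X.Mem u v ∧ ev u v (R i) ≠ 0) :
    ∃ u v, X.Mem u v ∧ ev u v (∏ i ∈ s', R i) ≠ 0 := by
  classical
  induction s' using Finset.induction_on with
  | empty =>
    obtain ⟨u, v, huv⟩ := hX.1
    refine ⟨u, v, huv, ?_⟩
    rw [Finset.prod_empty]
    unfold ev
    simp
  | insert a s' ha ih =>
    have h1 := ih fun i hi => h i (Finset.mem_insert_of_mem hi)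
    have h2 := h a (Finset.mem_insert_self _ _)
    by_contra hcon
    push Not at hcon
    rcases hX.2 (R a) (∏ i ∈ s', R i) (hR a) (mhom_prod s' R hR) (fun u v huv => by
        rw [← Finset.prod_insert ha]
        exact hcon u v huv) with h3 | h3
    · obtain ⟨u, v, huv, hne⟩ := h2
      exact hne (h3 u v huv)
    · obtain ⟨u, v, huv, hne⟩ := h1
      exact hne (h3 u v huv)

/-- the rank condition from the condition on common zeros -/
theorem rk_of_zero {d q : ℕ} {M : Fin q → Fin d → ℂ} {A : Finset (Fin q)}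
    (h : ∀ x : Fin d → ℂ, (∀ j ∈ A, ∑ l, M j l * x l = 0) → x = 0) : rk M A = d := by
  classical
  unfold rk Pool.Agent.N750.rk
  have h1 : Submodule.span ℂ (M '' (A : Set (Fin q))) = ⊤ := by
    rw [← Submodule.dualAnnihilator_eq_bot_iff] <;> try infer_instance
    rw [eq_bot_iff]
    intro φ hφ
    rw [Submodule.mem_bot]
    rw [Submodule.mem_dualAnnihilator] at hφ
    have h2 := h (fun l => φ (Pi.single l 1)) (fun j hj => by
      have h3 := hφ (M j) (Submodule.subset_span ⟨j, hj, rfl⟩)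
      have h4 : M j = ∑ l, M j l • (Pi.single l 1 : Fin d → ℂ) := by
        funext i
        simp [Pi.single_apply]
      rw [h4, map_sum] at h3
      simpa only [map_smul, smul_eq_mul] using h3)
    apply LinearMap.pi_ext'
    intro l
    ext
    simpa using congrFun h2 l
  rw [h1, finrank_top, Module.finrank_fin_fun]

/-- The theorem for varieties over a product of projective spaces. -/
theorem variety (hcur : S_CUR) {q t : Fin s → ℕ} {ℓ : ∀ i, Fin (q i) → Fin (n i + 1) → ℂ}
    {e : ∀ i, Fin (q i) → ℕ} {m : ℕ} {ρ : Fin s → ℝ} (hnt : ∀ i, n i ≤ t i ∧ 2 * t i < q i)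
    (hpos : ∀ i (A : Finset (Fin (q i))), A.card = t i + 1 →
      ∀ x : Fin (n i + 1) → ℂ, (∀ j ∈ A, ∑ l, ℓ i j l * x l = 0) → x = 0)
    (he : ∀ i j, 1 ≤ e i j)
    (hρ : ∀ i, 0 ≤ ρ i ∧ ∀ k : ℕ, 1 ≤ k → k ≤ n i → (k : ℝ) * (2 * t i - k + 1) *
      ∑ j, (e i j : ℝ) ≤ 2 * ρ i * (q i - (2 * t i - k + 1))) (hm : ∑ i, ρ i < m)
    (X : MSet N n) (hX : X.TotallyRamified ℓ e m) :
    (∀ u v, X.EntireCurve u v →
      (∃ i j, ∀ z, ∑ l, ℓ i j l * v z i l = 0) ∨ ∀ i z z', ∃ c : ℂ, c ≠ 0 ∧ v z' i = c • v z i) ∧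
    (X.Irred → X.GenFinite → (∀ i j, ∃ u v, X.Mem u v ∧ ∑ l, ℓ i j l * v i l ≠ 0) →
      X.PseudoBrody) := by
  classical
  have hcurve : ∀ u v, X.EntireCurve u v →
      (∃ i j, ∀ z, ∑ l, ℓ i j l * v z i l = 0) ∨
        ∀ i z z', ∃ c : ℂ, c ≠ 0 ∧ v z' i = c • v z i := by
    intro u v h
    by_cases hz : ∃ i j, ∀ z, ∑ l, ℓ i j l * v z i l = 0
    · exact Or.inl hz
    right
    push Not at hz
    have hord : ∀ (z : ℂ) i j, analyticOrderAt (fun w => ∑ l, ℓ i j l * v (w + z) i l) 0 =
        ((analyticOrderNatAt (lf (ℓ i j) (fun l w => v w i l)) z : ℕ) : ℕ∞) := by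
      intro z i j
      have hd0 : Differentiable ℂ (lf (ℓ i j) (fun l w => v w i l)) := by
        unfold lf
        exact Differentiable.fun_sum fun l _ => (h.diffv i l).const_mul _
      have e1 : (fun w => ∑ l, ℓ i j l * v (w + z) i l)
          = (lf (ℓ i j) (fun l w => v w i l)) ∘ fun w => w + z := rfl
      have hd : deriv (fun w : ℂ => w + z) 0 ≠ 0 := by
        rw [deriv_add_const, deriv_id'']
        exact one_ne_zero
      rw [e1, analyticOrderAt_comp_of_deriv_ne_zero (by fun_prop) hd, zero_add]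
      refine (Nat.cast_analyticOrderNatAt ?_).symm
      intro htop
      obtain ⟨z1, hz1⟩ := hz i j
      apply Pool.Agent.P8H10.GC.nz_of_diff hd0 ⟨z1, hz1⟩ z
      rw [(hd0.analyticAt z).meromorphicOrderAt_eq, htop]
      rfl
    have hF := hcur s (fun i => n i + 1) q t ℓ e m ρ (fun i l w => v w i l)
      (fun i => ⟨by have := (hnt i).1; omega, (hnt i).2⟩)
      (fun i A hA => rk_of_zero (hpos i A hA)) he
      (fun i => ⟨(hρ i).1, fun k hk hk' => by
        obtain ⟨k', rfl⟩ : ∃ k', k = k' + 1 := ⟨k - 1, by omega⟩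
        have h1 := (hρ i).2 k' (by omega) (by omega)
        push_cast
        convert h1 using 2 <;> ring⟩) hm (fun i l => h.diffv i l)
      (fun i z => by
        by_contra hcon
        push Not at hcon
        exact (h.mem z).2.1 i (funext hcon)) hz
      (fun z => by
        have harc : X.Arc (fun w => u (w + z)) (fun w => v (w + z)) := by
          refine ⟨fun j => ?_, fun i j => ?_, Filter.Eventually.of_forall fun w => h.mem _⟩
          · exact ((h.diffu j).comp (differentiable_id.add_const z)).analyticAt 0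
          · exact ((h.diffv i j).comp (differentiable_id.add_const z)).analyticAt 0
        exact hX _ _ harc _ (hord z))
    intro i z z'
    obtain ⟨c, hc, h1⟩ := hF i z z'
    exact ⟨c, hc, funext fun l => by rw [Pi.smul_apply, smul_eq_mul]; exact h1 l⟩
  refine ⟨hcurve, fun hirr hfin hne => ?_⟩
  obtain ⟨D, hD, hDu, hDne, hDfin⟩ := hfin
  set R : Option (Σ i, Fin (q i)) → MPoly N n :=
    fun i => i.elim D fun x => linP N x.1 (ℓ x.1 x.2) with hR
  have hRhom : ∀ i, MHom (R i) := by
    intro i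
    rcases i with _ | x
    · exact hD
    · exact mhom_linP _ _
  obtain ⟨u0, v0, h0, h0ne⟩ := irred_prod hirr Finset.univ R hRhom (by
    intro i _
    rcases i with _ | x
    · exact hDne
    · obtain ⟨u, v, huv, hne⟩ := hne x.1 x.2
      refine ⟨u, v, huv, ?_⟩
      change ev u v (linP N x.1 (ℓ x.1 x.2)) ≠ 0
      rw [ev_linP]
      exact hne)
  refine ⟨∏ i, R i, mhom_prod _ R hRhom, ⟨u0, v0, h0, h0ne⟩, fun u v h z => ?_⟩
  have hprod : ev (u z) (v z) (∏ i, R i) = ∏ i, ev (u z) (v z) (R i) := by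
    unfold ev
    rw [map_prod]
  rw [hprod]
  rcases hcurve u v h with ⟨i, j, h1⟩ | h1
  · refine Finset.prod_eq_zero (Finset.mem_univ (some ⟨i, j⟩)) ?_
    change ev (u z) (v z) (linP N i (ℓ i j)) = 0
    rw [ev_linP]
    exact h1 z
  · by_cases hDz : ev (u z) (v z) D = 0
    · exact Finset.prod_eq_zero (Finset.mem_univ none) hDz
    · exfalso
      obtain ⟨T, hT⟩ := hDfin (v z) (by rw [hDu 0 (u z)]; exact hDz)
      have hmem : ∀ w, X.Mem (u w) (v z) := by
        intro w
        choose c hc hcv using fun i => h1 i w z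
        have hv : v z = fun i => c i • v w i := funext hcv
        refine ⟨(h.mem w).1, (h.mem z).2.1, fun P hP => ?_⟩
        obtain ⟨a, b, hab⟩ := X.hom P hP
        have h3 := hab 1 c (u w) (v w)
        rw [one_smul, ← hv, (h.mem w).2.2 P hP, mul_zero] at h3
        exact h3
      have hc := Pool.Agent.W602.TL.const_of_finite h.diffu (fun w => (h.mem w).1)
        (fun w => hT _ (hmem w))
      obtain ⟨w, w', hww⟩ := h.nonconst
      rcases hww with h2 | ⟨i, h2⟩
      · obtain ⟨c, hc⟩ := hc w w'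
        exact h2 c hc
      · obtain ⟨c, -, hc⟩ := h1 i w w'
        exact h2 c hc

end Pool.Agent.P8H50.NK
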