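import Pool.Agent.P8H50.NK.PDefs
import Pool.Agent.P8H50.NK.Geo
import Pool.Agent.P8H10.GC6

/-!
Project NK (helper50): systems of cyclic covers of a product of projective spaces; the exact
exceptional set.
-/

set_option autoImplicit false

namespace Pool.Agent.P8H50.NK

open Pool.Agent.P8H10.GC (order_prod)

/-- The variety `X` of a system: `S i` (`i < r`) are data over the same product of projective spaces
with one equation each. Points of `X` in homogeneous coordinates: `x j ≠ 0` and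
`w i ^ m i = ∏ j, ∏ l, (∑ a, ℓ i j l a * x j a) ^ e i j l`. -/
def OnSys {s : ℕ} {n : Fin s → ℕ} {r : ℕ} (S : Fin r → PDat ℂ n 1)
    (x : ∀ j, Fin (n j + 1) → ℂ) (w : Fin r → ℂ) : Prop :=
  (∀ j, x j ≠ 0) ∧ ∀ i, w i ^ (S i).m 0 =
    ∏ j, ∏ l, (∑ a, (S i).ℓ j l a * x j a) ^ (S i).e 0 j l

/-- The homogeneous coordinates `(x, w)`, `(x', w')` give the same point: `x' j = c j * x j` and
`w' i = (∏ j, c j ^ ((∑ l, e i j l) / m i)) * w i` with numbers `c j ≠ 0`. -/
def SamePt {s : ℕ} {n : Fin s → ℕ} {r : ℕ} (S : Fin r → PDat ℂ n 1)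
    (x : ∀ j, Fin (n j + 1) → ℂ) (w : Fin r → ℂ) (x' : ∀ j, Fin (n j + 1) → ℂ)
    (w' : Fin r → ℂ) : Prop :=
  ∃ c : Fin s → ℂ, (∀ j, c j ≠ 0) ∧ (∀ j, x' j = c j • x j) ∧
    ∀ i, w' i = (∏ j, c j ^ ((∑ l, (S i).e 0 j l) / (S i).m 0)) * w i

/-- An entire curve in `X` (nonconstant by definition), in homogeneous coordinates. -/
structure SysCurve {s : ℕ} {n : Fin s → ℕ} {r : ℕ} (S : Fin r → PDat ℂ n 1)
    (x : ℂ → ∀ j, Fin (n j + 1) → ℂ) (w : ℂ → Fin r → ℂ) : Prop where
  holx : ∀ j a, Differentiable ℂ fun t => x t j a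
  holw : ∀ i, Differentiable ℂ fun t => w t i
  mem : ∀ t, OnSys S (x t) (w t)
  nonconst : ∃ t t', ¬ SamePt S (x t) (w t) (x t') (w t')

variable {s : ℕ} {n : Fin s → ℕ} {r : ℕ} {S : Fin r → PDat ℂ n 1}

/-- the curves in the factors are constant, if one of the `w i` is not identically zero -/
theorem sys_const (hcur : S_CUR) {i : Fin r} (hS : (S i).Good)
    {x : ℂ → ∀ j, Fin (n j + 1) → ℂ} {w : ℂ → Fin r → ℂ} (h : SysCurve S x w) {t0 : ℂ}
    (h0 : w t0 i ≠ 0) (j : Fin s) (t t' : ℂ) : ∃ c : ℂ, c ≠ 0 ∧ x t' j = c • x t j := by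
  classical
  obtain ⟨ρ, hρ, hρs, hρb⟩ := hS.small
  set D := S i with hDdef
  set m := D.m 0 with hm
  have hm1 : 1 ≤ m := hS.m_pos 0
  have hmR : (0 : ℝ) < m := by exact_mod_cast hm1
  have hocc : ∀ j l, 1 ≤ D.e 0 j l := fun j l => by
    obtain ⟨i', hi'⟩ := hS.occ j l
    have : i' = 0 := Subsingleton.elim _ _
    rwa [this] at hi'
  let F : ∀ j, Fin (n j + 1) → ℂ → ℂ := fun j a t => x t j a
  have hlf : ∀ j l, lf (D.ℓ j l) (F j) = fun t => ∑ a, D.ℓ j l a * x t j a := fun j l => rfl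
  have hlfd : ∀ j l, Differentiable ℂ (lf (D.ℓ j l) (F j)) := fun j l => by
    rw [hlf]
    exact Differentiable.fun_sum fun a _ => (h.holx j a).const_mul _
  have hne : ∀ j l, ∃ z, lf (D.ℓ j l) (F j) z ≠ 0 := by
    intro j l
    refine ⟨t0, fun h1 => ?_⟩
    have h2 := (h.mem t0).2 i
    have h3 : w t0 i ^ m = 0 := by
      rw [h2]
      refine Finset.prod_eq_zero (Finset.mem_univ j) (Finset.prod_eq_zero (Finset.mem_univ l) ?_)
      have h4 : ∑ a, D.ℓ j l a * x t0 j a = 0 := h1
      rw [h4]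
      exact zero_pow (Nat.one_le_iff_ne_zero.1 (hocc j l))
    exact h0 (pow_eq_zero_iff (by omega) |>.1 h3)
  have key := hcur s (fun j => n j + 1) D.q D.t D.ℓ (D.e 0) m (fun j => m * ρ j) F
    (fun j => ⟨by have := (hS.dim j).1; omega, (hS.dim j).2⟩)
    (fun j A hA => rk_of_zero (hS.mult j A hA)) hocc ?_ ?_ (fun j a => h.holx j a)
    (fun j t => ?_) hne ?_ j t t'
  · obtain ⟨c, hc, hcx⟩ := key
    refine ⟨c, hc, ?_⟩
    funext a
    exact hcx a
  · intro j
    refine ⟨mul_nonneg hmR.le (hρ j), fun k hk hkn => ?_⟩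
    obtain ⟨b, rfl⟩ : ∃ b, k = b + 1 := ⟨k - 1, by omega⟩
    have h1 := hρb j b (by omega) (by omega)
    have hE : (m : ℝ) * D.E j = ∑ l, (D.e 0 j l : ℝ) := by
      unfold PDat.E
      rw [Fin.sum_univ_one, mul_div_cancel₀ _ hmR.ne']
    rw [← hE]
    push_cast
    have h2 := mul_le_mul_of_nonneg_left h1 hmR.le
    have e1 : ((b : ℝ) + 1 - 1) * (2 * D.t j - (b + 1) + 2) * (m * D.E j) =
        m * (b * (2 * D.t j + 1 - b) * D.E j) := by ring
    have e2 : 2 * (m * ρ j) * ((D.q j : ℝ) - (2 * D.t j - (b + 1) + 2)) =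
        m * (2 * ρ j * (D.q j - (2 * D.t j + 1 - b))) := by ring
    rw [e1, e2]
    exact h2
  · rw [← Finset.mul_sum]
    calc (m : ℝ) * ∑ j, ρ j < m * 1 := mul_lt_mul_of_pos_left hρs hmR
      _ = m := mul_one _
  · by_contra hcon
    push Not at hcon
    exact (h.mem t).1 j (funext fun a => hcon a)
  · intro z
    have h1 : analyticOrderAt (fun t => w t i ^ m) z =
        ((∑ j, ∑ l, D.e 0 j l * analyticOrderNatAt (lf (D.ℓ j l) (F j)) z : ℕ) : ℕ∞) := by
      have e1 : (fun t => w t i ^ m) = fun t => ∏ p ∈ (Finset.univ : Finset (Σ j, Fin (D.q j))),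
          (fun t => ∑ a, D.ℓ p.1 p.2 a * x t p.1 a) t ^ D.e 0 p.1 p.2 := by
        funext t
        rw [(h.mem t).2 i, Finset.prod_sigma']
        rfl
      rw [e1, order_prod (S := Σ j, Fin (D.q j)) (fun p t => ∑ a, D.ℓ p.1 p.2 a * x t p.1 a)
        (fun p => hlfd p.1 p.2) (fun p => hne p.1 p.2) (fun p => D.e 0 p.1 p.2) Finset.univ z]
      congr 1
      rw [Fintype.sum_sigma]
      rfl
    have h2 : (fun t => w t i ^ m) = (fun t => w t i) ^ m := rfl
    rw [h2, analyticOrderAt_pow ((h.holw i).analyticAt z)] at h1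
    have h3 : analyticOrderAt (fun t => w t i) z ≠ ⊤ := by
      intro ht
      rw [ht, nsmul_eq_mul, ENat.mul_top (by exact_mod_cast (by omega : m ≠ 0))] at h1
      exact absurd h1.symm (ENat.natCast_ne_top _)
    rw [← Nat.cast_analyticOrderNatAt h3, nsmul_eq_mul] at h1
    have h4 : m * analyticOrderNatAt (fun t => w t i) z =
        ∑ j, ∑ l, D.e 0 j l * analyticOrderNatAt (lf (D.ℓ j l) (F j)) z := by
      exact_mod_cast h1
    rw [← h4]
    rcases Nat.eq_zero_or_pos (analyticOrderNatAt (fun t => w t i) z) with h5 | h5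
    · left
      rw [h5, mul_zero]
    · right
      exact Nat.le_mul_of_pos_right m h5

/-- entire functions with equal powers which are a constant times a given function -/
theorem sys_pow {f g : ℂ → ℂ} (hf : Differentiable ℂ f) {m : ℕ} (hm : 1 ≤ m)
    (hg : ∀ t, g t ≠ 0) (hgd : Differentiable ℂ g) {a : ℂ} (h : ∀ t, f t ^ m = a * g t ^ m)
    (t t' : ℂ) : f t' * g t = f t * g t' := by
  -- the quotient is continuous with finitely many values
  have h1 : Differentiable ℂ fun t => f t / g t := hf.div hgd hg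
  have h2 : ∀ t, (f t / g t) ^ m = a := by
    intro t
    rw [div_pow, h t, mul_div_assoc, div_self (pow_ne_zero _ (hg t)), mul_one]
  have h3 : f t' / g t' = f t / g t := by
    apply h1.apply_eq_apply_of_bounded
    rw [isBounded_iff_forall_norm_le]
    refine ⟨max ‖a‖ 1, ?_⟩
    rintro _ ⟨u, rfl⟩
    by_contra hcon
    push Not at hcon
    have h4 : 1 < ‖f u / g u‖ := (le_max_right _ _).trans_lt hcon
    have h5 : ‖f u / g u‖ ≤ ‖f u / g u‖ ^ m := le_self_pow₀ h4.le (by omega)
    rw [← norm_pow, h2 u] at h5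
    exact absurd (h5.trans (le_max_left _ _)) (not_le.2 hcon)
  rw [div_eq_div_iff (hg t') (hg t)] at h3
  rw [h3]


/-- **Entire curves** lie in the closed subset where all the `w i` are zero. -/
theorem sys_zero (hcur : S_CUR) (hS : ∀ i, (S i).Good) {x : ℂ → ∀ j, Fin (n j + 1) → ℂ}
    {w : ℂ → Fin r → ℂ} (h : SysCurve S x w) (t : ℂ) (i : Fin r) : w t i = 0 := by
  classical
  by_contra h0
  choose c hc0 hcx using fun t' j => sys_const hcur (hS i) h h0 j t t'
  -- the scalars are entire functions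
  have hpos : ∀ j, ∃ a, x t j a ≠ 0 := fun j => by
    by_contra hcon
    push Not at hcon
    exact (h.mem t).1 j (funext hcon)
  choose a ha using hpos
  have hca : ∀ j t', c t' j = x t' j (a j) / x t j (a j) := by
    intro j t'
    rw [eq_div_iff (ha j)]
    exact (congrFun (hcx t' j) (a j)).symm
  have hcd : ∀ j, Differentiable ℂ fun t' => c t' j := by
    intro j
    have e1 : (fun t' => c t' j) = fun t' => x t' j (a j) / x t j (a j) := funext (hca j)
    rw [e1]
    exact (h.holx j (a j)).div_const _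
  have hct : ∀ j, c t j = 1 := fun j => by rw [hca, div_self (ha j)]
  let g : Fin r → ℂ → ℂ := fun i' t' => ∏ j, c t' j ^ ((∑ l, (S i').e 0 j l) / (S i').m 0)
  have hg0 : ∀ i' t', g i' t' ≠ 0 := fun i' t' =>
    Finset.prod_ne_zero_iff.2 fun j _ => pow_ne_zero _ (hc0 t' j)
  have hgd : ∀ i', Differentiable ℂ (g i') := fun i' =>
    Differentiable.fun_finsetProd fun j _ => (hcd j).pow _
  have hgt : ∀ i', g i' t = 1 := fun i' => Finset.prod_eq_one fun j _ => by rw [hct, one_pow]
  have hpw : ∀ i' t', w t' i' ^ (S i').m 0 = w t i' ^ (S i').m 0 * g i' t' ^ (S i').m 0 := by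
    intro i' t'
    rw [(h.mem t').2 i', (h.mem t).2 i', ← Finset.prod_pow, ← Finset.prod_mul_distrib]
    refine Finset.prod_congr rfl fun j _ => ?_
    have e1 : (c t' j ^ ((∑ l, (S i').e 0 j l) / (S i').m 0)) ^ (S i').m 0 =
        ∏ l, c t' j ^ (S i').e 0 j l := by
      rw [← pow_mul, Nat.div_mul_cancel ((hS i').dvd 0 j), Finset.prod_pow_eq_pow_sum]
    rw [e1, ← Finset.prod_mul_distrib]
    refine Finset.prod_congr rfl fun l _ => ?_
    rw [← mul_pow]
    congr 1
    rw [hcx t' j, Finset.sum_mul]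
    refine Finset.sum_congr rfl fun b _ => ?_
    simp only [Pi.smul_apply, smul_eq_mul]
    ring
  have hw : ∀ i' t', w t' i' = g i' t' * w t i' := by
    intro i' t'
    have h1 := sys_pow (h.holw i') ((hS i').m_pos 0) (hg0 i') (hgd i') (hpw i') t t'
    rw [hgt, mul_one] at h1
    rw [h1, mul_comm]
  obtain ⟨t1, t2, h12⟩ := h.nonconst
  apply h12
  refine ⟨fun j => c t2 j / c t1 j, fun j => div_ne_zero (hc0 _ _) (hc0 _ _), fun j => ?_,
    fun i' => ?_⟩
  · rw [hcx t2 j, hcx t1 j, smul_smul, div_mul_cancel₀ _ (hc0 t1 j)]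
  · rw [hw i' t2, hw i' t1]
    have e1 : (∏ j, (c t2 j / c t1 j) ^ ((∑ l, (S i').e 0 j l) / (S i').m 0)) =
        g i' t2 / g i' t1 := by
      simp only [div_pow, Finset.prod_div_distrib]
      rfl
    rw [e1, ← mul_assoc, div_mul_cancel₀ _ (hg0 i' t1)]

/-- at a point with `w i = 0` some hyperplane of the equation vanishes -/
theorem sys_vanish (hS : ∀ i, (S i).Good) {x : ∀ j, Fin (n j + 1) → ℂ} {w : Fin r → ℂ}
    (h : OnSys S x w) {i : Fin r} (h0 : w i = 0) :
    ∃ j l, ∑ a, (S i).ℓ j l a * x j a = 0 := by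
  have h1 := h.2 i
  rw [h0, zero_pow (Nat.one_le_iff_ne_zero.1 ((hS i).m_pos 0))] at h1
  obtain ⟨j, -, hj⟩ := Finset.prod_eq_zero_iff.1 h1.symm
  obtain ⟨l, -, hl⟩ := Finset.prod_eq_zero_iff.1 hj
  exact ⟨j, l, (pow_eq_zero_iff' .. ).1 hl |>.1⟩

theorem sys_occ (hS : ∀ i, (S i).Good) (i : Fin r) (j : Fin s) (l : Fin ((S i).q j)) :
    (S i).e 0 j l ≠ 0 := by
  obtain ⟨i', hi'⟩ := (hS i).occ j l
  have h1 : i' = 0 := Subsingleton.elim _ _
  rw [h1] at hi'
  omega

/-- a point with `w = 0` where one hyperplane of each equation vanishes -/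
theorem onSys_zero (hS : ∀ i, (S i).Good) {x : ∀ j, Fin (n j + 1) → ℂ} (hx : ∀ j, x j ≠ 0)
    (h : ∀ i, ∃ j l, ∑ a, (S i).ℓ j l a * x j a = 0) : OnSys S x 0 := by
  refine ⟨hx, fun i => ?_⟩
  obtain ⟨j, l, hl⟩ := h i
  rw [Pi.zero_apply, zero_pow (Nat.one_le_iff_ne_zero.1 ((hS i).m_pos 0))]
  symm
  refine Finset.prod_eq_zero (Finset.mem_univ j) (Finset.prod_eq_zero (Finset.mem_univ l) ?_)
  rw [hl]
  exact zero_pow (sys_occ hS i j l)

/-- forms fewer than `n` in number vanish on a line through a given common zero -/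
theorem exists_dir {d : ℕ} {ι : Type} [Fintype ι] (hι : Fintype.card ι < d)
    (u : ι → Fin (d + 1) → ℂ) (x : Fin (d + 1) → ℂ) :
    ∃ v : Fin (d + 1) → ℂ, (∀ i, ∑ a, u i a * v a = 0) ∧ ∀ c : ℂ, v ≠ c • x := by
  classical
  let Φ : (Fin (d + 1) → ℂ) →ₗ[ℂ] (ι → ℂ) := Matrix.mulVecLin (Matrix.of u)
  have h1 := LinearMap.finrank_range_add_finrank_ker Φ
  have h2 : Module.finrank ℂ (LinearMap.range Φ) ≤ Fintype.card ι := by
    refine (Submodule.finrank_le _).trans ?_
    rw [Module.finrank_fintype_fun_eq_card]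
  rw [Module.finrank_fin_fun] at h1
  have h3 : 2 ≤ Module.finrank ℂ (LinearMap.ker Φ) := by omega
  by_contra hcon
  push Not at hcon
  have h4 : LinearMap.ker Φ ≤ Submodule.span ℂ {x} := by
    intro v hv
    obtain ⟨c, hc⟩ := hcon v (fun i => congrFun (LinearMap.mem_ker.1 hv) i)
    rw [hc]
    exact Submodule.smul_mem _ _ (Submodule.mem_span_singleton_self x)
  have h5 := Submodule.finrank_mono h4
  have h6 := finrank_span_le_card (R := ℂ) ({x} : Set (Fin (d + 1) → ℂ))
  rw [Set.toFinset_singleton, Finset.card_singleton] at h6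
  omega

/-- **Sharpness.** -/
theorem sys_sharp (hS : ∀ i, (S i).Good) (hr : r < ∑ j, n j) {x : ∀ j, Fin (n j + 1) → ℂ}
    (h : OnSys S x 0) : ∃ (X : ℂ → ∀ j, Fin (n j + 1) → ℂ) (w : ℂ → Fin r → ℂ),
      SysCurve S X w ∧ X 0 = x ∧ w 0 = 0 := by
  classical
  choose J Lx hJ using fun i => sys_vanish hS h (i := i) rfl
  obtain ⟨j, hj⟩ : ∃ j, (Finset.univ.filter fun i => J i = j).card < n j := by
    by_contra hcon
    push Not at hcon
    have h1 : ∑ j, n j ≤ ∑ j, (Finset.univ.filter fun i => J i = j).card :=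
      Finset.sum_le_sum fun j _ => hcon j
    rw [← Finset.card_eq_sum_card_fiberwise (fun i _ => Finset.mem_coe.2 (Finset.mem_univ _)),
      Finset.card_univ, Fintype.card_fin] at h1
    omega
  have hcast : ∀ i : {i // J i = j}, n (J i.1) = n j := fun i => by rw [i.2]
  obtain ⟨v, hv, hvx⟩ := exists_dir (ι := {i // J i = j}) (by
    rw [Fintype.card_subtype]
    exact hj) (fun i => (S i.1).ℓ j (Fin.cast (by rw [i.2]) (Lx i.1))) (x j)
  have hx0 := h.1 j
  refine ⟨fun t => Function.update x j (x j + t • v), fun _ => 0, ⟨fun j' a => ?_, fun i =>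
    differentiable_const _, fun t => ?_, 0, 1, ?_⟩, ?_, rfl⟩
  · by_cases hjj : j' = j
    · subst hjj
      simp only [Function.update_self, Pi.add_apply, Pi.smul_apply, smul_eq_mul]
      exact (differentiable_const _).add (differentiable_id.mul_const _)
    · simp only [Function.update_of_ne hjj]
      exact differentiable_const _
  · refine onSys_zero hS (fun j' => ?_) fun i => ?_
    · by_cases hjj : j' = j
      · subst hjj
        rw [Function.update_self]
        intro h0
        by_cases ht : t = 0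
        · rw [ht, zero_smul, add_zero] at h0
          exact hx0 h0
        · apply hvx (-t⁻¹)
          have h1 : t • v = - x j' := eq_neg_of_add_eq_zero_right h0
          rw [neg_smul, ← smul_neg, ← h1, smul_smul, inv_mul_cancel₀ ht, one_smul]
      · rw [Function.update_of_ne hjj]
        exact h.1 j'
    · refine ⟨J i, Lx i, ?_⟩
      by_cases hij : J i = j
      · subst hij
        rw [Function.update_self]
        have h1 := hv ⟨i, rfl⟩
        simp only [Fin.cast_refl, id_eq] at h1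
        simp only [Pi.add_apply, Pi.smul_apply, smul_eq_mul, mul_add, Finset.sum_add_distrib]
        rw [hJ i, zero_add]
        have e1 : ∀ a, (S i).ℓ (J i) (Lx i) a * (t * v a) =
            t * ((S i).ℓ (J i) (Lx i) a * v a) := fun a => by ring
        simp only [e1, ← Finset.mul_sum]
        rw [h1, mul_zero]
      · rw [Function.update_of_ne hij]
        exact hJ i
  · rintro ⟨c, -, hc, -⟩
    have h1 := hc j
    simp only [Function.update_self, one_smul, zero_smul, add_zero] at h1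
    apply hvx (c j - 1)
    rw [sub_smul, one_smul, ← h1, add_sub_cancel_left]
  · funext j'
    by_cases hjj : j' = j
    · subst hjj
      simp only [Function.update_self, zero_smul, add_zero]
    · show Function.update x j (x j + (0 : ℂ) • v) j' = x j'
      rw [Function.update_of_ne hjj]

/-- The hyperplanes of all the equations, in each factor, are in general position: any `n j + 1` or
fewer of them are linearly independent. -/
def SysGen {s : ℕ} {n : Fin s → ℕ} {r : ℕ} (S : Fin r → PDat ℂ n 1) : Prop :=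
  ∀ j (T : Finset (Σ i, Fin ((S i).q j))), T.card ≤ n j + 1 →
    LinearIndependent ℂ fun a : T => (S a.1.1).ℓ j a.1.2

/-- `d` independent forms in `d + 1` variables have only one common zero -/
theorem zero_unique {d : ℕ} {ι : Type} [Fintype ι] (hι : d ≤ Fintype.card ι)
    {u : ι → Fin (d + 1) → ℂ} (hu : LinearIndependent ℂ u) {x x' : Fin (d + 1) → ℂ} (hx : x ≠ 0)
    (hx' : x' ≠ 0) (h : ∀ i, ∑ a, u i a * x a = 0) (h' : ∀ i, ∑ a, u i a * x' a = 0) :
    ∃ c : ℂ, c ≠ 0 ∧ x' = c • x := by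
  classical
  let Φ : (Fin (d + 1) → ℂ) →ₗ[ℂ] (ι → ℂ) := Matrix.mulVecLin (Matrix.of u)
  have h1 := LinearMap.finrank_range_add_finrank_ker Φ
  have h2 : Module.finrank ℂ (LinearMap.range Φ) = Fintype.card ι := by
    have := LinearIndependent.rank_matrix (M := Matrix.of u) hu
    exact this
  rw [Module.finrank_fin_fun, h2] at h1
  have hxk : x ∈ LinearMap.ker Φ := LinearMap.mem_ker.2 (funext h)
  have hxk' : x' ∈ LinearMap.ker Φ := LinearMap.mem_ker.2 (funext h')
  have h3 : Module.finrank ℂ (LinearMap.ker Φ) ≤ 1 := by omega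
  have h4 : (⟨x, hxk⟩ : LinearMap.ker Φ) ≠ 0 := fun h0 => hx (congrArg Subtype.val h0)
  obtain ⟨v, hv⟩ := finrank_le_one_iff.1 h3
  obtain ⟨a, ha⟩ := hv ⟨x, hxk⟩
  obtain ⟨b, hb⟩ := hv ⟨x', hxk'⟩
  have ha' : a • (v : Fin (d + 1) → ℂ) = x := congrArg Subtype.val ha
  have hb' : b • (v : Fin (d + 1) → ℂ) = x' := congrArg Subtype.val hb
  have ha0 : a ≠ 0 := by
    rintro rfl
    rw [zero_smul] at ha'
    exact hx ha'.symm
  have hb0 : b ≠ 0 := by
    rintro rfl
    rw [zero_smul] at hb'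
    exact hx' hb'.symm
  exact ⟨b / a, div_ne_zero hb0 ha0, by rw [← hb', ← ha', smul_smul, div_mul_cancel₀ _ ha0]⟩

/-- **Hyperbolic systems.** -/
theorem sys_brody (hcur : S_CUR) (hS : ∀ i, (S i).Good) (hg : SysGen S) (hr : ∑ j, n j ≤ r)
    (x : ℂ → ∀ j, Fin (n j + 1) → ℂ) (w : ℂ → Fin r → ℂ) : ¬ SysCurve S x w := by
  classical
  intro h
  have hw := sys_zero hcur hS h
  -- one hyperplane of each equation vanishes identically
  have hid : ∀ i, ∃ j l, ∀ t, ∑ a, (S i).ℓ j l a * x t j a = 0 := by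
    intro i
    by_contra hcon
    push Not at hcon
    have hlfd : ∀ p : Σ j, Fin ((S i).q j),
        Differentiable ℂ fun t => ∑ a, (S i).ℓ p.1 p.2 a * x t p.1 a := fun p =>
      Differentiable.fun_sum fun a _ => (h.holx p.1 a).const_mul _
    have h1 := order_prod (S := Σ j, Fin ((S i).q j))
      (fun p t => ∑ a, (S i).ℓ p.1 p.2 a * x t p.1 a) hlfd (fun p => hcon p.1 p.2)
      (fun p => (S i).e 0 p.1 p.2) Finset.univ 0
    have h2 : (fun t => ∏ p ∈ (Finset.univ : Finset (Σ j, Fin ((S i).q j))),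
        (fun t => ∑ a, (S i).ℓ p.1 p.2 a * x t p.1 a) t ^ (S i).e 0 p.1 p.2) = fun _ => 0 := by
      funext t
      have h3 := (h.mem t).2 i
      rw [hw t i, zero_pow (Nat.one_le_iff_ne_zero.1 ((hS i).m_pos 0)), Finset.prod_sigma'] at h3
      exact h3.symm
    rw [h2] at h1
    have h4 : analyticOrderAt (fun _ : ℂ => (0 : ℂ)) 0 = ⊤ := by
      rw [analyticOrderAt_eq_top]
      exact Filter.Eventually.of_forall fun _ => rfl
    rw [h4] at h1
    exact absurd h1.symm (ENat.natCast_ne_top _)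
  choose J Lx hJ using hid
  -- the forms in the factor `j`
  have hcomp : ∀ j, ∃ U : {i // J i = j} → Fin (n j + 1) → ℂ,
      (∀ i t, ∑ a, U i a * x t j a = 0) ∧ ∀ T : Finset {i // J i = j}, T.card ≤ n j + 1 →
        LinearIndependent ℂ fun a : T => U a.1 := by
    intro j
    have hLx : ∀ i : {i // J i = j}, ∃ l : Fin ((S i.1).q j),
        ∀ t, ∑ a, (S i.1).ℓ j l a * x t j a = 0 := by
      rintro ⟨i, rfl⟩
      exact ⟨Lx i, hJ i⟩
    choose l hl using hLx
    refine ⟨fun i => (S i.1).ℓ j (l i), hl, fun T hT => ?_⟩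
    let f : {i // J i = j} ↪ (Σ i, Fin ((S i).q j)) := ⟨fun i => ⟨i.1, l i⟩, fun a b hab => by
      have := congrArg Sigma.fst hab
      exact Subtype.ext this⟩
    have h1 := hg j (T.map f) (by rw [Finset.card_map]; exact hT)
    have h2 := h1.comp (fun a : T => (⟨f a.1, Finset.mem_map_of_mem f a.2⟩ : T.map f))
      (fun a b hab => Subtype.ext (f.injective (congrArg Subtype.val hab)))
    exact h2
  have hle : ∀ j, Fintype.card {i // J i = j} ≤ n j := by
    intro j
    by_contra hcon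
    push Not at hcon
    obtain ⟨U, hU, hind⟩ := hcomp j
    obtain ⟨T, -, hT⟩ := Finset.exists_subset_card_eq
      (s := (Finset.univ : Finset {i // J i = j})) (n := n j + 1) (by
        rw [Finset.card_univ]; omega)
    have h1 := hind T hT.le
    have hne : Nonempty T := by
      have : T.Nonempty := by
        rw [← Finset.card_pos, hT]
        omega
      exact this.to_subtype
    have h2 := h1.span_eq_top_of_card_eq_finrank (by
      rw [Fintype.card_coe, hT]
      simp)
    have h3 : ∀ u ∈ Submodule.span ℂ (Set.range fun a : T => U a.1),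
        ∑ l, u l * x 0 j l = 0 := by
      intro u hu
      induction hu using Submodule.span_induction with
      | mem u hu =>
        obtain ⟨a, rfl⟩ := hu
        exact hU a.1 0
      | zero => simp
      | add a b _ _ ha hb =>
        simp only [Pi.add_apply, add_mul, Finset.sum_add_distrib, ha, hb, add_zero]
      | smul a u _ hu =>
        simp only [Pi.smul_apply, smul_eq_mul, mul_assoc, ← Finset.mul_sum, hu, mul_zero]
    apply (h.mem 0).1 j
    funext l
    have h4 := h3 (Pi.single l 1) (by rw [h2]; trivial)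
    simpa [Pi.single_apply] using h4
  have hsum : ∑ j, Fintype.card {i // J i = j} = r := by
    simp only [Fintype.card_subtype]
    rw [← Finset.card_eq_sum_card_fiberwise (fun i _ => Finset.mem_coe.2 (Finset.mem_univ _)),
      Finset.card_univ, Fintype.card_fin]
  have hge : ∀ j, n j ≤ Fintype.card {i // J i = j} := by
    intro j
    by_contra hcon
    push Not at hcon
    have h1 : ∑ j, Fintype.card {i // J i = j} < ∑ j, n j :=
      Finset.sum_lt_sum (fun j _ => hle j) ⟨j, Finset.mem_univ _, hcon⟩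
    omega
  obtain ⟨t1, t2, h12⟩ := h.nonconst
  apply h12
  have h5 : ∀ j, ∃ c : ℂ, c ≠ 0 ∧ x t2 j = c • x t1 j := by
    intro j
    obtain ⟨U, hU, hind⟩ := hcomp j
    have h6 := hind Finset.univ (by rw [Finset.card_univ]; have := hle j; omega)
    have h7 := h6.comp (fun i : {i // J i = j} => (⟨i, Finset.mem_univ _⟩ :
      (Finset.univ : Finset {i // J i = j}))) (fun a b hab => congrArg Subtype.val hab)
    exact zero_unique (hge j) h7 ((h.mem t1).1 j) ((h.mem t2).1 j) (fun i => hU i t1)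
      (fun i => hU i t2)
  choose c hc0 hc using h5
  exact ⟨c, hc0, hc, fun i => by rw [hw, hw, mul_zero]⟩

end Pool.Agent.P8H50.NK
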