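import Pool.Agent.P8H50.NK.All
import Pool.Agent.P8H50.NK.Stm4
import Pool.Agent.P8H50.NK.Spm
import Pool.Agent.P8H50.NK.Bro
import Pool.Agent.P8H50.NK.Pcl
import Pool.Agent.P8H50.NK.Sysp
import Pool.Agent.P8H45.NK.Aow
import Pool.Agent.P8H53.NK.Aco
import Pool.Agent.P8H71.NK.Asp
import Pool.Agent.P8H52.NK.Wtsf
import Pool.Agent.P8H16.NK.Afi
import Pool.Agent.P8H75.NK.Deg
import Pool.Agent.P8H68.NK.Lgw
import Pool.Agent.P8H69.NK.Lgb
import Pool.Agent.P8H76.NK.Gnm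
import Pool.Agent.P8H53.NK.Mkc
import Pool.Agent.P8H37.NK.Lgd
import Pool.Agent.P8H65.NK.Eps
import Pool.Agent.P8H65.NK.Cbd
import Pool.Agent.P8H86.NK.Lge
import Pool.Agent.P8H45.NK.Gtp

/-!
Project NK (helper50): assembly of the fourth part. The packages are by helpers 53, 75, 65, 37, 69, 86,
68, 76, 45; the algebraic engine by helpers 45, 53, 71, 52, 16.
-/

set_option autoImplicit false

namespace Pool.Agent.P8H50.NK

theorem t_BRO : S_BRO := bro spm (Pool.Agent.P8H53.NK.mkc t_CUR)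

theorem t_CBD : S_CBD := Pool.Agent.P8H65.NK.cbd spm (Pool.Agent.P8H75.NK.deg
  (Pool.Agent.P8H16.NK.afi (Pool.Agent.P8H53.NK.aco Pool.Agent.P8H45.NK.aow)
    Pool.Agent.P8H71.NK.asp Pool.Agent.P8H52.NK.wtsf Pool.Agent.P8H16.NK.resf))

theorem t_GTP : S_GTP := Pool.Agent.P8H45.NK.GTP.gtp Pool.Agent.P8H65.NK.eps
  (Pool.Agent.P8H68.NK.lgw (Pool.Agent.P8H86.NK.lge Pool.Agent.P8H37.NK.lgd
    Pool.Agent.P8H69.NK.lgb)) Pool.Agent.P8H76.NK.gnm Pool.Agent.P8H52.NK.wtsf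

end Pool.Agent.P8H50.NK
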