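import Pool.Agent.Y221.BD.Defs
import Pool.Agent.Y216.Point
import Pool.Agent.TH466.QG.Strong

/-!
Project NK (helper50): projective varieties with a finite morphism to projective space, ramified
over hyperplane arrangements. The varieties are given by their generic points.
-/

set_option autoImplicit false

namespace Pool.Agent.P8H50.NK

open Pool.Agent.W602.GT

/-- Data for a projective variety `X` over `ℂ` with the generic point `x`: `n + 1` forms `A l` of
degree `d`, which define a morphism `φ` from `X` to projective `n`-space; `r` families of hyperplanes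
`∑ l, ℓ i j l * X l = 0` (`i < r`, `j < q i`) with multiplicities `e i j`; and `r` forms `B i`, the
`m i`-th roots of the products of the hyperplanes. -/
structure CDat {M : ℕ} {K : Type} [Field K] [Algebra ℂ K] (x : Fin (M + 1) → K) (n r : ℕ) where
  d : ℕ
  q : Fin r → ℕ
  t : Fin r → ℕ
  m : Fin r → ℕ
  ℓ : ∀ i, Fin (q i) → Fin (n + 1) → ℂ
  e : ∀ i, Fin (q i) → ℕ
  A : Fin (n + 1) → MvPolynomial (Fin (M + 1)) ℂ
  B : Fin r → MvPolynomial (Fin (M + 1)) ℂ

namespace CDat

variable {M : ℕ} {K : Type} [Field K] [Algebra ℂ K] {x : Fin (M + 1) → K} {n r : ℕ}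

/-- the pullback of a linear form, a form on `X` -/
noncomputable def pull (D : CDat x n r) (i : Fin r) (j : Fin (D.q i)) :
    MvPolynomial (Fin (M + 1)) ℂ := ∑ l, MvPolynomial.C (D.ℓ i j l) * D.A l

/-- The conditions on the data: the forms `A l` have degree `d ≥ 1` and no common zero on `X`, and
the morphism `φ` is finite (the function field of every closed subvariety `Z` of `X` is algebraic over
the function field of `φ (Z)`); on `X`, `B i ^ m i` is the product over `j` of the powers of the
pullbacks of the hyperplanes with the exponents `e i j ≥ 1`, whose sum `∑ j, e i j` is divisible by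
`m i`; at most `t i` of the hyperplanes of the `i`-th family have a common point; `n ≤ t i`,
`2 * t i < q i` and, for `k = 1, …, n`,
`k * (2 * t i + 1 - k) * ∑ j, e i j < 2 * m i * (q i - (2 * t i + 1 - k))`. -/
structure Good (D : CDat x n r) : Prop where
  one_le : 1 ≤ D.d
  homA : ∀ l, (D.A l).IsHomogeneous D.d
  homB : ∀ i, (D.B i).IsHomogeneous (D.d * ((∑ j, D.e i j) / D.m i))
  free : ∀ a ∈ VarPts ℂ x, ∃ l, val a (D.A l) ≠ 0
  fin : ∀ (E : Type) [Field E] [Algebra ℂ E] (z : Fin (M + 1) → E), Pool.Agent.TH466.QG.SubOf ℂ x z →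
    Algebra.IsAlgebraic (coords ℂ fun l => val z (D.A l)) E
  eq : ∀ i, val x (D.B i) ^ D.m i = ∏ j, val x (D.pull i j) ^ D.e i j
  pos : ∀ i j, 1 ≤ D.e i j
  dvd : ∀ i, D.m i ∣ ∑ j, D.e i j
  mult : ∀ i (S : Finset (Fin (D.q i))), S.card = D.t i + 1 → ∀ v : Fin (n + 1) → ℂ,
    (∀ j ∈ S, ∑ l, D.ℓ i j l * v l = 0) → v = 0
  dim : ∀ i, n ≤ D.t i ∧ 2 * D.t i < D.q i
  small : ∀ i k, 1 ≤ k → k ≤ n →
    k * (2 * D.t i + 1 - k) * ∑ j, D.e i j < 2 * D.m i * (D.q i + k - (2 * D.t i + 1))

/-- Every intersection of `r` hyperplanes, one of each family, has dimension at most `c - 1` (is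
contained in a linear subspace of dimension `c - 1`; it is empty for `c = 0`, at most a point for
`c = 1`, contained in a line for `c = 2`). -/
def Codim (D : CDat x n r) (c : ℕ) : Prop :=
  ∀ σ : ∀ i, Fin (D.q i), n + 1 ≤ Module.finrank ℂ (Submodule.span ℂ
    (Set.range fun i => D.ℓ i (σ i))) + c

end CDat

end Pool.Agent.P8H50.NK
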