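import Pool.Agent.P8H10.GC3
import Pool.Agent.N750.Noch

/-!
Project NK (helper50): entire curves in projective space, hyperplanes in arbitrary position,
Wronskians and Nochka weights. Definitions.
-/

set_option autoImplicit false

namespace Pool.Agent.P8H50.NK

open Pool.Agent.H159R3.NV (L)

/-- the norm of the vector `f z` (maximum of the absolute values of the coordinates) -/
noncomputable def nm {n : ℕ} (f : Fin n → ℂ → ℂ) (z : ℂ) : ℝ := ‖fun i => f i z‖

/-- the characteristic: the circle average of the logarithm of the norm -/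
noncomputable def tau {n : ℕ} (f : Fin n → ℂ → ℂ) (r : ℝ) : ℝ :=
  Real.circleAverage (fun z => Real.log (nm f z)) 0 r

/-- linear forms -/
def lf {n : ℕ} (b : Fin n → ℂ) (f : Fin n → ℂ → ℂ) (z : ℂ) : ℂ := ∑ i, b i * f i z

/-- the Wronskian -/
noncomputable def wr {n : ℕ} (f : Fin n → ℂ → ℂ) (z : ℂ) : ℂ :=
  (Matrix.of fun i l : Fin n => iteratedDeriv l (f i) z).det

/-- entire functions without common zeros, linearly independent over the constants -/
structure Crv {n : ℕ} (f : Fin n → ℂ → ℂ) : Prop where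
  diff : ∀ i, Differentiable ℂ (f i)
  nz : ∀ z, ∃ i, f i z ≠ 0
  ind : ∀ c : Fin n → ℂ, (∀ z, lf c f z = 0) → c = 0

/-- the rank of a subfamily of the vectors `M j` -/
noncomputable def rk {n q : ℕ} (M : Fin q → Fin n → ℂ) (A : Finset (Fin q)) : ℕ :=
  Pool.Agent.N750.rk ℂ M A

/-- weights in the style of Nochka for the vectors `M j`, which span the space -/
structure Wts {n q : ℕ} (M : Fin q → Fin n → ℂ) (ω : Fin q → ℝ) : Prop where
  nonneg : ∀ j, 0 ≤ ω j
  le : ∀ A : Finset (Fin q), rk M A < n → ∑ j ∈ A, ω j ≤ rk M A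
  full : rk M Finset.univ = n

end Pool.Agent.P8H50.NK
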