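import Pool.Agent.P8H50.NK.Stm3
import Pool.Agent.P8H50.NK.Gpt
import Pool.Agent.P8H50.SS.Surf
import Pool.Agent.W602.GT.War

/-!
Project NK (helper50): closed subvarieties of covers of projective space along hyperplanes.
-/

set_option autoImplicit false

namespace Pool.Agent.P8H50.NK

open FF
open Pool.Agent.W602.GT
open Pool.Agent.Q103.SF
open Pool.Agent.TH466.QG (SubOf)
open Pool.Agent.Y221.BD (EntireCurve)
open Pool.Agent.Y216 (OnVar)
open Pool.Agent.W603.LV (canDeg)
open Pool.Agent.W603.PV (pht)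
open Pool.Agent.Q271.RC (Nonconst)

/-- the dimension of the image, if there are many linear relations -/
theorem dim_span {n : ℕ} {E : Type} [Field E] [Algebra ℂ E] {y : Fin (n + 1) → E} (hy : y ≠ 0)
    (halg : Algebra.IsAlgebraic (coords ℂ y) E) {w : ℕ} (htr : Algebra.trdeg ℂ E = w)
    {S : Submodule ℂ (Fin (n + 1) → ℂ)} (hS : ∀ c ∈ S, ∑ l, algebraMap ℂ E (c l) * y l = 0)
    {c : ℕ} (hc : n + 1 ≤ Module.finrank ℂ S + c) : w + 1 ≤ c := by
  classical
  let L : (Fin (n + 1) → ℂ) →ₗ[ℂ] E := Fintype.linearCombination ℂ y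
  have hL : ∀ v, L v = ∑ l, algebraMap ℂ E (v l) * y l := by
    intro v
    rw [Fintype.linearCombination_apply]
    exact Finset.sum_congr rfl fun l _ => Algebra.smul_def _ _
  have hyl : ∀ l, L (Pi.single l 1) = y l := by
    intro l
    rw [hL, Finset.sum_eq_single l]
    · simp
    · intro b _ hb
      rw [Pi.single_eq_of_ne hb, map_zero, zero_mul]
    · intro h
      exact absurd (Finset.mem_univ _) h
  have h1 : S ≤ LinearMap.ker L := fun v hv => by
    rw [LinearMap.mem_ker, hL]
    exact hS v hv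
  have h2 := Submodule.finrank_mono h1
  have h3 := LinearMap.finrank_range_add_finrank_ker L
  rw [Module.finrank_fin_fun] at h3
  obtain ⟨l0, hl0⟩ := Function.ne_iff.1 hy
  have hne : LinearMap.range L ≠ ⊥ := by
    intro h
    apply hl0
    have h4 : L (Pi.single l0 1) ∈ LinearMap.range L := LinearMap.mem_range_self L _
    rw [h, Submodule.mem_bot, hyl] at h4
    exact h4
  have hpos : Module.finrank ℂ (LinearMap.range L) ≠ 0 := by
    intro h
    exact hne (Submodule.finrank_eq_zero.1 h)
  obtain ⟨p, hp⟩ : ∃ p, Module.finrank ℂ (LinearMap.range L) = p + 1 :=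
    ⟨Module.finrank ℂ (LinearMap.range L) - 1, by omega⟩
  let b := Module.finBasisOfFinrankEq ℂ (LinearMap.range L) hp
  let u : Fin (p + 1) → E := fun i => (b i : E)
  have hu0 : u 0 ≠ 0 := by
    intro h
    have h4 := b.ne_zero 0
    apply h4
    exact Subtype.ext h
  have hyu : ∀ l, ∃ a : Fin (p + 1) → ℂ, y l = ∑ i, algebraMap ℂ E (a i) * u i := by
    intro l
    have hm : y l ∈ LinearMap.range L := by
      rw [← hyl l]
      exact LinearMap.mem_range_self L _
    obtain ⟨Y, hY⟩ : ∃ Y : LinearMap.range L, (Y : E) = y l := ⟨⟨y l, hm⟩, rfl⟩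
    refine ⟨fun i => b.repr Y i, ?_⟩
    have h4 := congrArg (Subtype.val) (b.sum_repr Y)
    rw [← hY, ← h4]
    simp only [Submodule.coe_sum, Submodule.coe_smul]
    refine Finset.sum_congr rfl fun i _ => ?_
    rw [Algebra.smul_def]
  have hmem : ∀ l, y l / u 0 ∈ coords ℂ u := by
    intro l
    obtain ⟨a, ha⟩ := hyu l
    rw [ha, Finset.sum_div]
    refine sum_mem fun i _ => ?_
    rw [mul_div_assoc]
    exact mul_mem ((coords ℂ u).algebraMap_mem _)
      (IntermediateField.subset_adjoin _ _ ⟨i, 0, hu0, rfl⟩)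
  have hle : coords ℂ y ≤ coords ℂ u := by
    unfold coords
    rw [IntermediateField.adjoin_le_iff]
    rintro _ ⟨i, j, hj, rfl⟩
    have h4 : y i / y j = (y i / u 0) / (y j / u 0) := by
      field_simp
    rw [h4]
    exact div_mem (hmem i) (hmem j)
  have h5 := dim_le (k := ℂ) (y := u) (fun h => hu0 (congrFun h 0)) (alg_mono hle halg) htr
  omega

variable {M : ℕ} {K : Type} [Field K] [Algebra ℂ K] {x : Fin (M + 1) → K} {n r : ℕ}

namespace CDat

theorem val_pull (D : CDat x n r) {E : Type} [Field E] [Algebra ℂ E] (z : Fin (M + 1) → E)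
    (i : Fin r) (j : Fin (D.q i)) :
    val z (D.pull i j) = ∑ l, algebraMap ℂ E (D.ℓ i j l) * val z (D.A l) := by
  unfold pull Pool.Agent.W602.GT.val
  simp [map_sum]

theorem form_pull (D : CDat x n r) (hD : D.Good) (i : Fin r) (j : Fin (D.q i)) :
    (D.pull i j).IsHomogeneous D.d := by
  unfold pull
  refine MvPolynomial.IsHomogeneous.sum _ _ _ fun l _ => ?_
  have := (MvPolynomial.isHomogeneous_C (Fin (M + 1)) (D.ℓ i j l)).mul (hD.homA l)
  rwa [zero_add] at this

/-- the values of the forms `A l` at the generic point of a subvariety are not all zero if it has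
positive dimension -/
theorem valA_ne (D : CDat x n r) (hD : D.Good) {E : Type} [Field E] [Algebra ℂ E]
    {z : Fin (M + 1) → E} (hz : SubOf ℂ x z) {w : ℕ} (hw : 1 ≤ w) (htr : Algebra.trdeg ℂ E = w) :
    (fun l => val z (D.A l)) ≠ 0 := by
  intro h0
  have h1 := hD.fin E z hz
  have h2 : coords ℂ (fun l => val z (D.A l)) = ⊥ := by
    unfold coords
    rw [IntermediateField.adjoin_eq_bot_iff]
    rintro _ ⟨i, j, hj, rfl⟩
    exact absurd (congrFun h0 j) hj
  rw [h2] at h1
  have h3 : Algebra.IsAlgebraic ℂ E := by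
    have h4 : Algebra.IsAlgebraic ℂ (⊥ : IntermediateField ℂ E) :=
      (IntermediateField.botEquiv ℂ E).symm.isAlgebraic
    exact Algebra.IsAlgebraic.trans ℂ (⊥ : IntermediateField ℂ E) E
  have h5 : Algebra.trdeg ℂ E = 0 := trdeg_eq_zero_iff.2 h3
  rw [h5] at htr
  have : w = 0 := by exact_mod_cast htr.symm
  omega

/-- on a subvariety whose dimension is at least the bound of `Codim`, for every choice some
hyperplane does not vanish -/
theorem exists_pull (D : CDat x n r) (hD : D.Good) {c : ℕ} (hc : D.Codim c) {E : Type} [Field E]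
    [Algebra ℂ E] {z : Fin (M + 1) → E} (hz : SubOf ℂ x z) {w : ℕ} (hw : 1 ≤ w) (hwc : c ≤ w)
    (htr : Algebra.trdeg ℂ E = w) (σ : ∀ i, Fin (D.q i)) : ∃ i, val z (D.pull i (σ i)) ≠ 0 := by
  by_contra hcon
  push Not at hcon
  have h1 := dim_span (D.valA_ne hD hz hw htr) (hD.fin E z hz) htr
    (S := Submodule.span ℂ (Set.range fun i => D.ℓ i (σ i))) (fun v hv => by
      induction hv using Submodule.span_induction with
      | mem v hv =>
        obtain ⟨i, rfl⟩ := hv
        rw [← D.val_pull]
        exact hcon i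
      | zero => simp
      | add a b _ _ ha hb =>
        simp only [Pi.add_apply, map_add, add_mul, Finset.sum_add_distrib, ha, hb, add_zero]
      | smul a v _ hv =>
        simp only [Pi.smul_apply, smul_eq_mul, map_mul, mul_assoc, ← Finset.mul_sum, hv, mul_zero])
    (hc σ)
  omega

/-- the image of an entire curve is not a point -/
theorem not_const (D : CDat x n r) (hD : D.Good) (hG1 : S_gpc) {f : Fin (M + 1) → ℂ → ℂ}
    (hf : EntireCurve x f) : ¬ ∀ z z', ∃ c : ℂ, c ≠ 0 ∧ ∀ l,
      MvPolynomial.eval (fun a => f a z') (D.A l) =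
        c * MvPolynomial.eval (fun a => f a z) (D.A l) := by
  intro hcon
  obtain ⟨E, _, _, v, w, h1, h2, h3, h4, -, -⟩ := gen_of_entire hG1 hf
  set a : Fin (n + 1) → ℂ := fun l => MvPolynomial.eval (fun i => f i 0) (D.A l) with ha
  -- the relations
  have hrel : ∀ i j, algebraMap ℂ E (a j) * val v (D.A i) = algebraMap ℂ E (a i) * val v (D.A j) := by
    intro i j
    have h5 : val v (MvPolynomial.C (a j) * D.A i - MvPolynomial.C (a i) * D.A j) = 0 := by
      rw [h2 _ ⟨D.d, ?_⟩]
      · intro t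
        obtain ⟨c, -, hc⟩ := hcon 0 t
        rw [map_sub, map_mul, map_mul, MvPolynomial.eval_C, MvPolynomial.eval_C, hc i, hc j]
        simp only [ha]
        ring
      · have e1 := (MvPolynomial.isHomogeneous_C (Fin (M + 1)) (a j)).mul (hD.homA i)
        have e2 := (MvPolynomial.isHomogeneous_C (Fin (M + 1)) (a i)).mul (hD.homA j)
        rw [zero_add] at e1 e2
        exact e1.sub e2
    unfold Pool.Agent.W602.GT.val at h5 ⊢
    simp only [map_sub, map_mul, MvPolynomial.aeval_C, sub_eq_zero] at h5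
    exact h5
  have ha0 : ∃ j, a j ≠ 0 := by
    have h5 : (fun i => f i 0) ∈ VarPts ℂ x := by
      refine ⟨?_, fun G hG hGx => ?_⟩
      · obtain ⟨i, hi⟩ := hf.ne 0
        intro h
        exact hi (congrFun h i)
      · have := hf.mem G hG hGx 0
        unfold Pool.Agent.W602.GT.val
        rw [MvPolynomial.aeval_eq_eval]
        exact this
    obtain ⟨l, hl⟩ := hD.free _ h5
    refine ⟨l, ?_⟩
    unfold Pool.Agent.W602.GT.val at hl
    rw [MvPolynomial.aeval_eq_eval] at hl
    exact hl
  obtain ⟨j, hj⟩ := ha0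
  have h6 := hD.fin E v h1
  have h7 : coords ℂ (fun l => val v (D.A l)) = ⊥ := by
    unfold coords
    rw [IntermediateField.adjoin_eq_bot_iff]
    rintro _ ⟨i, k, hk, rfl⟩
    have hk' : val v (D.A k) ≠ 0 := hk
    have e0 : algebraMap ℂ E (a j) ≠ 0 := by
      rw [Ne, map_eq_zero]
      exact hj
    have e1 := hrel i j
    have e2 := hrel k j
    have hak : algebraMap ℂ E (a k) ≠ 0 := by
      intro h
      rw [h, zero_mul] at e2
      exact (mul_ne_zero e0 hk') e2
    have e3 : val v (D.A i) / val v (D.A k) = algebraMap ℂ E (a i / a k) := by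
      rw [map_div₀, div_eq_div_iff hk' hak]
      have := hrel i k
      linear_combination this
    rw [SetLike.mem_coe]
    show val v (D.A i) / val v (D.A k) ∈ _
    rw [e3]
    exact (⊥ : IntermediateField ℂ E).algebraMap_mem _
  rw [h7] at h6
  have h8 : Algebra.IsAlgebraic ℂ E := by
    have h4 : Algebra.IsAlgebraic ℂ (⊥ : IntermediateField ℂ E) :=
      (IntermediateField.botEquiv ℂ E).symm.isAlgebraic
    exact Algebra.IsAlgebraic.trans ℂ (⊥ : IntermediateField ℂ E) E
  have h9 : Algebra.trdeg ℂ E = 0 := trdeg_eq_zero_iff.2 h8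
  rw [h9] at h3
  have : w = 0 := by exact_mod_cast h3.symm
  omega

/-- **Entire curves** lie over the intersection of `r` hyperplanes, one of each family. -/
theorem entire_sigma (hcen : S_CEN) (D : CDat x n r) (hx : x ≠ 0) (hD : D.Good) (hG1 : S_gpc)
    {f : Fin (M + 1) → ℂ → ℂ} (hf : EntireCurve x f) : ∃ σ : ∀ i, Fin (D.q i), ∀ i t,
      MvPolynomial.eval (fun a => f a t) (D.pull i (σ i)) = 0 := by
  have h1 : ∀ i, ∃ j, ∀ t, MvPolynomial.eval (fun a => f a t) (D.pull i j) = 0 := fun i =>
    (hcen M K x n r D hx hD f hf i).resolve_right (D.not_const hD hG1 hf)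
  choose σ hσ using h1
  exact ⟨σ, hσ⟩

/-- a nonconstant map from a curve is not mapped to a point -/
theorem const_curve (D : CDat x n r) (hD : D.Good) {L : Type} [Field L] [Algebra ℂ L] [IsFF ℂ L]
    {v : Fin (M + 1) → L} (hv : OnVar ℂ x v) {c : L} {a : Fin (n + 1) → ℂ}
    (hc : ∀ l, val v (D.A l) = c * algebraMap ℂ L (a l)) : ¬ Nonconst v := by
  classical
  intro hn
  obtain ⟨⟨k, hk⟩, hv2⟩ := hv
  let E := coords ℂ v
  have hmem : ∀ i, v i / v k ∈ E := fun i => IntermediateField.subset_adjoin _ _ ⟨i, k, hk, rfl⟩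
  let z : Fin (M + 1) → E := fun i => ⟨v i / v k, hmem i⟩
  have hvz : ∀ i, algebraMap E L (z i) = v i / v k := fun i => rfl
  have hval : ∀ (G : MvPolynomial (Fin (M + 1)) ℂ) (d : ℕ), G.IsHomogeneous d →
      val v G = v k ^ d * algebraMap E L (val z G) := by
    intro G d hd
    have h1 : algebraMap E L (val z G) = val (fun i => v i / v k) G := by
      unfold Pool.Agent.W602.GT.val
      rw [← MvPolynomial.aeval_algebraMap_apply]
      rfl
    rw [h1, ← val_smul hd (v k)]
    congr 1
    funext i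
    field_simp
  have hzk : z k ≠ 0 := by
    intro h0
    have h1 := congrArg (algebraMap E L) h0
    rw [hvz, map_zero, div_self hk] at h1
    exact one_ne_zero h1
  have hgen : coords ℂ z = ⊤ := by
    have h1 : (coords ℂ z).map (IntermediateField.val E) = (⊤ : IntermediateField ℂ E).map
        (IntermediateField.val E) := by
      have h2 : (⊤ : IntermediateField ℂ E).map (IntermediateField.val E) = E := by
        rw [← AlgHom.fieldRange_eq_map, IntermediateField.fieldRange_val]
      rw [h2]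
      show (IntermediateField.adjoin ℂ _).map _ = coords ℂ v
      rw [IntermediateField.adjoin_map]
      unfold coords
      congr 1
      ext u
      constructor
      · rintro ⟨_, ⟨a, b, hb, rfl⟩, rfl⟩
        have hzb : v b ≠ 0 := by
          intro h0
          apply hb
          apply (algebraMap E L).injective
          rw [hvz, h0, zero_div, map_zero]
        refine ⟨a, b, hzb, ?_⟩
        show algebraMap E L (z a / z b) = _
        rw [map_div₀, hvz, hvz]
        field_simp
      · rintro ⟨a, b, hb, rfl⟩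
        refine ⟨z a / z b, ⟨a, b, ?_, rfl⟩, ?_⟩
        · intro h0
          have h1 := congrArg (algebraMap E L) h0
          rw [hvz, map_zero, div_eq_zero_iff] at h1
          exact h1.elim hb hk
        · show algebraMap E L (z a / z b) = _
          rw [map_div₀, hvz, hvz]
          field_simp
    exact IntermediateField.map_injective _ h1
  have hsub : SubOf ℂ x z := by
    refine ⟨fun h => hzk (congrFun h k), hgen, fun G hG hGx => ?_⟩
    obtain ⟨d, hd⟩ := hG
    have h1 := hv2 G ⟨d, hd⟩ hGx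
    rw [hval G d hd, mul_eq_zero, or_iff_right (pow_ne_zero _ hk), map_eq_zero] at h1
    exact h1
  have h6 := hD.fin E z hsub
  have h7 : coords ℂ (fun l => val z (D.A l)) = ⊥ := by
    unfold coords
    rw [IntermediateField.adjoin_eq_bot_iff]
    rintro _ ⟨i, j, hj, rfl⟩
    have hj' : val v (D.A j) ≠ 0 := by
      rw [hval _ _ (hD.homA j)]
      exact mul_ne_zero (pow_ne_zero _ hk) (by
        rw [Ne, map_eq_zero]
        exact hj)
    have haj : algebraMap ℂ L (a j) ≠ 0 := by
      intro h
      rw [hc, h, mul_zero] at hj'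
      exact hj' rfl
    have hc0 : c ≠ 0 := by
      intro h
      rw [hc, h, zero_mul] at hj'
      exact hj' rfl
    have e3 : val z (D.A i) / val z (D.A j) = algebraMap ℂ E (a i / a j) := by
      apply (algebraMap E L).injective
      rw [map_div₀, ← IsScalarTower.algebraMap_apply ℂ E L, map_div₀]
      have e4 : val v (D.A i) / val v (D.A j) = algebraMap ℂ L (a i) / algebraMap ℂ L (a j) := by
        rw [hc, hc]
        field_simp
      rw [← e4, hval _ _ (hD.homA i), hval _ _ (hD.homA j)]
      rw [mul_div_mul_left _ _ (pow_ne_zero _ hk)]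
    rw [SetLike.mem_coe]
    show val z (D.A i) / val z (D.A j) ∈ _
    rw [e3]
    exact (⊥ : IntermediateField ℂ E).algebraMap_mem _
  rw [h7] at h6
  have h8 : Algebra.IsAlgebraic ℂ E := by
    have h4 : Algebra.IsAlgebraic ℂ (⊥ : IntermediateField ℂ E) :=
      (IntermediateField.botEquiv ℂ E).symm.isAlgebraic
    exact Algebra.IsAlgebraic.trans ℂ (⊥ : IntermediateField ℂ E) E
  obtain ⟨i, j, hj, ht⟩ := hn
  apply ht
  have h9 : v i / v j = algebraMap E L (z i / z j) := by
    rw [map_div₀, hvz, hvz]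
    field_simp
  rw [h9]
  exact (h8.isAlgebraic (z i / z j)).algebraMap

/-- **Degrees** of curves which do not lie over an intersection of `r` hyperplanes, one of each
family. -/
theorem degree_sigma (hcal : S_CAL) (D : CDat x n r) (hx : x ≠ 0) (hD : D.Good) :
    ∃ C : ℕ, ∀ (L : Type) [Field L] [Algebra ℂ L] [IsFF ℂ L] (v : Fin (M + 1) → L), OnVar ℂ x v →
      Nonconst v → (∃ σ : ∀ i, Fin (D.q i), ∀ i, val v (D.pull i (σ i)) = 0) ∨
        pht ℂ v ≤ C * canDeg ℂ L := by
  obtain ⟨C, hC⟩ := hcal M K x n r D hx hD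
  refine ⟨C, fun L _ _ _ v hv hn => ?_⟩
  by_cases h : ∀ i, ∃ j, val v (D.pull i j) = 0
  · choose σ hσ using h
    exact Or.inl ⟨σ, hσ⟩
  · push Not at h
    obtain ⟨i, hi⟩ := h
    right
    rcases hC L v hv i with ⟨j, hj⟩ | h1 | ⟨c, a, h1⟩
    · exact absurd hj (hi j)
    · exact h1
    · exact absurd hn (D.const_curve hD hv h1)

/-- **Hyperbolicity** of the closed subvarieties of dimension at least two. -/
theorem heredB (hcen : S_CEN) (hcal : S_CAL) (D : CDat x n r) (hx : x ≠ 0) (hD : D.Good)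
    (hG1 : S_gpc) (hc : D.Codim 2) : HeredB x := by
  classical
  intro E _ _ w z hz hw htr
  have h1 := fun σ => D.exists_pull hD hc hz (by omega) hw htr σ
  choose i hi using h1
  obtain ⟨C, hC⟩ := D.degree_sigma hcal hx hD
  have hprod : ∀ {L : Type} [Field L] [Algebra ℂ L] (v : Fin (M + 1) → L),
      val v (∏ σ, D.pull (i σ) (σ (i σ))) = ∏ σ, val v (D.pull (i σ) (σ (i σ))) := by
    intro L _ _ v
    unfold Pool.Agent.W602.GT.val
    rw [map_prod]
  refine ⟨∏ σ, D.pull (i σ) (σ (i σ)), ⟨_, MvPolynomial.IsHomogeneous.prod _ _ (fun _ => D.d)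
    fun σ _ => D.form_pull hD _ _⟩, ?_, fun f hf t => ?_, C, fun L _ _ _ f hf hR => ?_⟩
  · rw [hprod]
    exact Finset.prod_ne_zero_iff.2 fun σ _ => hi σ
  · have hfx : EntireCurve x f := ⟨hf.hol, hf.ne, fun G hG hGx => hf.mem G hG (hz.spec G hG hGx),
      hf.nonconst⟩
    obtain ⟨σ, hσ⟩ := D.entire_sigma hcen hx hD hG1 hfx
    rw [map_prod]
    exact Finset.prod_eq_zero (Finset.mem_univ σ) (hσ _ t)
  · have hfx : OnVar ℂ x f := ⟨hf.1, fun G hG hGx => hf.2 G hG (hz.spec G hG hGx)⟩
    have hnn : (0 : ℤ) ≤ C * max (canDeg ℂ L) 0 := by positivity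
    by_cases hn : Nonconst f
    · rcases hC L f hfx hn with ⟨σ, hσ⟩ | h2
      · exfalso
        apply hR
        rw [hprod]
        exact Finset.prod_eq_zero (Finset.mem_univ σ) (hσ _)
      · exact h2.trans (mul_le_mul_of_nonneg_left (le_max_left _ _) (by positivity))
    · exact (Pool.Agent.P8H50.SS.SF.pht_const hf.1 hn).trans hnn

/-- If the intersections are at most points, there are no entire curves. -/
theorem no_entire (hcen : S_CEN) (D : CDat x n r) (hx : x ≠ 0) (hD : D.Good)
    (hG1 : S_gpc) (hc : D.Codim 1) (f : Fin (M + 1) → ℂ → ℂ) : ¬ EntireCurve x f := by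
  intro hf
  obtain ⟨σ, hσ⟩ := D.entire_sigma hcen hx hD hG1 hf
  obtain ⟨E, _, _, v, w, h1, h2, h3, h4, -, -⟩ := gen_of_entire hG1 hf
  obtain ⟨i, hi⟩ := D.exists_pull hD hc h1 h4 h4 h3 σ
  exact hi ((h2 _ ⟨_, D.form_pull hD i (σ i)⟩).2 (hσ i))

end CDat

end Pool.Agent.P8H50.NK
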