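import Pool.Agent.P8H50.NK.Stm2
import Pool.Agent.W602.GT.Defs

/-!
Project NK (helper50): covers of products of projective spaces, a birational class of varieties,
given by their function fields.
-/

set_option autoImplicit false

namespace Pool.Agent.P8H50.NK

/-- Data over the product of the projective spaces of dimensions `n 0, …, n (s - 1)`: hyperplanes
`ℓ j l = 0` (`l < q j`) of the `j`-th factor, and `r` equations of the degrees `m i` with the
exponents `e i j l`. -/
structure PDat (k : Type) [Field k] {s : ℕ} (n : Fin s → ℕ) (r : ℕ) where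
  q : Fin s → ℕ
  t : Fin s → ℕ
  m : Fin r → ℕ
  ℓ : ∀ j, Fin (q j) → Fin (n j + 1) → k
  e : Fin r → ∀ j, Fin (q j) → ℕ

namespace PDat

variable {k : Type} [Field k] {s : ℕ} {n : Fin s → ℕ} {r : ℕ}

/-- The sum of the exponents of the hyperplanes of the factor `j`, divided by the degrees. -/
noncomputable def E (D : PDat k n r) (j : Fin s) : ℝ :=
  ∑ i, (∑ l, (D.e i j l : ℝ)) / D.m i

/-- Every hyperplane occurs in some equation, `m i` divides the sum of the exponents over each factor,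
at most `t j` of the hyperplanes of the factor `j` have a common point, and there are numbers `ρ j`
with `∑ j, ρ j < 1` and `b * (2 * t j + 1 - b) * E j ≤ 2 * ρ j * (q j - (2 * t j + 1 - b))` for
`b = 1, …, n j`. -/
structure Good (D : PDat k n r) : Prop where
  m_pos : ∀ i, 1 ≤ D.m i
  dvd : ∀ i j, D.m i ∣ ∑ l, D.e i j l
  occ : ∀ j l, ∃ i, 1 ≤ D.e i j l
  mult : ∀ j (S : Finset (Fin (D.q j))), S.card = D.t j + 1 → ∀ v : Fin (n j + 1) → k,
    (∀ l ∈ S, ∑ a, D.ℓ j l a * v a = 0) → v = 0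
  dim : ∀ j, n j ≤ D.t j ∧ 2 * D.t j < D.q j
  small : ∃ ρ : Fin s → ℝ, (∀ j, 0 ≤ ρ j) ∧ ∑ j, ρ j < 1 ∧ ∀ j, ∀ b : ℕ, 1 ≤ b → b ≤ n j →
    (b : ℝ) * (2 * D.t j + 1 - b) * D.E j ≤ 2 * ρ j * (D.q j - (2 * D.t j + 1 - b))

/-- Functions `y j a`, the homogeneous coordinates of a point of the product (one of the coordinates
of each factor is equal to one), and functions `z i ≠ 0` with
`z i ^ m i = ∏ j, ∏ l, (∑ a, ℓ j l a * y j a) ^ e i j l`. -/
structure Pt (D : PDat k n r) {K : Type} [Field K] [Algebra k K] (y : ∀ j, Fin (n j + 1) → K)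
    (z : Fin r → K) : Prop where
  one : ∀ j, ∃ a, y j a = 1
  nz : ∀ i, z i ≠ 0
  eq : ∀ i, z i ^ D.m i = ∏ j, ∏ l, lk (D.ℓ j l) (y j) ^ D.e i j l

end PDat

/-- The functions `y j a` in one family. -/
def fl {s : ℕ} {n : Fin s → ℕ} {K : Type} (y : ∀ j, Fin (n j + 1) → K)
    (p : Σ j, Fin (n j + 1)) : K := y p.1 p.2

end Pool.Agent.P8H50.NK
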