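import Pool.Agent.P8H50.NK.All3
import Pool.Agent.P8H50.NK.Surf2
import Pool.Agent.P8H50.SS.Cla

/-!
Project NK (helper50): varieties all of whose closed subvarieties of dimension at least two belong to
the class of Pcl.lean.
-/

set_option autoImplicit false
set_option linter.overlappingInstances false

open FF Pool.Agent.W602.GT

namespace Pool.Agent.P8H50.NK

open Pool.Agent.TH466.QG (SubOf)
open Pool.Agent.Y221.BD (PseudoBrody)
open Pool.Agent.Y216 (CurveBound)
open Pool.Agent.P8H50.SS (isForm_mul val_mul')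

theorem t_DEG : S_DEG := Pool.Agent.P8H75.NK.deg
  (Pool.Agent.P8H16.NK.afi (Pool.Agent.P8H53.NK.aco Pool.Agent.P8H45.NK.aow)
    Pool.Agent.P8H71.NK.asp Pool.Agent.P8H52.NK.wtsf Pool.Agent.P8H16.NK.resf)

/-- the class is closed under isomorphisms -/
theorem IsSpaceCover.of_surj {k K L : Type} [Field k] [Field K] [Algebra k K] [Field L]
    [Algebra k L] (σ : K →ₐ[k] L) (hσ : Function.Surjective σ) {w : ℕ}
    (h : IsSpaceCover k K w) : IsSpaceCover k L w := by
  obtain ⟨s, n, r, D, y, z, hn, hw, hD, hy, halg⟩ := h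
  refine ⟨s, n, r, D, fun j a => σ (y j a), fun i => σ (z i), hn, hw, hD, ⟨fun j => ?_,
    fun i => (_root_.map_ne_zero σ).2 (hy.nz i), fun i => ?_⟩, ⟨fun u => ?_⟩⟩
  · obtain ⟨a, ha⟩ := hy.one j
    exact ⟨a, by rw [ha, map_one]⟩
  · rw [← map_pow, hy.eq i, map_prod]
    refine Finset.prod_congr rfl fun j _ => ?_
    rw [map_prod]
    refine Finset.prod_congr rfl fun l _ => ?_
    rw [map_pow]
    congr 1
    unfold lk
    rw [map_sum]
    exact Finset.sum_congr rfl fun a _ => by rw [map_mul, AlgHom.commutes]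
  · obtain ⟨t, rfl⟩ := hσ u
    obtain ⟨d, g, hg1, hg2⟩ := alg_eqnS (x := fl y) (halg.isAlgebraic t)
    have hfl : fl (fun j a => σ (y j a)) = fun p => σ (fl y p) := rfl
    have h7 : ∀ G : MvPolynomial (Σ j, Fin (n j + 1)) k,
        MvPolynomial.aeval (fl fun j a => σ (y j a)) G = σ (MvPolynomial.aeval (fl y) G) := by
      intro G
      rw [hfl, ← AlgHom.comp_apply, MvPolynomial.comp_aeval]
    refine alg_of_eqnS (D := d) (g := g) ?_ ?_
    · rw [h7]
      exact (_root_.map_ne_zero σ).2 hg1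
    · simp only [h7]
      rw [← map_zero σ, ← hg2, map_sum]
      exact Finset.sum_congr rfl fun j _ => by rw [map_mul, map_pow]

/-- one closed subset -/
theorem hypB_of {M : ℕ} {L : Type} [Field L] [Algebra ℂ L] {v : Fin (M + 1) → L}
    (h1 : PseudoBrody v) (h2 : CurveBound ℂ v) : ∃ R, HypB v R := by
  obtain ⟨R1, f1, n1, g1⟩ := h1
  obtain ⟨R2, f2, n2, A, g2⟩ := h2
  refine ⟨R1 * R2, isForm_mul f1 f2, ?_, fun f hf t => ?_, A, fun E _ _ _ f hf hR => ?_⟩
  · rw [val_mul']
    exact mul_ne_zero n1 n2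
  · rw [map_mul, g1 f hf t, zero_mul]
  · rw [val_mul'] at hR
    exact g2 E f hf (right_ne_zero_of_mul hR)

/-- Every closed subvariety of dimension at least two of the projective variety with the generic point
`x` has a function field in the class `IsSpaceCover` (for products of projective spaces which can
depend on the subvariety). -/
def Spaces {M : ℕ} {K : Type} [Field K] [Algebra ℂ K] (x : Fin (M + 1) → K) : Prop :=
  ∀ (E : Type) [Field E] [Algebra ℂ E] (d : ℕ) (z : Fin (M + 1) → E), SubOf ℂ x z → 2 ≤ d →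
    Algebra.trdeg ℂ E = d → ∃ w, IsSpaceCover ℂ E w

theorem IsSpaceCover.hypB {K : Type} [Field K] [Algebra ℂ K] {w : ℕ} (h : IsSpaceCover ℂ K w)
    {M : ℕ} {v : Fin (M + 1) → K} (hv : v ≠ 0) (hgen : coords ℂ v = ⊤) : ∃ R, HypB v R := by
  obtain ⟨s, n, r, D, y, z, -, -, hD, hy, halg⟩ := h
  exact hypB_of (t_BRO s n r D K y z hD hy halg M v hv hgen)
    (t_CBD s n r D K y z hD hy halg M v hv hgen)

variable {M : ℕ} {K : Type} [Field K] [Algebra ℂ K] {x : Fin (M + 1) → K}

theorem Spaces.heredB (h : Spaces x) : HeredB x := by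
  intro E _ _ d z hz hd ht
  obtain ⟨w, hw⟩ := h E d z hz hd ht
  exact hw.hypB hz.ne hz.gen

theorem Spaces.special (h : Spaces x) : SpecialCurves x := NK.special h.heredB

/-- curves and surfaces -/
theorem IsSpaceCover.spaces {w : ℕ} (hK : IsSpaceCover ℂ K w) {d : ℕ}
    (hd : d ≤ 2) (htr : Algebra.trdeg ℂ K = d) (hx : x ≠ 0) (hgen : coords ℂ x = ⊤) :
    Spaces x := by
  intro E _ _ e z hz he ht
  obtain ⟨h1, h2⟩ := Pool.Agent.Q96.OS.gen_point' (b := x) ⟨Function.ne_iff.1 hx, hgen⟩ htr E z e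
    (fun G D hG hGx => hz.spec G ⟨D, hG⟩ hGx) ⟨Function.ne_iff.1 hz.ne, hz.gen⟩ ht
  obtain ⟨σ, l, -, -, hσ⟩ := h2 (by omega)
  exact ⟨w, hK.of_surj σ hσ⟩

end Pool.Agent.P8H50.NK
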