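import Pool.Agent.P8H50.NK.Sfs

/-!
Project NK (helper50): surfaces of the class, subvarieties of general type.
-/

set_option autoImplicit false
set_option linter.overlappingInstances false

open FF Pool.Agent.W602.GT

namespace Pool.Agent.P8H50.NK

open Pool.Agent.Q103.SF
open Pool.Agent.TH466.QG (SubOf)
open Pool.Agent.W603.LV (canDeg)

variable {M : ℕ} {K : Type} [Field K] [Algebra ℂ K] {x : Fin (M + 1) → K}

theorem IsSpaceCover.general {k L : Type} [Field k] [IsAlgClosed k] [CharZero k] [Field L]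
    [Algebra k L] {w : ℕ} (h : IsSpaceCover k L w) (htr : Algebra.trdeg k L = w) :
    GeneralType k L w := by
  obtain ⟨s, n, r, D, y, z, hn, rfl, hD, hy, halg⟩ := h
  exact t_GTP k s n r D L y z hD hy hn halg htr

/-- surfaces over products of projective spaces of dimension two -/
theorem allGeneral_iff (h : IsSpaceCover ℂ K 2) (htr : Algebra.trdeg ℂ K = (2 : ℕ)) (hx : x ≠ 0)
    (hgen : coords ℂ x = ⊤) : AllGeneral x ↔ lowCurves x = ∅ := by
  constructor
  · intro h0
    rw [Set.eq_empty_iff_forall_notMem]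
    rintro V ⟨L, _, _, _, v, hv, hgen, hc, rfl⟩
    have hne : v ≠ 0 := by
      obtain ⟨j, hj⟩ := hv.1
      intro h
      exact hj (congrFun h j)
    have h1 := h0 L 1 v ⟨hne, hgen, hv.2⟩ le_rfl (by
      rw [IsFF.trdeg (k := ℂ) (K := L)]
      simp)
    have h2 := Pool.Agent.P8H50.SS.SF.pos_of_gt h1
    omega
  · intro h0 E _ _ e z hz he ht
    obtain ⟨h1, h2⟩ := Pool.Agent.Q96.OS.gen_point' (b := x) ⟨Function.ne_iff.1 hx, hgen⟩ htr E z e
      (fun G D hG hGx => hz.spec G ⟨D, hG⟩ hGx) ⟨Function.ne_iff.1 hz.ne, hz.gen⟩ ht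
    by_cases he2 : e = 2
    · subst he2
      obtain ⟨σ, l, -, -, hσ⟩ := h2 rfl
      exact (h.of_surj σ hσ).general ht
    · have he1 : e = 1 := by omega
      subst he1
      have hess : Algebra.EssFiniteType ℂ E := Pool.Agent.Q72.NA.ess_of_adjoin hz.gen
      have hff : IsFF ℂ E := ⟨hess, by rw [ht]; simp⟩
      apply Pool.Agent.Q103.SF.gt_of_canDeg
      by_contra hcon
      rw [not_lt] at hcon
      have h3 : van z ∈ lowCurves x := ⟨E, inferInstance, inferInstance, hff, z,
        ⟨Function.ne_iff.1 hz.ne, hz.spec⟩, hz.gen, hcon, rfl⟩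
      rw [h0] at h3
      exact h3

end Pool.Agent.P8H50.NK
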