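import Pool.Agent.P8H50.NK.Sfs2
import Pool.Agent.W602.GT.War

/-!
Project NK (helper50): varieties with a finite morphism to the variety of a system over a product of
projective spaces.
-/

set_option autoImplicit false
set_option linter.overlappingInstances false

open FF Pool.Agent.W602.GT

namespace Pool.Agent.P8H50.NK

open Pool.Agent.TH466.QG (SubOf)

/-- generators of the field of a point, in terms of the dimension of its linear span -/
theorem exists_gens {m : ℕ} {E : Type} [Field E] [Algebra ℂ E] {y : Fin (m + 1) → E}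
    (hone : ∃ a, y a = 1) : ∃ (p : ℕ) (T : Fin p → E),
      p + 1 = Module.finrank ℂ (LinearMap.range (Fintype.linearCombination ℂ y)) ∧
      ∀ a, y a ∈ IntermediateField.adjoin ℂ (Set.range T) := by
  classical
  set L : (Fin (m + 1) → ℂ) →ₗ[ℂ] E := Fintype.linearCombination ℂ y with hLdef
  have hL : ∀ v, L v = ∑ l, algebraMap ℂ E (v l) * y l := by
    intro v
    rw [hLdef, Fintype.linearCombination_apply]
    exact Finset.sum_congr rfl fun l _ => Algebra.smul_def _ _
  have hyl : ∀ l, L (Pi.single l 1) = y l := by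
    intro l
    rw [hL, Finset.sum_eq_single l]
    · simp
    · intro b _ hb
      rw [Pi.single_eq_of_ne hb, map_zero, zero_mul]
    · intro h
      exact absurd (Finset.mem_univ _) h
  obtain ⟨a0, ha0⟩ := hone
  have hpos : Module.finrank ℂ (LinearMap.range L) ≠ 0 := by
    intro h
    have h1 := Submodule.finrank_eq_zero.1 h
    have h4 : L (Pi.single a0 1) ∈ LinearMap.range L := LinearMap.mem_range_self L _
    rw [h1, Submodule.mem_bot, hyl, ha0] at h4
    exact one_ne_zero h4
  obtain ⟨p, hp⟩ : ∃ p, Module.finrank ℂ (LinearMap.range L) = p + 1 :=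
    ⟨Module.finrank ℂ (LinearMap.range L) - 1, by omega⟩
  let b := Module.finBasisOfFinrankEq ℂ (LinearMap.range L) hp
  let u : Fin (p + 1) → E := fun i => (b i : E)
  have hyu : ∀ l, ∃ a : Fin (p + 1) → ℂ, y l = ∑ i, algebraMap ℂ E (a i) * u i := by
    intro l
    have hm : y l ∈ LinearMap.range L := by
      rw [← hyl l]
      exact LinearMap.mem_range_self L _
    obtain ⟨Y, hY⟩ : ∃ Y : LinearMap.range L, (Y : E) = y l := ⟨⟨y l, hm⟩, rfl⟩
    refine ⟨fun i => b.repr Y i, ?_⟩
    have h4 := congrArg (Subtype.val) (b.sum_repr Y)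
    rw [← hY, ← h4]
    simp only [Submodule.coe_sum, Submodule.coe_smul]
    refine Finset.sum_congr rfl fun i _ => ?_
    rw [Algebra.smul_def]
  obtain ⟨α, hα⟩ := hyu a0
  rw [ha0] at hα
  obtain ⟨i0, hi0⟩ : ∃ i0, α i0 ≠ 0 := by
    by_contra hcon
    push Not at hcon
    simp only [hcon, map_zero, zero_mul, Finset.sum_const_zero] at hα
    exact one_ne_zero hα
  let T : Fin p → E := fun i => u (i0.succAbove i)
  set F := IntermediateField.adjoin ℂ (Set.range T) with hF
  have hT : ∀ i, T i ∈ F := fun i => IntermediateField.subset_adjoin _ _ ⟨i, rfl⟩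
  have hu : ∀ i, u i ∈ F := by
    intro i
    by_cases hi : i = i0
    · subst hi
      rw [Fin.sum_univ_succAbove _ i] at hα
      have h5 : u i = (algebraMap ℂ E (α i))⁻¹ *
          (1 - ∑ l, algebraMap ℂ E (α (i.succAbove l)) * u (i.succAbove l)) := by
        have h6 : algebraMap ℂ E (α i) ≠ 0 := (_root_.map_ne_zero _).2 hi0
        rw [eq_inv_mul_iff_mul_eq₀ h6]
        linear_combination -hα
      rw [h5]
      exact mul_mem (inv_mem (F.algebraMap_mem _)) (sub_mem (one_mem _)
        (sum_mem fun l _ => mul_mem (F.algebraMap_mem _) (hT l)))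
    · obtain ⟨l, rfl⟩ := Fin.exists_succAbove_eq hi
      exact hT l
  refine ⟨p, T, hp.symm, fun a => ?_⟩
  obtain ⟨c, hc⟩ := hyu a
  rw [hc]
  exact sum_mem fun i _ => mul_mem (F.algebraMap_mem _) (hu i)

/-- the dimension of a variety over a product, if there are many linear relations -/
theorem dim_prod {s : ℕ} {n : Fin s → ℕ} {E : Type} [Field E] [Algebra ℂ E]
    {y : ∀ j, Fin (n j + 1) → E} (hone : ∀ j, ∃ a, y j a = 1)
    (halg : Algebra.IsAlgebraic (IntermediateField.adjoin ℂ (Set.range (fl y))) E) {d : ℕ}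
    (htr : Algebra.trdeg ℂ E = d) {c : Fin s → ℕ}
    (hc : ∀ j, c j + Module.finrank ℂ (LinearMap.range (Fintype.linearCombination ℂ (y j))) ≤
      n j + 1) : d + ∑ j, c j ≤ ∑ j, n j := by
  classical
  choose p T hp hT using fun j => exists_gens (hone j)
  let U : (Σ j, Fin (p j)) → E := fun a => T a.1 a.2
  have h1 : IntermediateField.adjoin ℂ (Set.range (fl y)) ≤
      IntermediateField.adjoin ℂ (Set.range U) := by
    rw [IntermediateField.adjoin_le_iff]
    rintro _ ⟨a, rfl⟩
    refine (IntermediateField.adjoin.mono ℂ (Set.range (T a.1)) (Set.range U) ?_) (hT a.1 a.2)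
    rintro _ ⟨i, rfl⟩
    exact ⟨⟨a.1, i⟩, rfl⟩
  have h2 := alg_adjoin (alg_mono h1 halg)
  have h3 := Algebra.IsAlgebraic.trdeg_le_cardinalMk ℂ (Set.range U)
  rw [htr] at h3
  have h4 := h3.trans (Cardinal.mk_range_le (f := U))
  rw [Cardinal.mk_fintype, Fintype.card_sigma] at h4
  have h5 : d ≤ ∑ j, p j := by
    have h6 : (d : Cardinal) ≤ ((∑ j, p j : ℕ) : Cardinal) := by
      simpa using h4
    exact_mod_cast h6
  have h7 : ∑ j, (p j + c j) ≤ ∑ j, n j := Finset.sum_le_sum fun j _ => by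
    have := hp j
    have := hc j
    omega
  rw [Finset.sum_add_distrib] at h7
  omega

/-- the forms of a choice of one hyperplane of each equation, in the factor `j` -/
def SysForms {s : ℕ} {n : Fin s → ℕ} {r : ℕ} (S : Fin r → PDat ℂ n 1)
    (σ : ∀ i, (Σ j, Fin ((S i).q j))) (j : Fin s) : Submodule ℂ (Fin (n j + 1) → ℂ) :=
  Submodule.span ℂ {u | ∃ i l, σ i = ⟨j, l⟩ ∧ u = (S i).ℓ j l}

/-- Every intersection of `r` hyperplanes in the product, one of each equation, is empty or of
dimension at most `c - 1` (in the factor `j` it is a linear subspace of codimension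
`finrank (SysForms S σ j)`). -/
def SysCodim {s : ℕ} {n : Fin s → ℕ} {r : ℕ} (S : Fin r → PDat ℂ n 1) (c : ℕ) : Prop :=
  ∀ σ : ∀ i, (Σ j, Fin ((S i).q j)), (∃ j, n j + 1 ≤ Module.finrank ℂ (SysForms S σ j)) ∨
    ∑ j, n j + 1 ≤ ∑ j, Module.finrank ℂ (SysForms S σ j) + c

/-- general position -/
theorem SysGen.codim {s : ℕ} {n : Fin s → ℕ} {r : ℕ} {S : Fin r → PDat ℂ n 1} (hg : SysGen S)
    {c : ℕ} (hr : ∑ j, n j + 1 ≤ r + c) : SysCodim S c := by
  classical
  intro σ
  by_contra hcon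
  push Not at hcon
  obtain ⟨h1, h2⟩ := hcon
  have hle : ∀ j, Fintype.card {i // (σ i).1 = j} ≤ Module.finrank ℂ (SysForms S σ j) := by
    intro j
    have hl : ∀ i : {i // (σ i).1 = j}, ∃ l : Fin ((S i.1).q j), σ i.1 = ⟨j, l⟩ := by
      rintro ⟨i, rfl⟩
      exact ⟨(σ i).2, rfl⟩
    choose l hl using hl
    let f : {i // (σ i).1 = j} ↪ (Σ i, Fin ((S i).q j)) := ⟨fun i => ⟨i.1, l i⟩,
      fun a b hab => by
        have := congrArg Sigma.fst hab
        exact Subtype.ext this⟩
    obtain ⟨T, -, hT⟩ := Finset.exists_subset_card_eq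
      (s := (Finset.univ : Finset {i // (σ i).1 = j}))
      (n := min (Fintype.card {i // (σ i).1 = j}) (n j + 1)) (by
        rw [Finset.card_univ]; exact min_le_left _ _)
    have h3 := hg j (T.map f) (by rw [Finset.card_map, hT]; exact min_le_right _ _)
    have h4 := h3.comp (fun a : T => (⟨f a.1, Finset.mem_map_of_mem f a.2⟩ : T.map f))
      (fun a b hab => Subtype.ext (f.injective (congrArg Subtype.val hab)))
    have h5 := finrank_span_eq_card h4
    rw [Fintype.card_coe, hT] at h5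
    have h6 : Submodule.span ℂ (Set.range ((fun a : (T.map f : Finset _) =>
        (S a.1.1).ℓ j a.1.2) ∘ fun a : T => (⟨f a.1, Finset.mem_map_of_mem f a.2⟩ :
          (T.map f : Finset _)))) ≤ SysForms S σ j := by
      apply Submodule.span_mono
      rintro _ ⟨a, rfl⟩
      exact ⟨a.1.1, l a.1, hl a.1, rfl⟩
    have h7 := Submodule.finrank_mono h6
    rw [h5] at h7
    have h8 := h1 j
    rcases le_total (Fintype.card {i // (σ i).1 = j}) (n j + 1) with h9 | h9
    · rwa [min_eq_left h9] at h7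
    · rw [min_eq_right h9] at h7
      omega
  have hsum : ∑ j, Fintype.card {i // (σ i).1 = j} = r := by
    simp only [Fintype.card_subtype]
    rw [← Finset.card_eq_sum_card_fiberwise (fun i _ => Finset.mem_coe.2 (Finset.mem_univ _)),
      Finset.card_univ, Fintype.card_fin]
  have h3 := Finset.sum_le_sum fun j (_ : j ∈ Finset.univ) => hle j
  omega

/-- on a variety of dimension at least `c` over the system some `ζ i` is not zero -/
theorem sys_ne {s : ℕ} {n : Fin s → ℕ} {r : ℕ} {S : Fin r → PDat ℂ n 1}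
    (hS : ∀ i, (S i).Good) {c : ℕ} (hc : SysCodim S c)
    {E : Type} [Field E] [Algebra ℂ E] {d : ℕ} (hd : c ≤ d) (htr : Algebra.trdeg ℂ E = d)
    {y : ∀ j, Fin (n j + 1) → E} {ζ : Fin r → E} (hone : ∀ j, ∃ a, y j a = 1)
    (heq : ∀ i, ζ i ^ (S i).m 0 = ∏ j, ∏ l, lk ((S i).ℓ j l) (y j) ^ (S i).e 0 j l)
    (halg : Algebra.IsAlgebraic (IntermediateField.adjoin ℂ (Set.range (fl y))) E) :
    ∃ i, ζ i ≠ 0 := by
  classical
  by_contra h0
  push Not at h0
  have hid : ∀ i, ∃ p : (Σ j, Fin ((S i).q j)), lk ((S i).ℓ p.1 p.2) (y p.1) = 0 := by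
    intro i
    have h1 := heq i
    rw [h0 i, zero_pow (Nat.one_le_iff_ne_zero.1 ((hS i).m_pos 0))] at h1
    obtain ⟨j, -, hj⟩ := Finset.prod_eq_zero_iff.1 h1.symm
    obtain ⟨l, -, hl⟩ := Finset.prod_eq_zero_iff.1 hj
    exact ⟨⟨j, l⟩, (pow_eq_zero_iff' .. ).1 hl |>.1⟩
  choose σ hσ using hid
  have hrank : ∀ j, Module.finrank ℂ (SysForms S σ j) +
      Module.finrank ℂ (LinearMap.range (Fintype.linearCombination ℂ (y j))) ≤ n j + 1 := by
    intro j
    set L : (Fin (n j + 1) → ℂ) →ₗ[ℂ] E := Fintype.linearCombination ℂ (y j) with hLdef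
    have hL : ∀ v, L v = lk v (y j) := by
      intro v
      rw [hLdef, Fintype.linearCombination_apply]
      exact Finset.sum_congr rfl fun l _ => Algebra.smul_def _ _
    have h2 : SysForms S σ j ≤ LinearMap.ker L := by
      unfold SysForms
      rw [Submodule.span_le]
      rintro _ ⟨i, l, hi, rfl⟩
      rw [SetLike.mem_coe, LinearMap.mem_ker, hL]
      have h3 := hσ i
      rw [hi] at h3
      exact h3
    have h3 := Submodule.finrank_mono h2
    have h4 := LinearMap.finrank_range_add_finrank_ker L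
    rw [Module.finrank_fin_fun] at h4
    omega
  have hpos : ∀ j, 1 ≤ Module.finrank ℂ
      (LinearMap.range (Fintype.linearCombination ℂ (y j))) := by
    intro j
    obtain ⟨p, T', hp, -⟩ := exists_gens (hone j)
    omega
  have h1 := dim_prod hone halg htr hrank
  rcases hc σ with ⟨j, hj⟩ | h2
  · have := hrank j
    have := hpos j
    omega
  · omega

/-- `X` (with the generic point `x`) is a variety over the system: every closed subvariety of `X`
of dimension at least `c` has a generically finite rational map `y` to the product of the projective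
spaces, with functions `ζ i` which satisfy the equations of the system. -/
def OverSys {M : ℕ} {K : Type} [Field K] [Algebra ℂ K] (x : Fin (M + 1) → K) {s : ℕ}
    {n : Fin s → ℕ} {r : ℕ} (S : Fin r → PDat ℂ n 1) (c : ℕ) : Prop :=
  ∀ (E : Type) [Field E] [Algebra ℂ E] (d : ℕ) (z : Fin (M + 1) → E), SubOf ℂ x z → c ≤ d →
    Algebra.trdeg ℂ E = d → ∃ (y : ∀ j, Fin (n j + 1) → E) (ζ : Fin r → E),
      (∀ j, ∃ a, y j a = 1) ∧
      (∀ i, ζ i ^ (S i).m 0 = ∏ j, ∏ l, lk ((S i).ℓ j l) (y j) ^ (S i).e 0 j l) ∧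
      Algebra.IsAlgebraic (IntermediateField.adjoin ℂ (Set.range (fl y))) E

variable {M : ℕ} {K : Type} [Field K] [Algebra ℂ K] {x : Fin (M + 1) → K}

/-- **Varieties over a system.** -/
theorem OverSys.spaces {s : ℕ} {n : Fin s → ℕ} {r : ℕ} {S : Fin r → PDat ℂ n 1}
    (hS : ∀ i, (S i).Good) (hn : ∀ j, 1 ≤ n j) (hc : SysCodim S 2) (h : OverSys x S 2) :
    Spaces x := by
  intro E _ _ d z hz hd ht
  obtain ⟨y, ζ, h1, h2, h3⟩ := h E d z hz hd ht
  obtain ⟨i, hi⟩ := sys_ne hS hc hd ht h1 h2 h3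
  refine ⟨_, s, n, 1, S i, y, fun _ => ζ i, hn, rfl, hS i, ⟨h1, fun _ => hi, fun i' => ?_⟩, h3⟩
  have : i' = 0 := Subsingleton.elim _ _
  rw [this]
  exact h2 i

open Pool.Agent.Q103.SF
open Pool.Agent.W603.LV (canDeg hgt)

/-- no curves of genus `≤ 1` -/
theorem OverSys.low {s : ℕ} {n : Fin s → ℕ} {r : ℕ} {S : Fin r → PDat ℂ n 1}
    (hS : ∀ i, (S i).Good) (hc : SysCodim S 1) (h : OverSys x S 1) :
    lowCurves x = ∅ := by
  classical
  rw [Set.eq_empty_iff_forall_notMem]
  rintro V ⟨L, _, _, _, v, hv, hgen, hcan, rfl⟩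
  have hne : v ≠ 0 := by
    obtain ⟨j, hj⟩ := hv.1
    intro h
    exact hj (congrFun h j)
  have htr : Algebra.trdeg ℂ L = (1 : ℕ) := by
    rw [IsFF.trdeg (k := ℂ) (K := L)]
    simp
  obtain ⟨y, ζ, h1, h2, h3⟩ := h L 1 v ⟨hne, hgen, hv.2⟩ le_rfl htr
  obtain ⟨i, hi⟩ := sys_ne hS hc le_rfl htr h1 h2 h3
  obtain ⟨C, hC⟩ := t_DEG s n 1 (S i) (hS i)
  have h4 := hC L y (fun _ => ζ i) ⟨h1, fun _ => hi, fun i' => by
    have : i' = 0 := Subsingleton.elim _ _
    rw [this]
    exact h2 i⟩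
  have h5 : ∀ j a, ∃ c : ℂ, y j a = algebraMap ℂ L c := by
    intro j a
    have h8 := h4 j a
    rw [max_eq_right hcan, mul_zero] at h8
    exact Pool.Agent.W603.LV.const_of_hgt h8
  have h6 : IntermediateField.adjoin ℂ (Set.range (fl y)) = ⊥ := by
    rw [eq_bot_iff, IntermediateField.adjoin_le_iff]
    rintro _ ⟨p, rfl⟩
    obtain ⟨c, hc⟩ := h5 p.1 p.2
    rw [SetLike.mem_coe, IntermediateField.mem_bot]
    exact ⟨c, hc.symm⟩
  rw [h6] at h3
  have h7 : Algebra.IsAlgebraic ℂ L := by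
    have h8 : Algebra.IsAlgebraic ℂ (⊥ : IntermediateField ℂ L) :=
      (IntermediateField.botEquiv ℂ L).symm.isAlgebraic
    exact Algebra.IsAlgebraic.trans ℂ (⊥ : IntermediateField ℂ L) L
  have h8 : Algebra.trdeg ℂ L = 0 := trdeg_eq_zero_iff.2 h7
  rw [h8] at htr
  exact absurd htr (by simp)

end Pool.Agent.P8H50.NK
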