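import Pool.Agent.P8H50.NK.Sfs3
import Pool.Agent.P8H50.NK.Exm

/-!
Project NK (helper50): closed subvarieties of complete intersections of cyclic covers as varieties over
a system.
-/

set_option autoImplicit false
set_option linter.overlappingInstances false

open FF Pool.Agent.W602.GT

namespace Pool.Agent.P8H50.NK

open Pool.Agent.TH466.QG (SubOf)

theorem SysCodim.mono {s : ℕ} {n : Fin s → ℕ} {r : ℕ} {S : Fin r → PDat ℂ n 1} {c c' : ℕ}
    (h : SysCodim S c) (hc : c ≤ c') : SysCodim S c' := fun σ => (h σ).imp id fun h1 => by omega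

theorem OverSys.mono {M : ℕ} {K : Type} [Field K] [Algebra ℂ K] {x : Fin (M + 1) → K} {s : ℕ}
    {n : Fin s → ℕ} {r : ℕ} {S : Fin r → PDat ℂ n 1} {c c' : ℕ} (h : OverSys x S c)
    (hc : c ≤ c') : OverSys x S c' := fun E _ _ d z hz hd ht => h E d z hz (hc.trans hd) ht

variable {n r : ℕ} {q : Fin r → ℕ} {ℓ : ∀ i, Fin (q i) → Fin (n + 1) → ℂ}

/-- the equations `w i ^ q i = ∏ j, ∑ a, ℓ i j a * y a` -/
def ciSys (q : Fin r → ℕ) (ℓ : ∀ i, Fin (q i) → Fin (n + 1) → ℂ) (i : Fin r) :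
    PDat ℂ (fun _ : Fin 1 => n) 1 where
  q := fun _ => q i
  t := fun _ => n
  m := fun _ => q i
  ℓ := fun _ => ℓ i
  e := fun _ _ _ => 1

theorem ciSys_good (hℓ : GenPos ℓ) (hq : ∀ i, (n + 1) * (n + 2) < 2 * q i) (i : Fin r) :
    (ciSys q ℓ i).Good := by
  have h2 := two_mul_lt (hq i)
  have hq0 : 0 < q i := by omega
  have hqR : (0 : ℝ) < q i := by exact_mod_cast hq0
  have hq1 : (1 : ℝ) ≤ q i := by exact_mod_cast hq0
  refine
    { m_pos := fun _ => hq0
      dvd := fun _ _ => ?_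
      occ := fun j l => ⟨0, le_rfl⟩
      mult := fun j S hS v hv => hℓ.mult i S hS v hv
      dim := fun _ => ⟨le_rfl, h2⟩
      small := ⟨fun _ => 1 - 1 / (2 * q i), fun _ => ?_, ?_, fun j b hb hbn => ?_⟩ }
  · show q i ∣ ∑ _l : Fin (q i), 1
    simp
  · have : 1 / (2 * (q i : ℝ)) ≤ 1 := by
      rw [div_le_one (by positivity)]
      linarith
    linarith
  · have : (0 : ℝ) < 1 / (2 * q i) := by positivity
    simp only [Finset.univ_unique, Finset.sum_const, Finset.card_singleton, one_smul]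
    linarith
  · have hE : (ciSys q ℓ i).E j = 1 := by
      unfold PDat.E
      show ∑ _i : Fin 1, (∑ _l : Fin (q i), ((1 : ℕ) : ℝ)) / (q i : ℝ) = _
      simp [hqR.ne']
    rw [hE]
    show (b : ℝ) * (2 * n + 1 - b) * 1 ≤ 2 * (1 - 1 / (2 * q i)) * (q i - (2 * n + 1 - b))
    have hbn' : b ≤ n := hbn
    have h3 := small_of (hq i) hbn'
    have h4 : b * (2 * n + 1 - b) < 2 * (q i + b - (2 * n + 1)) := by
      have e1 : 2 * q i * (q i + b - (2 * n + 1)) = 2 * (q i + b - (2 * n + 1)) * q i := by ring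
      rw [e1] at h3
      exact lt_of_mul_lt_mul_right h3 (Nat.zero_le _)
    have hb1 : b ≤ 2 * n + 1 := by omega
    have hb2 : 2 * n + 1 ≤ q i + b := by omega
    have h5 : ((b * (2 * n + 1 - b) + 1 : ℕ) : ℝ) ≤ ((2 * (q i + b - (2 * n + 1)) : ℕ) : ℝ) := by
      exact_mod_cast h4
    rw [Nat.cast_add, Nat.cast_mul, Nat.cast_sub hb1, Nat.cast_mul, Nat.cast_sub hb2] at h5
    push_cast at h5
    have h6 : ((q i : ℝ) + b - (2 * n + 1)) / q i ≤ 1 := by
      rw [div_le_one hqR]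
      have : (b : ℝ) ≤ n := by exact_mod_cast hbn'
      have : (0 : ℝ) ≤ n := by positivity
      linarith
    have e2 : 2 * (1 - 1 / (2 * (q i : ℝ))) * (q i - (2 * n + 1 - b)) =
        2 * (q i + b - (2 * n + 1)) - ((q i : ℝ) + b - (2 * n + 1)) / q i := by
      field_simp
      ring
    rw [e2, mul_one]
    linarith

theorem ciSys_gen (hℓ : GenPos ℓ) : SysGen (ciSys q ℓ) := fun _ T hT => hℓ T hT

theorem ciSys_over (hq : ∀ i, 0 < q i) {K : Type} [Field K] [Algebra ℂ K] {w : Fin r → K}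
    {y : Fin (n + 1) → K} (h : ∀ i, w i ^ q i = ∏ j, ∑ l, algebraMap ℂ K (ℓ i j l) * y l) (c : ℕ) :
    OverSys (pt w y) (ciSys q ℓ) c := by
  intro E _ _ d z hz _ _
  have h1 := ci_rel h hz.spec
  obtain ⟨l0, hl0⟩ := ci_ne hq hz.ne h1
  have h2 := ci_alg hq hz.ne hz.gen h1
  set u : Fin (n + 1) → E := fun l => z (Fin.natAdd r l : Fin (r + (n + 1))) with hu
  refine ⟨fun _ a => u a / u l0, fun i => z (Fin.castAdd (n + 1) i : Fin (r + (n + 1))) / u l0,
    fun _ => ⟨l0, div_self hl0⟩, fun i => ?_, ?_⟩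
  · show (z (Fin.castAdd (n + 1) i : Fin (r + (n + 1))) / u l0) ^ q i =
      ∏ _j : Fin 1, ∏ l : Fin (q i), lk (ℓ i l) (fun a => u a / u l0) ^ 1
    rw [Fin.prod_univ_one, div_pow, h1 i]
    have h3 : u l0 ^ q i = ∏ _j : Fin (q i), u l0 := by
      rw [Finset.prod_const, Finset.card_univ, Fintype.card_fin]
    rw [h3, ← Finset.prod_div_distrib]
    refine Finset.prod_congr rfl fun j _ => ?_
    rw [pow_one, Finset.sum_div]
    unfold lk
    exact Finset.sum_congr rfl fun l _ => by rw [mul_div_assoc]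
  · refine alg_mono ?_ h2
    unfold coords
    rw [IntermediateField.adjoin_le_iff]
    rintro _ ⟨i, j, hj, rfl⟩
    have hm : ∀ a, u a / u l0 ∈ IntermediateField.adjoin ℂ
        (Set.range (fl (fun (_ : Fin 1) a => u a / u l0))) := fun a =>
      IntermediateField.subset_adjoin _ _ ⟨⟨0, a⟩, rfl⟩
    have hl0' : u l0 ≠ 0 := hl0
    have h4 : u i / u j = (u i / u l0) / (u j / u l0) :=
      (div_div_div_cancel_right₀ hl0' _ _).symm
    show u i / u j ∈ _
    rw [h4]
    exact div_mem (hm i) (hm j)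

end Pool.Agent.P8H50.NK
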