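import Pool.Agent.W603.PV.Hgt
import Pool.Agent.W603.LV.Loc
import Pool.Agent.N750.Noch

/-!
Project NK (helper50), second part: the algebraic version, over function fields of curves.
Statements of the packages, with proofs in the docstrings.

Useful: Pool.Agent.W603.LV.Wr (Wronskians `wr D f`, `wr_change`, `wr_ne_zero`), LV.Loc (`ge_step`,
`ge_iter`, `ge_det`, `tri`, model `local_est`), LV.Hgt, PV.Hgt (`pord`, `pht`), PV.Main
(`pord_scale`, `pord_finite`, `pht_scale`), P8H50.SG.Deg (model `deg_bound`: `der`, `vo`, `canDeg_finset`,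
`sum_ord_finset`), N750.Noch (weights, `greedy`, `rk`).
-/

set_option autoImplicit false

namespace Pool.Agent.P8H50.NK

open FF Pool.Agent.W603.LV Pool.Agent.W603.PV

/-- the value of a linear form with constant coefficients -/
def lk {k K : Type} [Field k] [Field K] [Algebra k K] {n : ℕ} (b : Fin n → k) (f : Fin n → K) :
    K := ∑ i, algebraMap k K (b i) * f i

/-- weights in the style of Nochka, over a field `k` -/
structure WtsF {k : Type} [Field k] {n q : ℕ} (M : Fin q → Fin n → k) (ω : Fin q → ℝ) : Prop where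
  nonneg : ∀ j, 0 ≤ ω j
  le : ∀ A : Finset (Fin q), Pool.Agent.N750.rk k M A < n →
    ∑ j ∈ A, ω j ≤ Pool.Agent.N750.rk k M A
  full : Pool.Agent.N750.rk k M Finset.univ = n

/-- **WTSF**: S_WTS of Stm.lean over any field `k` (same proof; please prove this one, S_WTS is the
case `k = ℂ` up to unfolding `rk`). -/
def S_WTSF : Prop := ∀ (k : Type) [Field k] (n q t : ℕ) (M : Fin q → Fin n → k), 1 ≤ n →
  n ≤ t + 1 → 2 * t < q → (∀ A : Finset (Fin q), A.card = t + 1 → Pool.Agent.N750.rk k M A = n) →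
  ∃ ω : Fin q → ℝ, WtsF M ω ∧
    (n : ℝ) * (q - (2 * t - n + 2)) / (2 * t - n + 2) ≤ ∑ j, ω j - n

/-- **RESF** (40 lines): S_RES over any field: the map `v ↦ v ∘ A` from `k ^ n` to `k ^ k'` is
surjective (because of `B`), so the images of a spanning family span. -/
def S_RESF : Prop := ∀ (k : Type) [Field k] (n p q : ℕ) (M : Fin q → Fin n → k)
  (A : Fin n → Fin p → k) (B : Fin p → Fin n → k),
  (∀ l l', ∑ i, B l i * A i l' = if l = l' then 1 else 0) →
  ∀ S : Finset (Fin q), Pool.Agent.N750.rk k M S = n →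
    Pool.Agent.N750.rk k (fun j l => ∑ i, M j i * A i l) S = p

/-- **AOW** (120 lines). The order of the Wronskian at a place. `f 0, …, f n` linearly independent
over `k`, the `M l`, `l ∈ b`, independent. Write `μ = pord P f`, `π = unif P`, `δ = (D π)⁻¹ • D`, so that
`D = u • δ` with `u = D π`, `ord u = vo P D`. Complete the `M l` (`l ∈ b`) to a basis `B i` of
`k ^ (n + 1)`; `g i = lk (B i) f`; `wr D g = det B * wr D f` (constants), and
`wr D g = ∏ r, u ^ r * π ^ μ * wr δ (π ^ (- μ) g)` by `wr_change`. Every `π ^ (- μ) g i` has order at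
least zero, and `ord (g l) - μ` for `l ∈ b`; `ge_iter` and `ge_det` (expansion of the determinant)
give `ord wr δ (π ^ (- μ) g) ≥ ∑_{l ∈ b} (ord (g l) - μ) - (0 + 1 + … + n)`. -/
def S_AOW : Prop := ∀ (k K : Type) [Field k] [Field K] [Algebra k K] [CharZero k] [IsFF k K]
  [IsAlgClosed k] (n q : ℕ) (M : Fin q → Fin (n + 1) → k) (f : Fin (n + 1) → K),
  LinearIndependent k f → ∀ D : Derivation k K K, D ≠ 0 →
  ∀ b : Finset (Fin q), LinearIndepOn k M (b : Set (Fin q)) → ∀ P : Place k K,
    ∑ l ∈ b, (P.ord (lk (M l) f) - pord P f) ≤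
      P.ord (wr D f) - (n + 1) * pord P f - tri (n + 1) * vo P D + tri (n + 1)

/-- **ACO** (150 lines; may assume S_AOW). The core. `D = der k K`. At a place `P` let
`a i j = ord (lk (M i j) (f i)) - pord P (f i) ≥ 0`. The set `S = {j : a i j > 0}` has rank `< n i + 1`
(otherwise all the coordinates of `f i` would have order larger than the minimum), and `greedy` of
N750.Noch with `Λ j = a i j` and AOW give
`∑ j, ω i j * a i j ≤ ord (wr D (f i)) - (n i + 1) pord - tri vo + tri` and if all `a i j` are zero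
the left side is zero and `0 ≤ ord (wr D (f i)) - (n i + 1) pord - tri vo` (the same proof as AOW
with all `g i` of order at least `μ`; in AOW the loss is only there because of the `l ∈ b`:
prove this separately: `wr δ` of regular functions is regular). Hence
`0 ≤ ∑ i, c i (ord wr - (n i + 1) pord - tri vo) + ∑ i j, (e i j - c i ω i j) a i j` at every `P`, by
the hypothesis on `m`. Sum over a finite set of places containing all relevant ones:
`∑ ord = 0`, `∑ pord = - pht`, `∑ vo = - canDeg`. -/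
def S_ACO : Prop := ∀ (k K : Type) [Field k] [Field K] [Algebra k K] [CharZero k] [IsFF k K]
  [IsAlgClosed k] (s : ℕ) (n q : Fin s → ℕ) (M : ∀ i, Fin (q i) → Fin (n i + 1) → k)
  (ω : ∀ i, Fin (q i) → ℝ) (e : ∀ i, Fin (q i) → ℕ) (m : ℕ) (c : Fin s → ℝ)
  (f : ∀ i, Fin (n i + 1) → K), (∀ i, WtsF (M i) (ω i)) → (∀ i, LinearIndependent k (f i)) →
  (∀ i j, M i j ≠ 0) → (∀ i, 0 ≤ c i) → (∀ i j, 1 ≤ e i j) →
  (∑ i, c i * (((n i : ℝ) + 1) * n i / 2) ≤ m) →
  (∀ P : Place k K, (∑ i, ∑ j, (e i j : ℤ) * (P.ord (lk (M i j) (f i)) - pord P (f i)) = 0) ∨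
    (m : ℤ) ≤ ∑ i, ∑ j, (e i j : ℤ) * (P.ord (lk (M i j) (f i)) - pord P (f i))) →
  ∑ i, (c i * (∑ j, ω i j - (n i + 1)) - ∑ j, (e i j : ℝ)) * (pht k (f i) : ℝ) ≤
    (∑ i, c i * (((n i : ℝ) + 1) * n i / 2)) * (canDeg k K : ℝ)

/-- **ASP** (100 lines). The linear span of a point. `f l` is a basis over `k` of the span of the
coordinates of `x`; the minimum of the orders is the same for `x` and `f` at every place (each is a
combination of the other with constant coefficients), so `pht k x = pht k f`; if the span has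
dimension one then `x = c * a` with `a` constant, and the height is zero. -/
def S_ASP : Prop := ∀ (k K : Type) [Field k] [Field K] [Algebra k K] [CharZero k] [IsFF k K]
  [IsAlgClosed k] (n : ℕ) (x : Fin (n + 1) → K), x ≠ 0 →
  ∃ (p : ℕ) (f : Fin (p + 1) → K) (A : Fin (n + 1) → Fin (p + 1) → k)
    (B : Fin (p + 1) → Fin (n + 1) → k), LinearIndependent k f ∧ p ≤ n ∧
    (∀ i, x i = ∑ l, algebraMap k K (A i l) * f l) ∧
    (∀ l l', ∑ i, B l i * A i l' = if l = l' then 1 else 0) ∧
    (∀ P : Place k K, pord P f = pord P x) ∧ pht k f = pht k x ∧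
    (p = 0 → pht k x = 0 ∧ ∃ (c : K) (a : Fin (n + 1) → k), ∀ i, x i = c * algebraMap k K (a i))

/-- **AFI** (200 lines; may assume S_ACO, S_ASP, S_WTSF, S_RESF). Points of a product of
projective spaces over the function field `K` with joint multiplicities: bound of the heights, with
a constant which depends only on the numbers. The data are as in S_CUR of Stm.lean, over any
algebraically closed field `k` of characteristic zero. Proof: as for CUR: spans, the set
`J = {i : 1 ≤ p i}` of the nonconstant factors, weights from WTSF, `c i = (∑ e) / δ i + η` (`p i + 1`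
in place of `k i`), ACO over `J` (for `i ∉ J` all the orders `ord lk - pord` are zero, as
`x i = c a`). The left side of ACO is at least `∑_J η δ i pht`, with `δ i ≥ δ0 > 0`; the constants
range over a finite set of possible `(p i)`, so `C` can be chosen independent of `K` and `x`.
If `J` is empty all heights are zero; then the point is constant (second alternative). -/
def S_AFI : Prop := ∀ (s : ℕ) (n q t : Fin s → ℕ) (e : ∀ i, Fin (q i) → ℕ) (m : ℕ)
  (ρ : Fin s → ℝ), (∀ i, n i ≤ t i ∧ 2 * t i < q i) → (∀ i j, 1 ≤ e i j) →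
  (∀ i, 0 ≤ ρ i ∧ ∀ p : ℕ, 2 ≤ p → p ≤ n i + 1 → ((p : ℝ) - 1) * (2 * t i - p + 2) *
    ∑ j, (e i j : ℝ) ≤ 2 * ρ i * (q i - (2 * t i - p + 2))) → (∑ i, ρ i < m) →
  ∃ C : ℝ, 0 < C ∧ ∀ (k K : Type) [Field k] [Field K] [Algebra k K] [CharZero k] [IsFF k K]
    [IsAlgClosed k] (ℓ : ∀ i, Fin (q i) → Fin (n i + 1) → k) (x : ∀ i, Fin (n i + 1) → K),
    (∀ i (A : Finset (Fin (q i))), A.card = t i + 1 → Pool.Agent.N750.rk k (ℓ i) A = n i + 1) →
    (∀ i, x i ≠ 0) → (∀ i j, lk (ℓ i j) (x i) ≠ 0) →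
    (∀ P : Place k K, (∑ i, ∑ j, (e i j : ℤ) * (P.ord (lk (ℓ i j) (x i)) - pord P (x i)) = 0) ∨
      (m : ℤ) ≤ ∑ i, ∑ j, (e i j : ℤ) * (P.ord (lk (ℓ i j) (x i)) - pord P (x i))) →
    (∑ i, (pht k (x i) : ℝ) ≤ C * (canDeg k K : ℝ)) ∨
      ∀ i, ∃ (c : K) (a : Fin (n i + 1) → k), ∀ l, x i l = c * algebraMap k K (a l)

end Pool.Agent.P8H50.NK
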