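import Pool.Agent.P8H50.NK.CDefs
import Pool.Agent.P8H50.NK.Stm
import Pool.Agent.P8H50.NK.Stm2

/-!
Project NK (helper50), third part: geometric statements.
-/

set_option autoImplicit false

namespace Pool.Agent.P8H50.NK

open FF
open Pool.Agent.W602.GT
open Pool.Agent.Y221.BD (EntireCurve)
open Pool.Agent.Y216 (OnVar)
open Pool.Agent.W603.LV (canDeg)
open Pool.Agent.W603.PV (pht)

/-- **CEN** (150 lines; may assume S_CUR of Stm.lean). Entire curves in `X`: for every family `i`,
the image of `φ ∘ f` is in one of the hyperplanes, or `φ ∘ f` is constant.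
Proof: `F l t = eval (f t) (A l)` is entire, and the `F l` have no common zero (`free` at the point
`f t`, which is in VarPts by EntireCurve.mem). Fix `i`. If no `lf (ℓ i j) F` vanishes
identically, apply S_CUR with `s = 1`: numbers `n + 1`, `q i`, `t i`, `e i`, `m i`. Choose `ρ` = the
maximum over `k = 2, …, n + 1` of `(k - 1) (2 t - k + 2) (∑ e) / (2 (q - (2 t - k + 2)))` and 0,
which is `< m` by `small` (with `k - 1` in place of `k`; note `m i > 0` by `small` or `dvd`, `pos`; for `n = 0` the curve is constant anyway). `rk_of_zero` in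
P8H50/NK/Geo.lean gives the rank condition. The multiplicities: the form
`B ^ m - ∏ pull ^ e` (homogeneous of degree `d * ∑ e`: `homA`, `homB`, `dvd`) vanishes at `x`, so it
vanishes on `f`: `(eval (f t) B) ^ m = ∏ (lf (ℓ i j) F t) ^ e i j`, and `order_prod` in
P8H10.GC6 (end of `cover`) gives `∑ j, e i j * ord = m * ord (B ∘ f)`. -/
def S_CEN : Prop := ∀ (M : ℕ) (K : Type) [Field K] [Algebra ℂ K] (x : Fin (M + 1) → K)
  (n r : ℕ) (D : CDat x n r), x ≠ 0 → D.Good → ∀ f : Fin (M + 1) → ℂ → ℂ, EntireCurve x f →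
  ∀ i, (∃ j, ∀ t, MvPolynomial.eval (fun a => f a t) (D.pull i j) = 0) ∨
    ∀ z z', ∃ c : ℂ, c ≠ 0 ∧ ∀ l, MvPolynomial.eval (fun a => f a z') (D.A l) =
      c * MvPolynomial.eval (fun a => f a z) (D.A l)

/-- **CAL** (200 lines; may assume S_AFI of Stm2.lean). Morphisms from curves to `X`: with a constant
`C`, for every family `i`, the image of `φ ∘ v` is in one of the hyperplanes, or it is
constant, or the degree is at most `C * (2 g - 2)`.
Proof: `y l = val v (A l)`. `y ≠ 0`: the point `v` has a specialisation in `VarPts ℂ x` (normalise at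
a place `P` and take residues: models `zero_sigma`, Q96.LS `Norm`, W603.PV), and moreover
`pord P y = d * pord P v` at every place `P` by `free`, so `pht y = d * pht v`, `d ≥ 1`. Fix
`i` and suppose that no `lk (ℓ i j) y` is zero. S_AFI with `s = 1` (`ρ` as in CEN). Multiplicities:
`m * ord (val v B) = ∑ e ord (lk (ℓ i j) y)`, so
`∑ e (ord (lk (ℓ i j) y) - pord y) = m * ord (val v B) - (∑ e) * pord y` is a multiple of `m` by
`dvd`, and it is nonnegative: it is zero or at least `m`. -/
def S_CAL : Prop := ∀ (M : ℕ) (K : Type) [Field K] [Algebra ℂ K] (x : Fin (M + 1) → K)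
  (n r : ℕ) (D : CDat x n r), x ≠ 0 → D.Good → ∃ C : ℕ, ∀ (L : Type) [Field L] [Algebra ℂ L]
  [IsFF ℂ L] (v : Fin (M + 1) → L), OnVar ℂ x v → ∀ i,
    (∃ j, val v (D.pull i j) = 0) ∨ (pht ℂ v ≤ C * canDeg ℂ L) ∨
      ∃ (c : L) (a : Fin (n + 1) → ℂ), ∀ l, val v (D.A l) = c * algebraMap ℂ L (a l)

end Pool.Agent.P8H50.NK
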